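import Mathlib

/-!
# SG: packing seagulls outside a maximum clique, basic notions

`F` is a triangle-free graph (the complement of a graph without stable sets of size three). A
seagull is a set of three vertices with exactly one edge of `F`.
-/

set_option autoImplicit false

namespace Pool.Agent.SG

open Finset
open scoped Classical

variable {V : Type} {F : SimpleGraph V}

/-- `F` has no triangle -/
def TriFree (F : SimpleGraph V) : Prop := ∀ x y z, F.Adj x y → F.Adj y z → ¬ F.Adj x z

/-- a seagull: an edge `a c` of `F` and a vertex `b` joined to none of its ends -/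
structure Sg (F : SimpleGraph V) (a c b : V) : Prop where
  ac : F.Adj a c
  ab : ¬ F.Adj a b
  cb : ¬ F.Adj c b
  nab : a ≠ b
  ncb : c ≠ b

theorem Sg.symm {a c b : V} (h : Sg F a c b) : Sg F c a b := ⟨h.ac.symm, h.cb, h.ab, h.ncb, h.nab⟩

/-- a set which is a seagull -/
def IsSg (F : SimpleGraph V) (S : Finset V) : Prop := ∃ a c b, Sg F a c b ∧ S = {a, c, b}

theorem Sg.isSg {a c b : V} (h : Sg F a c b) : IsSg F {a, c, b} := ⟨a, c, b, h, rfl⟩

theorem Sg.card {a c b : V} (h : Sg F a c b) : ({a, c, b} : Finset V).card = 3 :=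
  Finset.card_eq_three.2 ⟨a, c, b, h.ac.ne, h.nab, h.ncb, rfl⟩

theorem IsSg.card {S : Finset V} (h : IsSg F S) : S.card = 3 := by
  obtain ⟨a, c, b, h1, rfl⟩ := h
  exact h1.card

/-- a family of disjoint seagulls inside `R` -/
structure Fam (F : SimpleGraph V) (R : Finset V) (SS : Finset (Finset V)) : Prop where
  sub : ∀ S ∈ SS, S ⊆ R
  sg : ∀ S ∈ SS, IsSg F S
  dis : ∀ S ∈ SS, ∀ T ∈ SS, S ≠ T → Disjoint S T

/-- the vertices of `R` outside the seagulls of the family -/
noncomputable def rest (R : Finset V) (SS : Finset (Finset V)) : Finset V := R \ SS.biUnion id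

theorem mem_rest {R : Finset V} {SS : Finset (Finset V)} {x : V} :
    x ∈ rest R SS ↔ x ∈ R ∧ ∀ S ∈ SS, x ∉ S := by
  unfold rest
  rw [mem_sdiff, mem_biUnion]
  constructor
  · rintro ⟨h1, h2⟩
    exact ⟨h1, fun S hS hx => h2 ⟨S, hS, hx⟩⟩
  · rintro ⟨h1, h2⟩
    refine ⟨h1, ?_⟩
    rintro ⟨S, hS, hx⟩
    exact h2 S hS hx

theorem Fam.card_union {R : Finset V} {SS : Finset (Finset V)} (h : Fam F R SS) :
    (SS.biUnion id).card = 3 * SS.card := by
  have h1 : (SS.biUnion id).card = ∑ S ∈ SS, (id S).card :=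
    card_biUnion (fun S hS T hT hne => h.dis S hS T hT hne)
  have h2 : ∑ S ∈ SS, (id S).card = ∑ _S ∈ SS, 3 :=
    Finset.sum_congr rfl (fun S hS => (h.sg S hS).card)
  rw [h1, h2, sum_const, smul_eq_mul, mul_comm]

theorem Fam.union_sub {R : Finset V} {SS : Finset (Finset V)} (h : Fam F R SS) :
    SS.biUnion id ⊆ R := by
  intro x hx
  obtain ⟨S, hS, hxS⟩ := mem_biUnion.1 hx
  exact h.sub S hS hxS

theorem Fam.card_rest {R : Finset V} {SS : Finset (Finset V)} (h : Fam F R SS) :
    (rest R SS).card + 3 * SS.card = R.card := by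
  rw [← h.card_union]
  exact card_sdiff_add_card_eq_card h.union_sub

theorem Fam.mono {R R' : Finset V} {SS : Finset (Finset V)} (h : Fam F R SS) (hR : R ⊆ R') :
    Fam F R' SS := ⟨fun S hS => (h.sub S hS).trans hR, h.sg, h.dis⟩

theorem Fam.subset {R : Finset V} {SS TT : Finset (Finset V)} (h : Fam F R SS) (hT : TT ⊆ SS) :
    Fam F R TT := ⟨fun S hS => h.sub S (hT hS), fun S hS => h.sg S (hT hS),
      fun S hS T hT' => h.dis S (hT hS) T (hT hT')⟩

/-- two disjoint sets of the family and the rest -/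
theorem Fam.disj_rest {R : Finset V} {SS : Finset (Finset V)} {S : Finset V} (hS : S ∈ SS) :
    Disjoint S (rest R SS) := by
  rw [Finset.disjoint_left]
  intro x hx hx'
  exact (mem_rest.1 hx').2 S hS hx

/-- replace the subfamily `TT` by a family `NN` living in `TT` and the rest -/
theorem Fam.replace {R : Finset V} {SS TT NN : Finset (Finset V)} (h : Fam F R SS) (hT : TT ⊆ SS)
    (hN : Fam F (rest R SS ∪ TT.biUnion id) NN) :
    Fam F R ((SS \ TT) ∪ NN) ∧ ((SS \ TT) ∪ NN).card + TT.card = SS.card + NN.card ∧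
      rest R ((SS \ TT) ∪ NN) = (rest R SS ∪ TT.biUnion id) \ NN.biUnion id := by
  have hsub : rest R SS ∪ TT.biUnion id ⊆ R := by
    refine union_subset sdiff_subset ?_
    exact (h.subset hT).union_sub
  have hdis : ∀ S ∈ SS \ TT, ∀ N ∈ NN, Disjoint S N := by
    intro S hS N hNN
    rw [mem_sdiff] at hS
    rw [Finset.disjoint_left]
    intro x hx hx'
    rcases mem_union.1 (hN.sub N hNN hx') with h1 | h1
    · exact (mem_rest.1 h1).2 S hS.1 hx
    · obtain ⟨T, hTT, hxT⟩ := mem_biUnion.1 h1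
      have hne : S ≠ T := by
        rintro rfl
        exact hS.2 hTT
      exact Finset.disjoint_left.1 (h.dis S hS.1 T (hT hTT) hne) hx hxT
  have hfam : Fam F R ((SS \ TT) ∪ NN) := by
    refine ⟨?_, ?_, ?_⟩
    · intro S hS
      rcases mem_union.1 hS with h1 | h1
      · exact h.sub S (mem_sdiff.1 h1).1
      · exact (hN.sub S h1).trans hsub
    · intro S hS
      rcases mem_union.1 hS with h1 | h1
      · exact h.sg S (mem_sdiff.1 h1).1
      · exact hN.sg S h1
    · intro S hS T hT' hne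
      rcases mem_union.1 hS with h1 | h1 <;> rcases mem_union.1 hT' with h2 | h2
      · exact h.dis S (mem_sdiff.1 h1).1 T (mem_sdiff.1 h2).1 hne
      · exact hdis S h1 T h2
      · exact (hdis T h2 S h1).symm
      · exact hN.dis S h1 T h2 hne
  have hd : Disjoint (SS \ TT) NN := by
    rw [Finset.disjoint_left]
    intro S hS hS'
    have h1 := hdis S hS S hS'
    rw [disjoint_self] at h1
    have h2 := (hN.sg S hS').card
    rw [h1] at h2
    simp at h2
  refine ⟨hfam, ?_, ?_⟩
  · rw [card_union_of_disjoint hd]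
    have := card_sdiff_add_card_eq_card hT
    omega
  · ext x
    rw [mem_rest, mem_sdiff, mem_union, mem_rest, mem_biUnion, mem_biUnion]
    constructor
    · rintro ⟨h1, h2⟩
      refine ⟨?_, ?_⟩
      · by_cases hx : ∃ T ∈ TT, x ∈ T
        · exact Or.inr hx
        · push Not at hx
          left
          refine ⟨h1, fun S hS => ?_⟩
          by_cases hST : S ∈ TT
          · exact hx S hST
          · exact h2 S (mem_union_left _ (mem_sdiff.2 ⟨hS, hST⟩))
      · rintro ⟨N, hNN, hxN⟩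
        exact h2 N (mem_union_right _ hNN) hxN
    · rintro ⟨h1, h2⟩
      have hxR : x ∈ R := by
        apply hsub
        rw [mem_union, mem_rest, mem_biUnion]
        exact h1
      refine ⟨hxR, fun S hS hxS => ?_⟩
      rcases mem_union.1 hS with h3 | h3
      · rw [mem_sdiff] at h3
        rcases h1 with h1 | ⟨T, hTT, hxT⟩
        · exact h1.2 S h3.1 hxS
        · have hne : S ≠ T := by
            rintro rfl
            exact h3.2 hTT
          exact Finset.disjoint_left.1 (h.dis S h3.1 T (hT hTT) hne) hxS hxT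
      · exact h2 ⟨S, h3, hxS⟩

/-- a family with one member -/
theorem fam_one {R : Finset V} {N : Finset V} (hN : IsSg F N) (hR : N ⊆ R) : Fam F R {N} := by
  refine ⟨?_, ?_, ?_⟩
  · intro S hS
    rw [mem_singleton] at hS
    rw [hS]; exact hR
  · intro S hS
    rw [mem_singleton] at hS
    rw [hS]; exact hN
  · intro S hS T hT hne
    rw [mem_singleton] at hS hT
    exact absurd (hS.trans hT.symm) hne

/-- adding a disjoint member -/
theorem Fam.cons {R : Finset V} {NN : Finset (Finset V)} {N : Finset V} (h : Fam F R NN)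
    (hN : IsSg F N) (hR : N ⊆ R) (hd : ∀ S ∈ NN, Disjoint S N) :
    Fam F R (insert N NN) ∧ (insert N NN).card = NN.card + 1 := by
  refine ⟨⟨?_, ?_, ?_⟩, ?_⟩
  · intro S hS
    rcases mem_insert.1 hS with rfl | h1
    · exact hR
    · exact h.sub S h1
  · intro S hS
    rcases mem_insert.1 hS with rfl | h1
    · exact hN
    · exact h.sg S h1
  · intro S hS T hT hne
    rcases mem_insert.1 hS with rfl | h1 <;> rcases mem_insert.1 hT with rfl | h2
    · exact absurd rfl hne
    · exact (hd T h2).symm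
    · exact hd S h1
    · exact h.dis S h1 T h2 hne
  · rw [card_insert_of_notMem]
    intro h1
    have h2 := hd N h1
    rw [disjoint_self] at h2
    have h3 := hN.card
    rw [h2] at h3
    simp at h3

/-- disjoint triples -/
theorem disj_tri {a c b a' c' b' : V} (h1 : a ≠ a' ∧ a ≠ c' ∧ a ≠ b') (h2 : c ≠ a' ∧ c ≠ c' ∧ c ≠ b')
    (h3 : b ≠ a' ∧ b ≠ c' ∧ b ≠ b') : Disjoint ({a, c, b} : Finset V) {a', c', b'} := by
  rw [Finset.disjoint_left]
  intro x hx hx'
  simp only [mem_insert, mem_singleton] at hx hx'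
  rcases hx with rfl | rfl | rfl <;> rcases hx' with h | h | h <;> simp_all

theorem tri_sub {X : Finset V} {a c b : V} (ha : a ∈ X) (hc : c ∈ X) (hb : b ∈ X) :
    ({a, c, b} : Finset V) ⊆ X := by
  intro x hx
  simp only [mem_insert, mem_singleton] at hx
  rcases hx with rfl | rfl | rfl <;> assumption

/-- the replacement of one seagull by another one -/
theorem Fam.swap {R : Finset V} {SS : Finset (Finset V)} (h : Fam F R SS) {S N : Finset V}
    (hS : S ∈ SS) (hN : IsSg F N) (hsub : N ⊆ rest R SS ∪ S) :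
    ∃ SS', Fam F R SS' ∧ SS'.card = SS.card ∧ rest R SS' = (rest R SS ∪ S) \ N ∧
      (∀ T ∈ SS, T ≠ S → T ∈ SS') ∧ N ∈ SS' ∧ ∀ T ∈ SS', T = N ∨ T ∈ SS := by
  have hT : ({S} : Finset (Finset V)) ⊆ SS := by
    intro T hT
    rw [mem_singleton] at hT
    rw [hT]; exact hS
  have hbu : ({S} : Finset (Finset V)).biUnion id = S := by simp
  have hbn : ({N} : Finset (Finset V)).biUnion id = N := by simp
  obtain ⟨h1, h2, h3⟩ := h.replace hT (NN := {N}) (fam_one hN (by rw [hbu]; exact hsub))
  rw [hbu, hbn] at h3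
  rw [card_singleton, card_singleton] at h2
  refine ⟨_, h1, by omega, h3, ?_, ?_, ?_⟩
  · intro T hT' hne
    exact mem_union_left _ (mem_sdiff.2 ⟨hT', fun h' => hne (mem_singleton.1 h')⟩)
  · exact mem_union_right _ (mem_singleton_self _)
  · intro T hT'
    rcases mem_union.1 hT' with h' | h'
    · exact Or.inr (mem_sdiff.1 h').1
    · exact Or.inl (mem_singleton.1 h')

/-- two disjoint seagulls in a seagull and the rest give a larger family -/
theorem Fam.two {R : Finset V} {SS : Finset (Finset V)} (h : Fam F R SS)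
    (hmax : ∀ SS', Fam F R SS' → SS'.card ≤ SS.card) {S N1 N2 : Finset V}
    (hS : S ∈ SS) (h1 : IsSg F N1) (h2 : IsSg F N2) (hd : Disjoint N1 N2)
    (hs1 : N1 ⊆ rest R SS ∪ S) (hs2 : N2 ⊆ rest R SS ∪ S) : False := by
  have hT : ({S} : Finset (Finset V)) ⊆ SS := by
    intro T hT
    rw [mem_singleton] at hT
    rw [hT]; exact hS
  have hbu : ({S} : Finset (Finset V)).biUnion id = S := by simp
  obtain ⟨h3, h4⟩ := (fam_one h1 hs1).cons h2 hs2 (fun T hT => by
    rw [mem_singleton] at hT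
    rw [hT]; exact hd)
  obtain ⟨h5, h6, -⟩ := h.replace hT (NN := insert N2 {N1}) (by rw [hbu]; exact h3)
  have h7 := hmax _ h5
  rw [card_singleton] at h6 h4
  omega

/-- three disjoint seagulls in two seagulls and the rest give a larger family -/
theorem Fam.three {R : Finset V} {SS : Finset (Finset V)} (h : Fam F R SS)
    (hmax : ∀ SS', Fam F R SS' → SS'.card ≤ SS.card) {S T N1 N2 N3 : Finset V}
    (hS : S ∈ SS) (hT : T ∈ SS) (h1 : IsSg F N1) (h2 : IsSg F N2) (h3 : IsSg F N3)
    (hd1 : Disjoint N1 N2) (hd2 : Disjoint N1 N3) (hd3 : Disjoint N2 N3)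
    (hs1 : N1 ⊆ rest R SS ∪ (S ∪ T)) (hs2 : N2 ⊆ rest R SS ∪ (S ∪ T))
    (hs3 : N3 ⊆ rest R SS ∪ (S ∪ T)) : False := by
  have hT' : ({S, T} : Finset (Finset V)) ⊆ SS := by
    intro X hX
    rw [mem_insert, mem_singleton] at hX
    rcases hX with rfl | rfl <;> assumption
  have hbu : ({S, T} : Finset (Finset V)).biUnion id = S ∪ T := by
    ext x; simp
  obtain ⟨h4, h4c⟩ := (fam_one h1 hs1).cons h2 hs2 (fun X hX => by
    rw [mem_singleton] at hX
    rw [hX]; exact hd1)
  obtain ⟨h5, h5c⟩ := h4.cons h3 hs3 (fun X hX => by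
    rw [mem_insert, mem_singleton] at hX
    rcases hX with rfl | rfl
    · exact hd3
    · exact hd2)
  obtain ⟨h6, h7, -⟩ := h.replace hT' (NN := insert N3 (insert N2 {N1})) (by rw [hbu]; exact h5)
  have h8 := hmax _ h6
  have h9 : ({S, T} : Finset (Finset V)).card ≤ 2 := card_le_two
  rw [card_singleton] at h4c
  omega

/-- three disjoint seagulls among nine vertices of two seagulls and the rest -/
theorem Fam.nine {R : Finset V} {SS : Finset (Finset V)} (h : Fam F R SS)
    (hmax : ∀ SS', Fam F R SS' → SS'.card ≤ SS.card) {S T : Finset V}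
    (hS : S ∈ SS) (hT : T ∈ SS) (v : Fin 9 → V) (hv : Function.Injective v)
    (hmem : ∀ i, v i ∈ rest R SS ∪ (S ∪ T)) (e : Fin 9 → Fin 9) (he : Function.Injective e)
    (h1 : Sg F (v (e 0)) (v (e 1)) (v (e 2))) (h2 : Sg F (v (e 3)) (v (e 4)) (v (e 5)))
    (h3 : Sg F (v (e 6)) (v (e 7)) (v (e 8))) : False := by
  have hne : ∀ i j : Fin 9, i ≠ j → v (e i) ≠ v (e j) := fun i j hij h' => hij (he (hv h'))
  refine h.three hmax hS hT h1.isSg h2.isSg h3.isSg ?_ ?_ ?_ (tri_sub (hmem _) (hmem _) (hmem _))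
    (tri_sub (hmem _) (hmem _) (hmem _)) (tri_sub (hmem _) (hmem _) (hmem _))
  · exact disj_tri ⟨hne _ _ (by decide), hne _ _ (by decide), hne _ _ (by decide)⟩
      ⟨hne _ _ (by decide), hne _ _ (by decide), hne _ _ (by decide)⟩
      ⟨hne _ _ (by decide), hne _ _ (by decide), hne _ _ (by decide)⟩
  · exact disj_tri ⟨hne _ _ (by decide), hne _ _ (by decide), hne _ _ (by decide)⟩
      ⟨hne _ _ (by decide), hne _ _ (by decide), hne _ _ (by decide)⟩
      ⟨hne _ _ (by decide), hne _ _ (by decide), hne _ _ (by decide)⟩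
  · exact disj_tri ⟨hne _ _ (by decide), hne _ _ (by decide), hne _ _ (by decide)⟩
      ⟨hne _ _ (by decide), hne _ _ (by decide), hne _ _ (by decide)⟩
      ⟨hne _ _ (by decide), hne _ _ (by decide), hne _ _ (by decide)⟩

/-- Lemma 0: a set without seagulls which contains an edge is complete bipartite -/
theorem bip (hF : TriFree F) {X : Finset V} (hno : ∀ a ∈ X, ∀ c ∈ X, ∀ b ∈ X, ¬ Sg F a c b)
    {x y : V} (hx : x ∈ X) (hy : y ∈ X) (hxy : F.Adj x y) :
    ∃ B1 B2 : Finset V, B1 ∪ B2 = X ∧ Disjoint B1 B2 ∧ x ∈ B1 ∧ y ∈ B2 ∧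
      (∀ a ∈ B1, ∀ b ∈ B2, F.Adj a b) := by
  have key : ∀ u ∈ X, ∀ v ∈ X, F.Adj u v → ∀ z ∈ X, F.Adj u z ∨ F.Adj v z := by
    intro u hu v hv huv z hz
    by_contra hcon
    push Not at hcon
    by_cases h1 : u = z
    · subst h1
      exact hcon.2 huv.symm
    · by_cases h2 : v = z
      · subst h2
        exact hcon.1 huv
      · exact hno u hu v hv z hz ⟨huv, hcon.1, hcon.2, h1, h2⟩
  refine ⟨X.filter (fun z => F.Adj y z), X.filter (fun z => ¬ F.Adj y z), ?_, ?_, ?_, ?_, ?_⟩
  · ext z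
    simp only [mem_union, mem_filter]
    tauto
  · rw [Finset.disjoint_left]
    intro z hz hz'
    exact (mem_filter.1 hz').2 (mem_filter.1 hz).2
  · exact mem_filter.2 ⟨hx, hxy.symm⟩
  · exact mem_filter.2 ⟨hy, fun h => F.loopless.irrefl _ h⟩
  · intro a ha b hb
    obtain ⟨haX, hya⟩ := mem_filter.1 ha
    obtain ⟨hbX, hyb⟩ := mem_filter.1 hb
    rcases key y hy a haX hya b hbX with h1 | h1
    · exact absurd h1 hyb
    · exact h1

end Pool.Agent.SG
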