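import Mathlib
import Pool.Agent.SG.Base

/-!
# SG, step 3: the rest has at least four vertices
-/

set_option autoImplicit false

namespace Pool.Agent.SG

open Finset
open scoped Classical

variable {V : Type} {F : SimpleGraph V}

/-- a family which beats the maximum -/
theorem Fam.big {R : Finset V} {SS TT NN : Finset (Finset V)} (h : Fam F R SS)
    (hmax : ∀ SS', Fam F R SS' → SS'.card ≤ SS.card) (hT : TT ⊆ SS)
    (hN : Fam F (rest R SS ∪ TT.biUnion id) NN) (hc : TT.card < NN.card) : False := by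
  obtain ⟨h1, h2, -⟩ := h.replace hT hN
  have := hmax _ h1
  omega

/-- the union of two families in disjoint sets -/
theorem Fam.union_disj {X Y : Finset V} {MM NN : Finset (Finset V)} (hM : Fam F X MM)
    (hN : Fam F Y NN) (hd : Disjoint X Y) :
    Fam F (X ∪ Y) (MM ∪ NN) ∧ (MM ∪ NN).card = MM.card + NN.card := by
  have hdis : ∀ S ∈ MM, ∀ T ∈ NN, Disjoint S T := fun S hS T hT =>
    Finset.disjoint_of_subset_left (hM.sub S hS) (Finset.disjoint_of_subset_right (hN.sub T hT) hd)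
  refine ⟨⟨?_, ?_, ?_⟩, ?_⟩
  · intro S hS
    rcases mem_union.1 hS with h1 | h1
    · exact (hM.sub S h1).trans subset_union_left
    · exact (hN.sub S h1).trans subset_union_right
  · intro S hS
    rcases mem_union.1 hS with h1 | h1
    · exact hM.sg S h1
    · exact hN.sg S h1
  · intro S hS T hT hne
    rcases mem_union.1 hS with h1 | h1 <;> rcases mem_union.1 hT with h2 | h2
    · exact hM.dis S h1 T h2 hne
    · exact hdis S h1 T h2
    · exact (hdis T h2 S h1).symm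
    · exact hN.dis S h1 T h2 hne
  · apply card_union_of_disjoint
    rw [Finset.disjoint_left]
    intro S hS hS'
    have h1 := hdis S hS S hS'
    rw [disjoint_self] at h1
    have h2 := (hM.sg S hS).card
    rw [h1] at h2
    simp at h2

/-- counting in the rest and in the seagulls -/
theorem Fam.card_filter {R : Finset V} {SS : Finset (Finset V)} (h : Fam F R SS) (P : V → Prop) :
    (R.filter P).card = ((rest R SS).filter P).card + ∑ S ∈ SS, (S.filter P).card := by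
  have h1 : R.filter P = (rest R SS).filter P ∪ SS.biUnion (fun S => S.filter P) := by
    ext x
    simp only [mem_filter, mem_union, mem_biUnion, mem_rest]
    constructor
    · rintro ⟨h1, h2⟩
      by_cases hx : ∃ S ∈ SS, x ∈ S
      · obtain ⟨S, hS, hxS⟩ := hx
        exact Or.inr ⟨S, hS, hxS, h2⟩
      · push Not at hx
        exact Or.inl ⟨⟨h1, hx⟩, h2⟩
    · rintro (⟨⟨h1, -⟩, h2⟩ | ⟨S, hS, hxS, h2⟩)
      · exact ⟨h1, h2⟩
      · exact ⟨h.sub S hS hxS, h2⟩
  rw [h1, card_union_of_disjoint, card_biUnion]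
  · intro S hS T hT hne
    exact Finset.disjoint_of_subset_left (filter_subset _ _)
      (Finset.disjoint_of_subset_right (filter_subset _ _) (h.dis S hS T hT hne))
  · rw [Finset.disjoint_left]
    intro x hx hx'
    obtain ⟨S, hS, hxS⟩ := mem_biUnion.1 hx'
    exact (mem_rest.1 (mem_filter.1 hx).1).2 S hS (mem_filter.1 hxS).1

/-- the dichotomy: a cover by one vertex of each pair, or a larger matching -/
theorem dich (G : V → V → Prop) : ∀ (n : ℕ) (A1 A2 : Finset V) (M : Finset (V × V)), M.card = n →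
    (∀ p ∈ M, p.1 ∈ A1 ∧ p.2 ∈ A2 ∧ G p.1 p.2) →
    (∀ p ∈ M, ∀ q ∈ M, p.1 = q.1 → p = q) → (∀ p ∈ M, ∀ q ∈ M, p.2 = q.2 → p = q) →
    (∃ C1 C2 : Finset V, C1 ⊆ M.image Prod.fst ∧ C2 ⊆ M.image Prod.snd ∧
      C1.card + C2.card ≤ M.card ∧ ∀ x ∈ A1, ∀ y ∈ A2, G x y → x ∈ C1 ∨ y ∈ C2) ∨
    (∃ M' : Finset (V × V), (∀ p ∈ M', p.1 ∈ A1 ∧ p.2 ∈ A2 ∧ G p.1 p.2) ∧
      (∀ p ∈ M', ∀ q ∈ M', p.1 = q.1 → p = q) ∧ (∀ p ∈ M', ∀ q ∈ M', p.2 = q.2 → p = q) ∧
      M'.card = M.card + 1 ∧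
      ∃ u v, u ∈ A1 ∧ v ∈ A2 ∧ u ∉ M.image Prod.fst ∧ v ∉ M.image Prod.snd ∧
        M'.image Prod.fst = insert u (M.image Prod.fst) ∧
        M'.image Prod.snd = insert v (M.image Prod.snd)) := by
  intro n
  induction n with
  | zero =>
    intro A1 A2 M hn hM hf hs
    rw [card_eq_zero] at hn
    subst hn
    by_cases hex : ∃ x ∈ A1, ∃ y ∈ A2, G x y
    · obtain ⟨x, hx, y, hy, hxy⟩ := hex
      right
      refine ⟨{(x, y)}, ?_, ?_, ?_, by simp, x, y, hx, hy, by simp, by simp, by simp, by simp⟩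
      · intro p hp
        rw [mem_singleton] at hp
        subst hp
        exact ⟨hx, hy, hxy⟩
      · intro p hp q hq _
        rw [mem_singleton] at hp hq
        rw [hp, hq]
      · intro p hp q hq _
        rw [mem_singleton] at hp hq
        rw [hp, hq]
    · left
      push Not at hex
      exact ⟨∅, ∅, by simp, by simp, by simp, fun x hx y hy hxy => absurd hxy (hex x hx y hy)⟩
  | succ n ih =>
    intro A1 A2 M hn hM hf hs
    by_cases hex : ∃ x ∈ A1, x ∉ M.image Prod.fst ∧ ∃ y ∈ A2, G x y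
    · obtain ⟨u, hu, huM, y, hy, huy⟩ := hex
      by_cases hyM : y ∈ M.image Prod.snd
      · obtain ⟨q, hq, hqy⟩ := mem_image.1 hyM
        -- remove `y` and the pair `q`
        have hMe : (M.erase q).card = n := by
          rw [card_erase_of_mem hq]; omega
        have hfst : M.image Prod.fst = insert q.1 ((M.erase q).image Prod.fst) := by
          conv_lhs => rw [← insert_erase hq]
          rw [image_insert]
        have hsnd : M.image Prod.snd = insert q.2 ((M.erase q).image Prod.snd) := by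
          conv_lhs => rw [← insert_erase hq]
          rw [image_insert]
        rcases ih A1 (A2.erase y) (M.erase q) hMe (fun p hp => by
            have hp' := mem_erase.1 hp
            refine ⟨(hM p hp'.2).1, mem_erase.2 ⟨?_, (hM p hp'.2).2.1⟩, (hM p hp'.2).2.2⟩
            intro hpy
            exact hp'.1 (hs p hp'.2 q hq (hpy.trans hqy.symm)))
            (fun p hp p' hp' => hf p (mem_of_mem_erase hp) p' (mem_of_mem_erase hp'))
            (fun p hp p' hp' => hs p (mem_of_mem_erase hp) p' (mem_of_mem_erase hp')) with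
            ⟨C1, C2, h1, h2, h3, h4⟩ | ⟨M', h1, h2, h3, h4, u', v', h5, h6, h7, h8, h9, h10⟩
        · left
          refine ⟨C1, insert y C2, ?_, ?_, ?_, ?_⟩
          · rw [hfst]
            exact h1.trans (subset_insert _ _)
          · rw [hsnd, hqy]
            exact insert_subset_insert _ h2
          · have := card_insert_le y C2
            have h5 := card_erase_of_mem hq
            omega
          · intro x hx z hz hxz
            by_cases hzy : z = y
            · right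
              rw [hzy]
              exact mem_insert_self _ _
            · rcases h4 x hx z (mem_erase.2 ⟨hzy, hz⟩) hxz with h5 | h5
              · exact Or.inl h5
              · exact Or.inr (mem_insert_of_mem h5)
        · right
          -- the pair which covers `y` again
          have hv'y : v' ≠ y := (mem_erase.1 h6).1
          have hyM' : y ∉ M'.image Prod.snd := by
            rw [h10, mem_insert, not_or]
            refine ⟨fun e => hv'y e.symm, ?_⟩
            intro hy'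
            obtain ⟨p, hp, hpy⟩ := mem_image.1 hy'
            exact (mem_erase.1 hp).1 (hs p (mem_erase.1 hp).2 q hq (hpy.trans hqy.symm))
          have aux : ∀ w : V, w ∈ A1 → G w y → w ∉ M'.image Prod.fst →
              ∀ u₀, u₀ ∈ A1 → u₀ ∉ M.image Prod.fst →
              insert w (M'.image Prod.fst) = insert u₀ (M.image Prod.fst) →
              ∃ M'' : Finset (V × V), (∀ p ∈ M'', p.1 ∈ A1 ∧ p.2 ∈ A2 ∧ G p.1 p.2) ∧
              (∀ p ∈ M'', ∀ q ∈ M'', p.1 = q.1 → p = q) ∧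
              (∀ p ∈ M'', ∀ q ∈ M'', p.2 = q.2 → p = q) ∧
              M''.card = M.card + 1 ∧
              ∃ u v, u ∈ A1 ∧ v ∈ A2 ∧ u ∉ M.image Prod.fst ∧ v ∉ M.image Prod.snd ∧
                M''.image Prod.fst = insert u (M.image Prod.fst) ∧
                M''.image Prod.snd = insert v (M.image Prod.snd) := by
            intro w hw hwy hwM' u₀ hu₀ hu₀M he
            refine ⟨insert (w, y) M', ?_, ?_, ?_, ?_, u₀, v', hu₀, (mem_erase.1 h6).2, hu₀M, ?_,
              ?_, ?_⟩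
            · intro p hp
              rcases mem_insert.1 hp with rfl | hp
              · exact ⟨hw, hy, hwy⟩
              · exact ⟨(h1 p hp).1, mem_of_mem_erase (h1 p hp).2.1, (h1 p hp).2.2⟩
            · intro p hp p' hp' e
              rcases mem_insert.1 hp with rfl | hp <;> rcases mem_insert.1 hp' with rfl | hp'
              · rfl
              · exact absurd (mem_image.2 ⟨p', hp', e.symm⟩) hwM'
              · exact absurd (mem_image.2 ⟨p, hp, e⟩) hwM'
              · exact h2 p hp p' hp' e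
            · intro p hp p' hp' e
              rcases mem_insert.1 hp with rfl | hp <;> rcases mem_insert.1 hp' with rfl | hp'
              · rfl
              · exact absurd (mem_image.2 ⟨p', hp', e.symm⟩) hyM'
              · exact absurd (mem_image.2 ⟨p, hp, e⟩) hyM'
              · exact h3 p hp p' hp' e
            · rw [card_insert_of_notMem, h4, card_erase_of_mem hq]
              · omega
              · intro hp
                exact hyM' (mem_image.2 ⟨_, hp, rfl⟩)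
            · rw [hsnd, mem_insert, not_or, hqy]
              exact ⟨hv'y, h8⟩
            · rw [image_insert]; exact he
            · rw [image_insert, h10, hsnd, hqy]
              exact Finset.insert_comm _ _ _
          by_cases hu' : u' = q.1
          · refine aux u hu huy ?_ u hu huM ?_
            · rw [h9, hu', ← hfst]; exact huM
            · rw [h9, hu', ← hfst]
          · refine aux q.1 (hM q hq).1 (hqy ▸ (hM q hq).2.2) ?_ u' h5 ?_ ?_
            · rw [h9, mem_insert, not_or]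
              refine ⟨fun e => hu' e.symm, ?_⟩
              intro hq'
              obtain ⟨p, hp, hpq⟩ := mem_image.1 hq'
              exact (mem_erase.1 hp).1 (hf p (mem_erase.1 hp).2 q hq hpq)
            · rw [hfst, mem_insert, not_or]
              exact ⟨hu', h7⟩
            · rw [h9, hfst]
              exact Finset.insert_comm _ _ _
      · right
        refine ⟨insert (u, y) M, ?_, ?_, ?_, ?_, u, y, hu, hy, huM, hyM, ?_, ?_⟩
        · intro p hp
          rcases mem_insert.1 hp with rfl | hp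
          · exact ⟨hu, hy, huy⟩
          · exact hM p hp
        · intro p hp p' hp' e
          rcases mem_insert.1 hp with rfl | hp <;> rcases mem_insert.1 hp' with rfl | hp'
          · rfl
          · exact absurd (mem_image.2 ⟨p', hp', e.symm⟩) huM
          · exact absurd (mem_image.2 ⟨p, hp, e⟩) huM
          · exact hf p hp p' hp' e
        · intro p hp p' hp' e
          rcases mem_insert.1 hp with rfl | hp <;> rcases mem_insert.1 hp' with rfl | hp'
          · rfl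
          · exact absurd (mem_image.2 ⟨p', hp', e.symm⟩) hyM
          · exact absurd (mem_image.2 ⟨p, hp, e⟩) hyM
          · exact hs p hp p' hp' e
        · rw [card_insert_of_notMem]
          intro hp
          exact hyM (mem_image.2 ⟨_, hp, rfl⟩)
        · rw [image_insert]
        · rw [image_insert]
    · left
      push Not at hex
      refine ⟨M.image Prod.fst, ∅, Subset.refl _, by simp, ?_, ?_⟩
      · rw [card_empty, add_zero]
        exact card_image_le
      · intro x hx y hy hxy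
        left
        by_contra hcon
        exact hex x hx hcon y hy hxy

/-- the situation: a maximum family, whose rest is complete bipartite with large sides -/
structure Cx (F : SimpleGraph V) (R : Finset V) (SS : Finset (Finset V)) (B1 B2 : Finset V) :
    Prop where
  tf : TriFree F
  fam : Fam F R SS
  mx : ∀ SS', Fam F R SS' → SS'.card ≤ SS.card
  un : B1 ∪ B2 = rest R SS
  dj : Disjoint B1 B2
  c1 : 2 ≤ B1.card
  c2 : 2 ≤ B2.card
  cp : ∀ a ∈ B1, ∀ b ∈ B2, F.Adj a b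

/-- complete to a set -/
def Cp (F : SimpleGraph V) (B : Finset V) (x : V) : Prop := ∀ y ∈ B, F.Adj x y

variable {R : Finset V} {SS : Finset (Finset V)} {B1 B2 : Finset V}

theorem Cx.symm (c : Cx F R SS B1 B2) : Cx F R SS B2 B1 :=
  ⟨c.tf, c.fam, c.mx, by rw [union_comm]; exact c.un, c.dj.symm, c.c2, c.c1,
    fun a ha b hb => (c.cp b hb a ha).symm⟩

/-- an element different from a given one -/
theorem pick1 {B : Finset V} (h : 2 ≤ B.card) (u : V) : ∃ y ∈ B, y ≠ u := by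
  obtain ⟨y, hy, z, hz, hyz⟩ := Finset.one_lt_card.1 (show 1 < B.card by omega)
  by_cases hyu : y = u
  · exact ⟨z, hz, fun e => hyz (hyu.trans e.symm)⟩
  · exact ⟨y, hy, hyu⟩

theorem Cx.r1 (c : Cx F R SS B1 B2) {y : V} (hy : y ∈ B1) : y ∈ rest R SS := by
  rw [← c.un]; exact mem_union_left _ hy

theorem Cx.r2 (c : Cx F R SS B1 B2) {y : V} (hy : y ∈ B2) : y ∈ rest R SS := by
  rw [← c.un]; exact mem_union_right _ hy

theorem Cx.ne (c : Cx F R SS B1 B2) {S : Finset V} (hS : S ∈ SS) {x y : V} (hx : x ∈ S)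
    (hy : y ∈ rest R SS) : x ≠ y := by
  rintro rfl
  exact (mem_rest.1 hy).2 S hS hx

/-- not complete to both sides -/
theorem Cx.nb (c : Cx F R SS B1 B2) {x y z : V} (hy : y ∈ B1) (hz : z ∈ B2) (h1 : F.Adj x y) :
    ¬ F.Adj x z := c.tf x y z h1 (c.cp y hy z hz)

/-- a member of `B1` and a member of `B2` with a vertex joined to none of them -/
theorem Cx.sg (c : Cx F R SS B1 B2) {x y z : V} (hy : y ∈ B1) (hz : z ∈ B2) (h1 : ¬ F.Adj x y)
    (h2 : ¬ F.Adj x z) : Sg F y z x := by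
  refine ⟨c.cp y hy z hz, fun e => h1 e.symm, fun e => h2 e.symm, ?_, ?_⟩
  · rintro rfl
    exact h2 (c.cp y hy z hz)
  · rintro rfl
    exact h1 (c.cp y hy z hz).symm

/-- the two vertices left over when a vertex of a seagull is used with two vertices of the rest -/
theorem Cx.tl (c : Cx F R SS B1 B2) {S : Finset V} (hS : S ∈ SS) {x w b1 b2 : V} (hx : x ∈ S)
    (hw : w ∈ S) (hwx : w ≠ x) (hb1 : b1 ∈ B1) (hb2 : b2 ∈ B2) (h1 : ¬ F.Adj x b1)
    (h2 : ¬ F.Adj x b2) :
    (∀ y ∈ B1, y ≠ b1 → F.Adj w y) ∨ (∀ y ∈ B2, y ≠ b2 → F.Adj w y) := by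
  by_contra hcon
  push Not at hcon
  obtain ⟨⟨y, hy, hyb, hwy⟩, ⟨z, hz, hzb, hwz⟩⟩ := hcon
  have m : ∀ t, t ∈ rest R SS → t ∈ rest R SS ∪ S := fun t ht => mem_union_left _ ht
  refine c.fam.two c.mx hS (c.sg hb1 hb2 h1 h2).isSg (c.sg hy hz hwy hwz).isSg ?_
    (tri_sub (m _ (c.r1 hb1)) (m _ (c.r2 hb2)) (mem_union_right _ hx))
    (tri_sub (m _ (c.r1 hy)) (m _ (c.r2 hz)) (mem_union_right _ hw))
  exact disj_tri ⟨hyb.symm, fun e => Finset.disjoint_left.1 c.dj hb1 (e ▸ hz),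
      (c.ne hS hw (c.r1 hb1)).symm⟩
    ⟨fun e => Finset.disjoint_left.1 c.dj hy (e ▸ hb2), hzb.symm, (c.ne hS hw (c.r2 hb2)).symm⟩
    ⟨c.ne hS hx (c.r1 hy), c.ne hS hx (c.r2 hz), hwx.symm⟩

theorem Cx.tl2 (c : Cx F R SS B1 B2) {S : Finset V} (hS : S ∈ SS) {x w w' b1 b2 : V} (hx : x ∈ S)
    (hw : w ∈ S) (hwx : w ≠ x) (hw' : w' ∈ S) (hwx' : w' ≠ x)
    (hb1 : b1 ∈ B1) (hb2 : b2 ∈ B2) (h1 : ¬ F.Adj x b1)
    (h2 : ¬ F.Adj x b2) (h3 : ∀ y ∈ B1, y ≠ b1 → F.Adj w y) (h4 : ∀ y ∈ B2, y ≠ b2 → F.Adj w' y) :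
    F.Adj w w' := by
  by_contra hcon
  obtain ⟨y, hy, hyb⟩ := pick1 c.c1 b1
  obtain ⟨z, hz, hzb⟩ := pick1 c.c2 b2
  have e1 : F.Adj w y := h3 y hy hyb
  have e2 : ¬ F.Adj w' y := fun e => c.nb hy hz e (h4 z hz hzb)
  have e3 : Sg F w y w' := ⟨e1, hcon, fun e => e2 e.symm, fun e => e2 (e ▸ e1),
    (c.ne hS hw' (c.r1 hy)).symm⟩
  have m : ∀ t, t ∈ rest R SS → t ∈ rest R SS ∪ S := fun t ht => mem_union_left _ ht
  refine c.fam.two c.mx hS (c.sg hb1 hb2 h1 h2).isSg e3.isSg ?_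
    (tri_sub (m _ (c.r1 hb1)) (m _ (c.r2 hb2)) (mem_union_right _ hx))
    (tri_sub (mem_union_right _ hw) (m _ (c.r1 hy)) (mem_union_right _ hw'))
  exact disj_tri ⟨(c.ne hS hw (c.r1 hb1)).symm, hyb.symm, (c.ne hS hw' (c.r1 hb1)).symm⟩
    ⟨(c.ne hS hw (c.r2 hb2)).symm, fun e => Finset.disjoint_left.1 c.dj hy (e ▸ hb2),
      (c.ne hS hw' (c.r2 hb2)).symm⟩
    ⟨hwx.symm, c.ne hS hx (c.r1 hy), hwx'.symm⟩

/-- complete to one of the sides -/
def Fu (F : SimpleGraph V) (B1 B2 : Finset V) (x : V) : Prop := Cp F B1 x ∨ Cp F B2 x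

theorem nf_iff {x : V} : ¬ Fu F B1 B2 x ↔ (∃ y ∈ B1, ¬ F.Adj x y) ∧ (∃ y ∈ B2, ¬ F.Adj x y) := by
  unfold Fu Cp
  push Not
  rfl

/-- two full vertices on opposite sides in a seagull with a vertex which is not full -/
theorem Cx.opp (c : Cx F R SS B1 B2) {S : Finset V} (hS : S ∈ SS) {g y z : V} (hg : g ∈ S)
    (hy : y ∈ S) (hz : z ∈ S) (hgf : ¬ Fu F B1 B2 g) (h1 : Cp F B1 y) (h2 : Cp F B2 z) :
    F.Adj y z := by
  obtain ⟨⟨b1, hb1, e1⟩, ⟨b2, hb2, e2⟩⟩ := nf_iff.1 hgf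
  have hyg : y ≠ g := by
    rintro rfl
    exact hgf (Or.inl h1)
  have hzg : z ≠ g := by
    rintro rfl
    exact hgf (Or.inr h2)
  exact c.tl2 hS hg hy hyg hz hzg hb1 hb2 e1 e2 (fun w hw _ => h1 w hw) (fun w hw _ => h2 w hw)

/-- the elements of a seagull -/
theorem sg_third {S : Finset V} (hS : IsSg F S) {x y : V} (hx : x ∈ S) (hy : y ∈ S) (hxy : x ≠ y) :
    ∃ z ∈ S, z ≠ x ∧ z ≠ y ∧ S = {x, y, z} := by
  have h3 := hS.card
  have h1 : ((S.erase x).erase y).card = 1 := by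
    rw [card_erase_of_mem (mem_erase.2 ⟨hxy.symm, hy⟩), card_erase_of_mem hx]
    omega
  obtain ⟨z, hz⟩ := card_eq_one.1 h1
  have hz' : z ∈ (S.erase x).erase y := by rw [hz]; exact mem_singleton_self _
  rw [mem_erase, mem_erase] at hz'
  refine ⟨z, hz'.2.2, hz'.2.1, hz'.1, ?_⟩
  have e1 : S = insert x (S.erase x) := (insert_erase hx).symm
  have e2 : S.erase x = insert y ((S.erase x).erase y) :=
    (insert_erase (mem_erase.2 ⟨hxy.symm, hy⟩)).symm
  rw [e1, e2, hz]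

/-- a seagull has an edge -/
theorem sg_edge {S : Finset V} (hS : IsSg F S) {x y z : V} (he : S = {x, y, z}) :
    (F.Adj x y ∧ ¬ F.Adj x z ∧ ¬ F.Adj y z) ∨ (F.Adj x z ∧ ¬ F.Adj x y ∧ ¬ F.Adj y z) ∨
      (F.Adj y z ∧ ¬ F.Adj x y ∧ ¬ F.Adj x z) := by
  obtain ⟨a, c, b, h, hS'⟩ := hS
  have hcard : ({x, y, z} : Finset V).card = 3 := by rw [← he, hS']; exact h.card
  have ha : a ∈ ({x, y, z} : Finset V) := by rw [← he, hS']; simp
  have hc : c ∈ ({x, y, z} : Finset V) := by rw [← he, hS']; simp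
  have hb : b ∈ ({x, y, z} : Finset V) := by rw [← he, hS']; simp
  have h1 := h.ac
  have h2 := h.ab
  have h3 := h.cb
  have h4 := h.nab
  have h5 := h.ncb
  have h6 := h.ac.ne
  have s1 : F.Adj x y ↔ F.Adj y x := F.adj_comm _ _
  have s2 : F.Adj x z ↔ F.Adj z x := F.adj_comm _ _
  have s3 : F.Adj y z ↔ F.Adj z y := F.adj_comm _ _
  simp only [mem_insert, mem_singleton] at ha hb hc
  rcases ha with rfl | rfl | rfl <;> rcases hc with rfl | rfl | rfl <;>
    rcases hb with rfl | rfl | rfl <;>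
    (first | exact absurd rfl h4 | exact absurd rfl h5 | exact absurd rfl h6 | tauto)

/-- at most one vertex of a seagull is not full: first half -/
theorem Cx.nf_aux (c : Cx F R SS B1 B2) {S : Finset V} (hS : S ∈ SS) {x y b1 : V} (hx : x ∈ S)
    (hy : y ∈ S) (hxy : x ≠ y) (hxf : ¬ Fu F B1 B2 x) (hyf : ¬ Fu F B1 B2 y) (hb1 : b1 ∈ B1)
    (hxb : ¬ F.Adj x b1) (h : ∀ w ∈ B1, w ≠ b1 → F.Adj y w) : False := by
  obtain ⟨-, ⟨b2, hb2, e2⟩⟩ := nf_iff.1 hxf
  obtain ⟨⟨b1', hb1', e1'⟩, ⟨b2', hb2', e2'⟩⟩ := nf_iff.1 hyf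
  have hyb : ¬ F.Adj y b1 := by
    by_cases hbb : b1' = b1
    · rw [← hbb]; exact e1'
    · exact absurd (h b1' hb1' hbb) e1'
  obtain ⟨w0, hw0, hw0b⟩ := pick1 c.c1 b1
  -- `x` is also complete to `B1 - b1`
  have hx' : ∀ w ∈ B1, w ≠ b1 → F.Adj x w := by
    intro w hw hwb
    by_contra hxw
    rcases c.tl hS hx hy hxy.symm hw hb2 hxw e2 with h1 | h1
    · exact hyb (h1 b1 hb1 hwb.symm)
    · obtain ⟨z, hz, hzb⟩ := pick1 c.c2 b2
      exact c.nb hw0 hz (h w0 hw0 hw0b) (h1 z hz hzb)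
  have hxy' : ¬ F.Adj x y := fun e => c.tf x y w0 e (h w0 hw0 hw0b) (hx' w0 hw0 hw0b)
  obtain ⟨z, hz, hzx, hzy, hSe⟩ := sg_third (c.fam.sg S hS) hx hy hxy
  have hsg := sg_edge (c.fam.sg S hS) hSe
  rcases c.tl hS hx hz hzx hb1 hb2 hxb e2 with h1 | h1
  · -- all on the same side
    have h2 : ¬ F.Adj x z := fun e => c.tf x z w0 e (h1 w0 hw0 hw0b) (hx' w0 hw0 hw0b)
    have h3 : ¬ F.Adj y z := fun e => c.tf y z w0 e (h1 w0 hw0 hw0b) (h w0 hw0 hw0b)
    rcases hsg with h4 | h4 | h4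
    · exact hxy' h4.1
    · exact h2 h4.1
    · exact h3 h4.1
  · have h2 : F.Adj y z := c.tl2 hS hx hy hxy.symm hz hzx hb1 hb2 hxb e2 h h1
    rcases c.tl hS hy hz hzy hb1 hb2' hyb e2' with h3 | h3
    · obtain ⟨z0, hz0, hzb⟩ := pick1 c.c2 b2
      exact c.nb hw0 hz0 (h3 w0 hw0 hw0b) (h1 z0 hz0 hzb)
    · have h4 : F.Adj x z := c.tl2 hS hy hx hxy hz hzy hb1 hb2' hyb e2' hx' h3
      rcases hsg with h5 | h5 | h5
      · exact hxy' h5.1
      · exact h5.2.2 h2
      · exact h5.2.2 h4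

/-- at most one vertex of a seagull is not full -/
theorem Cx.nf_one (c : Cx F R SS B1 B2) {S : Finset V} (hS : S ∈ SS) {x y : V} (hx : x ∈ S)
    (hy : y ∈ S) (hxy : x ≠ y) (hxf : ¬ Fu F B1 B2 x) : Fu F B1 B2 y := by
  by_contra hyf
  obtain ⟨⟨b1, hb1, e1⟩, ⟨b2, hb2, e2⟩⟩ := nf_iff.1 hxf
  rcases c.tl hS hx hy hxy.symm hb1 hb2 e1 e2 with h1 | h1
  · exact c.nf_aux hS hx hy hxy hxf hyf hb1 e1 h1
  · exact c.symm.nf_aux hS hx hy hxy (fun e => hxf e.symm) (fun e => hyf e.symm) hb2 e2 h1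

/-- the degree condition bounds the number of seagulls dominated by an edge of the rest -/
theorem Cx.count (c : Cx F R SS B1 B2)
    (hD : ∀ x ∈ R, (R.filter (fun y => F.Adj x y)).card + 2 * (SS.card + 1) ≤ R.card)
    {p l : V} (hp : p ∈ B1) (hl : l ∈ B2) :
    (SS.filter (fun S => ∀ x ∈ S, F.Adj p x ∨ F.Adj l x)).card + 4 ≤ (rest R SS).card := by
  have hpR : p ∈ R := (mem_rest.1 (c.r1 hp)).1
  have hlR : l ∈ R := (mem_rest.1 (c.r2 hl)).1
  have e1 := c.fam.card_filter (fun y => F.Adj p y)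
  have e2 := c.fam.card_filter (fun y => F.Adj l y)
  have d1 := hD p hpR
  have d2 := hD l hlR
  have hr := c.fam.card_rest
  have n1 : B2.card ≤ ((rest R SS).filter (fun y => F.Adj p y)).card :=
    card_le_card (fun y hy => mem_filter.2 ⟨c.r2 hy, c.cp p hp y hy⟩)
  have n2 : B1.card ≤ ((rest R SS).filter (fun y => F.Adj l y)).card :=
    card_le_card (fun y hy => mem_filter.2 ⟨c.r1 hy, (c.cp y hy l hl).symm⟩)
  have hβ : B1.card + B2.card = (rest R SS).card := by
    rw [← c.un, card_union_of_disjoint c.dj]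
  have hs : ∑ S ∈ SS, (2 + if (∀ x ∈ S, F.Adj p x ∨ F.Adj l x) then 1 else 0) ≤
      ∑ S ∈ SS, ((S.filter (fun y => F.Adj p y)).card + (S.filter (fun y => F.Adj l y)).card) := by
    refine Finset.sum_le_sum (fun S hS => ?_)
    have h1 : (S.filter (fun y => F.Adj p y ∨ F.Adj l y)).card ≤
        (S.filter (fun y => F.Adj p y)).card + (S.filter (fun y => F.Adj l y)).card := by
      rw [filter_or]
      exact card_union_le _ _
    refine le_trans ?_ h1
    have h3 := (c.fam.sg S hS).card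
    by_cases hP : ∀ x ∈ S, F.Adj p x ∨ F.Adj l x
    · rw [if_pos hP, filter_true_of_mem hP]
      omega
    · rw [if_neg hP]
      push Not at hP
      obtain ⟨x, hx, hpx, hlx⟩ := hP
      have hnf : ¬ Fu F B1 B2 x :=
        nf_iff.2 ⟨⟨p, hp, fun e => hpx e.symm⟩, ⟨l, hl, fun e => hlx e.symm⟩⟩
      have hsub : S.erase x ⊆ S.filter (fun y => F.Adj p y ∨ F.Adj l y) := by
        intro y hy
        rw [mem_erase] at hy
        refine mem_filter.2 ⟨hy.2, ?_⟩
        rcases c.nf_one hS hx hy.2 hy.1.symm hnf with h | h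
        · exact Or.inl (h p hp).symm
        · exact Or.inr (h l hl).symm
      have := card_le_card hsub
      rw [card_erase_of_mem hx] at this
      omega
  rw [sum_add_distrib, sum_add_distrib, sum_const, smul_eq_mul, ← card_filter] at hs
  omega

/-- the number of full vertices -/
theorem Cx.fullcount (c : Cx F R SS B1 B2) :
    (rest R SS).card + 2 * SS.card + (SS.filter (fun S => ∀ x ∈ S, Fu F B1 B2 x)).card ≤
      (R.filter (fun x => Fu F B1 B2 x)).card := by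
  rw [c.fam.card_filter (fun x => Fu F B1 B2 x)]
  have h1 : (rest R SS).filter (fun x => Fu F B1 B2 x) = rest R SS := by
    apply filter_true_of_mem
    intro x hx
    rw [← c.un] at hx
    rcases mem_union.1 hx with h | h
    · exact Or.inr (fun y hy => c.cp x h y hy)
    · exact Or.inl (fun y hy => (c.cp y hy x h).symm)
  rw [h1]
  have hs : ∑ S ∈ SS, (2 + if (∀ x ∈ S, Fu F B1 B2 x) then 1 else 0) ≤
      ∑ S ∈ SS, (S.filter (fun x => Fu F B1 B2 x)).card := by
    refine Finset.sum_le_sum (fun S hS => ?_)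
    have h3 := (c.fam.sg S hS).card
    by_cases hP : ∀ x ∈ S, Fu F B1 B2 x
    · rw [if_pos hP, filter_true_of_mem hP]
      omega
    · rw [if_neg hP]
      push Not at hP
      obtain ⟨x, hx, hnf⟩ := hP
      have hsub : S.erase x ⊆ S.filter (fun y => Fu F B1 B2 y) := by
        intro y hy
        rw [mem_erase] at hy
        exact mem_filter.2 ⟨hy.2, c.nf_one hS hx hy.2 hy.1.symm hnf⟩
      have := card_le_card hsub
      rw [card_erase_of_mem hx] at this
      omega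
  rw [sum_add_distrib, sum_const, smul_eq_mul, ← card_filter] at hs
  omega

theorem Cx.ex1 (c : Cx F R SS B1 B2) : ∃ y, y ∈ B1 := by
  have := c.c1
  obtain ⟨y, hy⟩ := card_pos.1 (show 0 < B1.card by omega)
  exact ⟨y, hy⟩

/-- not complete to both sides -/
theorem Cx.notboth (c : Cx F R SS B1 B2) {x : V} (h1 : Cp F B1 x) (h2 : Cp F B2 x) : False := by
  obtain ⟨y, hy⟩ := c.ex1
  obtain ⟨z, hz⟩ := c.symm.ex1
  exact c.nb hy hz (h1 y hy) (h2 z hz)

/-- vertices complete to the same side are not adjacent -/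
theorem Cx.same1 (c : Cx F R SS B1 B2) {x y : V} (h1 : Cp F B1 x) (h2 : Cp F B1 y) :
    ¬ F.Adj x y := by
  obtain ⟨z, hz⟩ := c.ex1
  exact fun e => c.tf x y z e (h2 z hz) (h1 z hz)

theorem Cx.same2 (c : Cx F R SS B1 B2) {x y : V} (h1 : Cp F B2 x) (h2 : Cp F B2 y) :
    ¬ F.Adj x y := c.symm.same1 h1 h2

theorem Cx.cp1 (c : Cx F R SS B1 B2) {x : V} (h : x ∈ B1) : Cp F B2 x := fun y hy => c.cp x h y hy

theorem Cx.cp2 (c : Cx F R SS B1 B2) {x : V} (h : x ∈ B2) : Cp F B1 x :=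
  fun y hy => (c.cp y hy x h).symm

/-- a pair of nonadjacent full vertices on opposite sides -/
structure Gp (F : SimpleGraph V) (B1 B2 : Finset V) (x y : V) : Prop where
  l : Cp F B2 x
  r : Cp F B1 y
  n : ¬ F.Adj x y

theorem Gp.symm {x y : V} (h : Gp F B1 B2 x y) : Gp F B2 B1 y x := ⟨h.r, h.l, fun e => h.n e.symm⟩

theorem Cx.gp1 (c : Cx F R SS B1 B2) {x y b : V} (h : Gp F B1 B2 x y) (hb : b ∈ B1) :
    Sg F b y x := by
  refine ⟨(h.r b hb).symm, c.same2 (c.cp1 hb) h.l, fun e => h.n e.symm, ?_, ?_⟩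
  · rintro rfl
    exact h.n (h.r _ hb).symm
  · rintro rfl
    exact c.notboth h.r h.l

/-- a pair with any vertex of the rest is a seagull -/
theorem Cx.gp (c : Cx F R SS B1 B2) {x y b : V} (h : Gp F B1 B2 x y) (hb : b ∈ rest R SS) :
    IsSg F {x, y, b} := by
  rw [← c.un] at hb
  rcases mem_union.1 hb with hb | hb
  · have h1 := (c.gp1 h hb).isSg
    have h2 : ({x, y, b} : Finset V) = {b, y, x} := by
      ext z; simp only [mem_insert, mem_singleton]; tauto
    rw [h2]; exact h1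
  · have h1 := (c.symm.gp1 h.symm hb).isSg
    have h2 : ({x, y, b} : Finset V) = {b, x, y} := by
      ext z; simp only [mem_insert, mem_singleton]; tauto
    rw [h2]; exact h1

theorem Cx.gp_ne (c : Cx F R SS B1 B2) {x y : V} (h : Gp F B1 B2 x y) :
    x ≠ y ∧ x ∉ rest R SS ∧ y ∉ rest R SS := by
  refine ⟨?_, ?_, ?_⟩
  · rintro rfl
    exact c.notboth h.r h.l
  · intro hx
    rw [← c.un] at hx
    rcases mem_union.1 hx with hx | hx
    · exact h.n (h.r x hx).symm
    · exact c.notboth (c.cp2 hx) h.l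
  · intro hy
    rw [← c.un] at hy
    rcases mem_union.1 hy with hy | hy
    · exact c.notboth h.r (c.cp1 hy)
    · exact h.n (h.l y hy)

/-- seagulls from pairs and vertices of the rest -/
theorem Cx.pairs (c : Cx F R SS B1 B2) (M : Finset (V × V)) :
    ∀ D : Finset V, D ⊆ rest R SS →
    (∀ p ∈ M, Gp F B1 B2 p.1 p.2) → (∀ p ∈ M, ∀ q ∈ M, p.1 = q.1 → p = q) →
    (∀ p ∈ M, ∀ q ∈ M, p.2 = q.2 → p = q) → M.card ≤ D.card →
    ∃ NN, Fam F (M.image Prod.fst ∪ M.image Prod.snd ∪ D) NN ∧ NN.card = M.card := by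
  induction M using Finset.induction_on with
  | empty =>
    intro D _ _ _ _ _
    refine ⟨∅, ⟨?_, ?_, ?_⟩, rfl⟩
    · intro S hS; exact absurd hS (notMem_empty _)
    · intro S hS; exact absurd hS (notMem_empty _)
    · intro S hS; exact absurd hS (notMem_empty _)
  | insert p M hp ih =>
    intro D hD hM hf hs hc
    rw [card_insert_of_notMem hp] at hc
    obtain ⟨d, hd⟩ := card_pos.1 (show 0 < D.card by omega)
    have hde := card_erase_of_mem hd
    obtain ⟨NN, h1, h2⟩ := ih (D.erase d) ((erase_subset _ _).trans hD)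
      (fun q hq => hM q (mem_insert_of_mem hq))
      (fun q hq r hr => hf q (mem_insert_of_mem hq) r (mem_insert_of_mem hr))
      (fun q hq r hr => hs q (mem_insert_of_mem hq) r (mem_insert_of_mem hr)) (by omega)
    have hpG := hM p (mem_insert_self _ _)
    obtain ⟨g1, g2, g3⟩ := c.gp_ne hpG
    have hsub : M.image Prod.fst ∪ M.image Prod.snd ∪ D.erase d ⊆
        (insert p M).image Prod.fst ∪ (insert p M).image Prod.snd ∪ D := by
      rw [image_insert, image_insert]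
      exact union_subset_union (union_subset_union (subset_insert _ _) (subset_insert _ _))
        (erase_subset _ _)
    have hN2 : ({p.1, p.2, d} : Finset V) ⊆
        (insert p M).image Prod.fst ∪ (insert p M).image Prod.snd ∪ D := by
      apply tri_sub
      · rw [mem_union, mem_union]
        exact Or.inl (Or.inl (mem_image.2 ⟨p, mem_insert_self _ _, rfl⟩))
      · rw [mem_union, mem_union]
        exact Or.inl (Or.inr (mem_image.2 ⟨p, mem_insert_self _ _, rfl⟩))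
      · exact mem_union_right _ hd
    have hdis : ∀ S ∈ NN, Disjoint S ({p.1, p.2, d} : Finset V) := by
      intro S hS
      rw [Finset.disjoint_left]
      intro x hx hx'
      have hx2 := h1.sub S hS hx
      simp only [mem_union, mem_image, mem_erase] at hx2
      simp only [mem_insert, mem_singleton] at hx'
      have k1 : ∀ q ∈ M, q.1 ≠ p.1 := by
        intro q hq e
        have := hf q (mem_insert_of_mem hq) p (mem_insert_self _ _) e
        exact hp (this ▸ hq)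
      have k2 : ∀ q ∈ M, q.2 ≠ p.2 := by
        intro q hq e
        have := hs q (mem_insert_of_mem hq) p (mem_insert_self _ _) e
        exact hp (this ▸ hq)
      rcases hx2 with (⟨q, hq, rfl⟩ | ⟨q, hq, rfl⟩) | ⟨hxd, hxD⟩
      · have hqG := hM q (mem_insert_of_mem hq)
        rcases hx' with h5 | h5 | h5
        · exact k1 q hq h5
        · have h6 := hqG.l
          rw [h5] at h6
          exact c.notboth hpG.r h6
        · exact (c.gp_ne hqG).2.1 (h5 ▸ hD hd)
      · have hqG := hM q (mem_insert_of_mem hq)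
        rcases hx' with h5 | h5 | h5
        · have h6 := hqG.r
          rw [h5] at h6
          exact c.notboth h6 hpG.l
        · exact k2 q hq h5
        · exact (c.gp_ne hqG).2.2 (h5 ▸ hD hd)
      · rcases hx' with h5 | h5 | h5
        · exact g2 (h5 ▸ hD hxD)
        · exact g3 (h5 ▸ hD hxD)
        · exact hxd h5
    obtain ⟨h3, h4⟩ := (h1.mono hsub).cons (c.gp hpG (hD hd)) hN2 hdis
    refine ⟨_, h3, ?_⟩
    rw [h4, h2, card_insert_of_notMem hp]

/-- the final count -/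
theorem Cx.assemble (c : Cx F R SS B1 B2) {TT : Finset (Finset V)} (hTT : TT ⊆ SS)
    {M : Finset (V × V)} (hM : ∀ p ∈ M, Gp F B1 B2 p.1 p.2)
    (hf : ∀ p ∈ M, ∀ q ∈ M, p.1 = q.1 → p = q) (hs : ∀ p ∈ M, ∀ q ∈ M, p.2 = q.2 → p = q)
    (hMs : ∀ p ∈ M, p.1 ∈ TT.biUnion id ∧ p.2 ∈ TT.biUnion id)
    {D : Finset V} (hD : D ⊆ rest R SS) (hMD : M.card ≤ D.card)
    {X : Finset V} {NU : Finset (Finset V)} (hX : X ⊆ rest R SS ∪ TT.biUnion id) (hNU : Fam F X NU)
    (hXD : Disjoint X D) (hXM : ∀ p ∈ M, p.1 ∉ X ∧ p.2 ∉ X)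
    (hcard : TT.card < NU.card + M.card) : False := by
  obtain ⟨NN, h1, h2⟩ := c.pairs M D hD hM hf hs hMD
  have hd : Disjoint X (M.image Prod.fst ∪ M.image Prod.snd ∪ D) := by
    rw [Finset.disjoint_left]
    intro x hx hx'
    simp only [mem_union, mem_image] at hx'
    rcases hx' with (⟨q, hq, rfl⟩ | ⟨q, hq, rfl⟩) | h3
    · exact (hXM q hq).1 hx
    · exact (hXM q hq).2 hx
    · exact Finset.disjoint_left.1 hXD hx h3
  obtain ⟨h3, h4⟩ := hNU.union_disj h1 hd
  refine c.fam.big c.mx hTT (h3.mono ?_) (by omega)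
  refine union_subset hX (union_subset (union_subset ?_ ?_) (hD.trans subset_union_left))
  · intro x hx
    obtain ⟨q, hq, rfl⟩ := mem_image.1 hx
    exact mem_union_right _ (hMs q hq).1
  · intro x hx
    obtain ⟨q, hq, rfl⟩ := mem_image.1 hx
    exact mem_union_right _ (hMs q hq).2

/-- the natural pair and the natural third of a seagull of full vertices -/
theorem Cx.natural (c : Cx F R SS B1 B2) {S : Finset V} (hS : S ∈ SS)
    (hf : ∀ x ∈ S, Fu F B1 B2 x) :
    ∃ x y a, x ∈ S ∧ y ∈ S ∧ a ∈ S ∧ Gp F B1 B2 x y ∧ a ≠ x ∧ a ≠ y ∧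
      ((Cp F B2 a ∧ F.Adj a y) ∨ (Cp F B1 a ∧ F.Adj a x)) := by
  obtain ⟨a, d, b, h, hSe⟩ := c.fam.sg S hS
  have haS : a ∈ S := by rw [hSe]; simp
  have hdS : d ∈ S := by rw [hSe]; simp
  have hbS : b ∈ S := by rw [hSe]; simp
  have key : ∀ a d : V, Sg F a d b → a ∈ S → d ∈ S → Cp F B2 a → ∃ x y a, x ∈ S ∧ y ∈ S ∧ a ∈ S ∧
      Gp F B1 B2 x y ∧ a ≠ x ∧ a ≠ y ∧
      ((Cp F B2 a ∧ F.Adj a y) ∨ (Cp F B1 a ∧ F.Adj a x)) := by
    intro a d h haS hdS ha
    have hd : Cp F B1 d := by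
      rcases hf d hdS with h1 | h1
      · exact h1
      · exact absurd h.ac (c.same2 ha h1)
    rcases hf b hbS with h1 | h1
    · exact ⟨a, b, d, haS, hbS, hdS, ⟨ha, h1, h.ab⟩, h.ac.ne.symm, h.ncb,
        Or.inr ⟨hd, h.ac.symm⟩⟩
    · exact ⟨b, d, a, hbS, hdS, haS, ⟨h1, hd, fun e => h.cb e.symm⟩, h.nab, h.ac.ne,
        Or.inl ⟨ha, h.ac⟩⟩
  rcases hf a haS with h1 | h1
  · rcases hf d hdS with h2 | h2
    · exact absurd h.ac (c.same1 h1 h2)
    · exact key d a h.symm hdS haS h2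
  · exact key a d h haS hdS h1

/-- the conflict: two vertices with the same single nonneighbour in `B1` -/
theorem Cx.conf (c : Cx F R SS B1 B2) {Sk : Finset V} (hSk : Sk ∈ SS)
    {gi gk v : V} (hgk : gk ∈ Sk) (hv : v ∈ Sk)
    (hfi : ¬ Fu F B1 B2 gi) (hfk : ¬ Fu F B1 B2 gk) (hv1 : Cp F B1 v)
    (hconf : ∀ b ∈ B1, ∀ b' ∈ B1, ¬ F.Adj gi b → ¬ F.Adj gk b' → b = b') :
    ∃ v' ∈ Sk, v' ≠ v ∧ v' ≠ gk ∧ ∃ b' ∈ B1, ∃ β ∈ B1, b' ≠ β ∧ ∃ b2 ∈ B2, Sg F gk b' v' ∧
      Sg F β b2 gi := by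
  obtain ⟨⟨β, hβ, e1⟩, ⟨b2, hb2, e2⟩⟩ := nf_iff.1 hfi
  obtain ⟨⟨β', hβ', e3⟩, -⟩ := nf_iff.1 hfk
  have hββ : β = β' := hconf β hβ β' hβ' e1 e3
  subst hββ
  obtain ⟨b', hb', hb'β⟩ := pick1 c.c1 β
  have hgb : F.Adj gk b' := by
    by_contra hcon
    exact hb'β (hconf β hβ b' hb' e1 hcon).symm
  have hvg : v ≠ gk := by
    rintro rfl
    exact hfk (Or.inl hv1)
  obtain ⟨v', hv', hv'v, hv'g, hSe⟩ := sg_third (c.fam.sg Sk hSk) hv hgk hvg
  have hvgk : ¬ F.Adj v gk := fun e => c.tf v gk b' e hgb (hv1 b' hb')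
  have hsg := sg_edge (c.fam.sg Sk hSk) hSe
  rcases c.nf_one hSk hgk hv' hv'g.symm hfk with h1 | h1
  · -- same side as `v`
    exfalso
    have h2 : ¬ F.Adj v v' := c.same1 hv1 h1
    have h3 : ¬ F.Adj gk v' := fun e => c.tf gk v' b' e (h1 b' hb') hgb
    rcases hsg with h | h | h
    · exact hvgk h.1
    · exact h2 h.1
    · exact h3 h.1
  · have h2 : F.Adj v v' := c.opp hSk hgk hv hv' hfk hv1 h1
    have h3 : ¬ F.Adj gk v' := by
      rcases hsg with h | h | h
      · exact absurd h2 h.2.1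
      · exact h.2.2
      · exact absurd h2 h.2.2
    exact ⟨v', hv', hv'v, hv'g, b', hb', β, hβ, hb'β, b2, hb2,
      ⟨hgb, h3, c.same2 (c.cp1 hb') h1, hv'g.symm, (c.ne hSk hv' (c.r1 hb')).symm⟩,
      c.sg hβ hb2 e1 e2⟩

/-- the last case: four vertices in the rest, all vertices which are not full are isolated from
it -/
theorem Cx.zero (c : Cx F R SS B1 B2) {Si Sk : Finset V} (hSi : Si ∈ SS) (hSk : Sk ∈ SS)
    (hne : Si ≠ Sk) {gi gk u v : V} (hgi : gi ∈ Si) (hgk : gk ∈ Sk) (hu : u ∈ Si) (hv : v ∈ Sk)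
    (hfi : ¬ Fu F B1 B2 gi) (hfk : ¬ Fu F B1 B2 gk) (hG : Gp F B1 B2 u v)
    (hz : ∀ y ∈ rest R SS, ¬ F.Adj gi y ∧ ¬ F.Adj gk y) : False := by
  obtain ⟨b1, hb1⟩ := c.ex1
  obtain ⟨b1', hb1', hbb1⟩ := pick1 c.c1 b1
  obtain ⟨b2, hb2⟩ := c.symm.ex1
  obtain ⟨b2', hb2', hbb2⟩ := pick1 c.c2 b2
  have n12 : ∀ y ∈ B1, ∀ z ∈ B2, y ≠ z := by
    rintro y hy z hz rfl
    exact Finset.disjoint_left.1 c.dj hy hz
  have nS : ∀ x ∈ Si, ∀ y ∈ Sk, x ≠ y := by
    rintro x hx y hy rfl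
    exact Finset.disjoint_left.1 (c.fam.dis Si hSi Sk hSk hne) hx hy
  have ni : ∀ {x y : V}, x ∈ Si → y ∈ rest R SS → x ≠ y := fun hx hy => c.ne hSi hx hy
  have nk : ∀ {x y : V}, x ∈ Sk → y ∈ rest R SS → x ≠ y := fun hx hy => c.ne hSk hx hy
  have r1 : ∀ y ∈ B1, y ∈ rest R SS := fun y hy => c.r1 hy
  have r2 : ∀ y ∈ B2, y ∈ rest R SS := fun y hy => c.r2 hy
  have mB : ∀ y ∈ rest R SS, y ∈ rest R SS ∪ (Si ∪ Sk) := fun y hy => mem_union_left _ hy
  have mi : ∀ y ∈ Si, y ∈ rest R SS ∪ (Si ∪ Sk) := fun y hy =>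
    mem_union_right _ (mem_union_left _ hy)
  have mk : ∀ y ∈ Sk, y ∈ rest R SS ∪ (Si ∪ Sk) := fun y hy =>
    mem_union_right _ (mem_union_right _ hy)
  have hug : u ≠ gi := by
    rintro rfl
    exact hfi (Or.inr hG.l)
  have hvg : v ≠ gk := by
    rintro rfl
    exact hfk (Or.inl hG.r)
  have sgi : ∀ y ∈ B1, ∀ z ∈ B2, Sg F y z gi := fun y hy z hz' =>
    c.sg hy hz' (hz y (r1 y hy)).1 (hz z (r2 z hz')).1
  have sgk : ∀ y ∈ B1, ∀ z ∈ B2, Sg F y z gk := fun y hy z hz' =>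
    c.sg hy hz' (hz y (r1 y hy)).2 (hz z (r2 z hz')).2
  -- a seagull in `Si + Sk` without `gi`, `gk` finishes the proof
  have fin1 : ∀ x y z : V, Sg F x y z → x ∈ Si ∪ Sk → y ∈ Si ∪ Sk → z ∈ Si ∪ Sk →
      (x ≠ gi ∧ y ≠ gi ∧ z ≠ gi) → (x ≠ gk ∧ y ≠ gk ∧ z ≠ gk) → False := by
    intro x y z h hx hy hz' h1 h2
    have nn : ∀ x ∈ Si ∪ Sk, ∀ y ∈ rest R SS, x ≠ y := by
      intro x hx y hy
      rcases mem_union.1 hx with hx | hx
      · exact ni hx hy
      · exact nk hx hy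
    refine c.fam.three c.mx hSi hSk h.isSg (sgi b1 hb1 b2 hb2).isSg (sgk b1' hb1' b2' hb2').isSg
      (disj_tri ⟨nn x hx _ (r1 _ hb1), nn x hx _ (r2 _ hb2), h1.1⟩
        ⟨nn y hy _ (r1 _ hb1), nn y hy _ (r2 _ hb2), h1.2.1⟩
        ⟨nn z hz' _ (r1 _ hb1), nn z hz' _ (r2 _ hb2), h1.2.2⟩)
      (disj_tri ⟨nn x hx _ (r1 _ hb1'), nn x hx _ (r2 _ hb2'), h2.1⟩
        ⟨nn y hy _ (r1 _ hb1'), nn y hy _ (r2 _ hb2'), h2.2.1⟩
        ⟨nn z hz' _ (r1 _ hb1'), nn z hz' _ (r2 _ hb2'), h2.2.2⟩)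
      (disj_tri ⟨hbb1.symm, n12 _ hb1 _ hb2', (nk hgk (r1 _ hb1)).symm⟩
        ⟨(n12 _ hb1' _ hb2).symm, hbb2.symm, (nk hgk (r2 _ hb2)).symm⟩
        ⟨ni hgi (r1 _ hb1'), ni hgi (r2 _ hb2'), nS _ hgi _ hgk⟩)
      (tri_sub (mem_union_right _ hx) (mem_union_right _ hy) (mem_union_right _ hz'))
      (tri_sub (mB _ (r1 _ hb1)) (mB _ (r2 _ hb2)) (mi _ hgi))
      (tri_sub (mB _ (r1 _ hb1')) (mB _ (r2 _ hb2')) (mk _ hgk))
  -- the third vertices
  obtain ⟨u', hu', hu'u, hu'g, hSie⟩ := sg_third (c.fam.sg Si hSi) hu hgi hug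
  obtain ⟨v', hv', hv'v, hv'g, hSke⟩ := sg_third (c.fam.sg Sk hSk) hv hgk hvg
  have hsi := sg_edge (c.fam.sg Si hSi) hSie
  have hsk := sg_edge (c.fam.sg Sk hSk) hSke
  rcases c.nf_one hSi hgi hu' hu'g.symm hfi with h1 | h1
  · have h2 : F.Adj u' u := c.opp hSi hgi hu' hu hfi h1 hG.l
    exact fin1 u' u v ⟨h2, c.same1 h1 hG.r, hG.n, nS _ hu' _ hv, nS _ hu _ hv⟩
      (mem_union_left _ hu') (mem_union_left _ hu) (mem_union_right _ hv)
      ⟨hu'g, hug, (nS _ hgi _ hv).symm⟩ ⟨nS _ hu' _ hgk, nS _ hu _ hgk, hvg⟩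
  rcases c.nf_one hSk hgk hv' hv'g.symm hfk with h2 | h2
  swap
  · have h3 : F.Adj v v' := c.opp hSk hgk hv hv' hfk hG.r h2
    exact fin1 v v' u ⟨h3, fun e => hG.n e.symm, c.same2 h2 hG.l, (nS _ hu _ hv).symm,
      (nS _ hu _ hv').symm⟩
      (mem_union_right _ hv) (mem_union_right _ hv') (mem_union_left _ hu)
      ⟨(nS _ hgi _ hv).symm, (nS _ hgi _ hv').symm, hug⟩ ⟨hvg, hv'g, nS _ hu _ hgk⟩
  -- now `u, u'` are complete to `B2` and `v, v'` are complete to `B1`
  have huu : ¬ F.Adj u u' := c.same2 hG.l h1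
  have hvv : ¬ F.Adj v v' := c.same1 hG.r h2
  -- `gi` is joined to the other vertex
  have fin2 : ∀ x x' : V, x ∈ Si → x' ∈ Si → x ≠ x' → x ≠ gi → x' ≠ gi → Gp F B1 B2 x v →
      Cp F B2 x' → F.Adj x' gi → False := by
    intro x x' hx hx' hxx hxg hxg' hG' hx'2 hadj
    have e1 : Sg F x' gi b1 := ⟨hadj, c.same2 hx'2 (c.cp1 hb1), (hz b1 (r1 _ hb1)).1,
      ni hx' (r1 _ hb1), ni hgi (r1 _ hb1)⟩
    have e2 : IsSg F {x, v, b2'} := c.gp hG' (r2 _ hb2')
    refine c.fam.three c.mx hSi hSk e2 e1.isSg (sgk b1' hb1' b2 hb2).isSg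
      (disj_tri ⟨hxx, hxg, ni hx (r1 _ hb1)⟩
        ⟨(nS _ hx' _ hv).symm, (nS _ hgi _ hv).symm, nk hv (r1 _ hb1)⟩
        ⟨(ni hx' (r2 _ hb2')).symm, (ni hgi (r2 _ hb2')).symm, (n12 _ hb1 _ hb2').symm⟩)
      (disj_tri ⟨ni hx (r1 _ hb1'), ni hx (r2 _ hb2), nS _ hx _ hgk⟩
        ⟨nk hv (r1 _ hb1'), nk hv (r2 _ hb2), hvg⟩
        ⟨(n12 _ hb1' _ hb2').symm, hbb2, (nk hgk (r2 _ hb2')).symm⟩)
      (disj_tri ⟨ni hx' (r1 _ hb1'), ni hx' (r2 _ hb2), nS _ hx' _ hgk⟩
        ⟨ni hgi (r1 _ hb1'), ni hgi (r2 _ hb2), nS _ hgi _ hgk⟩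
        ⟨hbb1.symm, n12 _ hb1 _ hb2, (nk hgk (r1 _ hb1)).symm⟩)
      (tri_sub (mi _ hx) (mk _ hv) (mB _ (r2 _ hb2')))
      (tri_sub (mi _ hx') (mi _ hgi) (mB _ (r1 _ hb1)))
      (tri_sub (mB _ (r1 _ hb1')) (mB _ (r2 _ hb2)) (mk _ hgk))
  rcases hsi with h3 | h3 | h3
  · -- `u ~ gi`
    rcases hsk with h4 | h4 | h4
    · -- `v ~ gk`
      by_cases h5 : F.Adj u' v
      · exact fin1 u' v u ⟨h5, fun e => huu e.symm, fun e => hG.n e.symm, hu'u,
          (nS _ hu _ hv).symm⟩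
          (mem_union_left _ hu') (mem_union_right _ hv) (mem_union_left _ hu)
          ⟨hu'g, (nS _ hgi _ hv).symm, hug⟩ ⟨nS _ hu' _ hgk, hvg, nS _ hu _ hgk⟩
      · exact fin2 u' u hu' hu hu'u hu'g hug ⟨h1, hG.r, h5⟩ hG.l h3.1
    · exact hvv h4.1
    · -- `gk ~ v'`
      have e1 : Sg F gk v' b2 := ⟨h4.1, (hz b2 (r2 _ hb2)).2, c.same1 h2 (c.cp2 hb2),
        nk hgk (r2 _ hb2), nk hv' (r2 _ hb2)⟩
      have e2 : IsSg F {u, v, b1'} := c.gp hG (r1 _ hb1')
      refine c.fam.three c.mx hSi hSk e2 e1.isSg (sgi b1 hb1 b2' hb2').isSg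
        (disj_tri ⟨nS _ hu _ hgk, nS _ hu _ hv', ni hu (r2 _ hb2)⟩
          ⟨hvg, hv'v.symm, nk hv (r2 _ hb2)⟩
          ⟨(nk hgk (r1 _ hb1')).symm, (nk hv' (r1 _ hb1')).symm, n12 _ hb1' _ hb2⟩)
        (disj_tri ⟨ni hu (r1 _ hb1), ni hu (r2 _ hb2'), hug⟩
          ⟨nk hv (r1 _ hb1), nk hv (r2 _ hb2'), (nS _ hgi _ hv).symm⟩
          ⟨hbb1, n12 _ hb1' _ hb2', (ni hgi (r1 _ hb1')).symm⟩)
        (disj_tri ⟨nk hgk (r1 _ hb1), nk hgk (r2 _ hb2'), (nS _ hgi _ hgk).symm⟩
          ⟨nk hv' (r1 _ hb1), nk hv' (r2 _ hb2'), (nS _ hgi _ hv').symm⟩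
          ⟨(n12 _ hb1 _ hb2).symm, hbb2.symm, (ni hgi (r2 _ hb2)).symm⟩)
        (tri_sub (mi _ hu) (mk _ hv) (mB _ (r1 _ hb1')))
        (tri_sub (mk _ hgk) (mk _ hv') (mB _ (r2 _ hb2)))
        (tri_sub (mB _ (r1 _ hb1)) (mB _ (r2 _ hb2')) (mi _ hgi))
  · exact huu h3.1
  · -- `gi ~ u'`
    exact fin2 u u' hu hu' hu'u.symm hug hu'g hG h1 h3.1.symm

theorem Cx.fin (c : Cx F R SS B1 B2) (hβ : 4 ≤ (rest R SS).card)
    (hD : ∀ x ∈ R, (R.filter (fun y => F.Adj x y)).card + 2 * (SS.card + 1) ≤ R.card)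
    (hC : ∀ A B : Finset V, A ⊆ R → B ⊆ R → Disjoint A B → A.Nonempty → B.Nonempty →
      (∀ a ∈ A, ∀ b ∈ B, F.Adj a b) → A.card + B.card + (SS.card + 1) ≤ R.card) : False := by
  set T := SS.filter (fun S => ∀ x ∈ S, Fu F B1 B2 x) with hT
  have hTS : T ⊆ SS := filter_subset _ _
  have hTf : ∀ S ∈ T, ∀ x ∈ S, Fu F B1 B2 x := fun S hS => (mem_filter.1 hS).2
  have hr := c.fam.card_rest
  have ht : T.card + 4 ≤ (rest R SS).card := by
    obtain ⟨p, hp⟩ := c.ex1
    obtain ⟨l, hl⟩ := c.symm.ex1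
    refine le_trans ?_ (c.count hD hp hl)
    have h1 : T ⊆ SS.filter (fun S => ∀ x ∈ S, F.Adj p x ∨ F.Adj l x) := by
      intro S hS
      refine mem_filter.2 ⟨hTS hS, fun x hx => ?_⟩
      rcases hTf S hS x hx with h | h
      · exact Or.inl (h p hp).symm
      · exact Or.inr (h l hl).symm
    have := card_le_card h1
    omega
  obtain ⟨p0, hp0⟩ := c.ex1
  obtain ⟨l0, hl0⟩ := c.symm.ex1
  haveI : Nonempty V := ⟨p0⟩
  have key : ∀ S ∈ T, ∃ x y a, x ∈ S ∧ y ∈ S ∧ a ∈ S ∧ Gp F B1 B2 x y ∧ a ≠ x ∧ a ≠ y ∧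
      ((Cp F B2 a ∧ F.Adj a y) ∨ (Cp F B1 a ∧ F.Adj a x)) :=
    fun S hS => c.natural (hTS hS) (hTf S hS)
  choose! px py pa hpx hpy hpa hGp hax hay hnat using key
  have hneS : ∀ S ∈ SS, ∀ S' ∈ SS, S ≠ S' → ∀ x ∈ S, ∀ y ∈ S', x ≠ y := by
    rintro S hS S' hS' hne x hx y hy rfl
    exact Finset.disjoint_left.1 (c.fam.dis S hS S' hS' hne) hx hy
  set M0 : Finset (V × V) := T.image (fun S => (px S, py S)) with hM0
  have hM0m : ∀ p ∈ M0, ∃ S ∈ T, p.1 = px S ∧ p.2 = py S := by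
    intro p hp
    obtain ⟨S, hS, rfl⟩ := mem_image.1 hp
    exact ⟨S, hS, rfl, rfl⟩
  have hTR : ∀ S ∈ T, ∀ x ∈ S, x ∈ R := fun S hS x hx => c.fam.sub S (hTS hS) hx
  have hM0c : M0.card ≤ T.card := card_image_le
  have hM0c' : T.card ≤ M0.card := by
    rw [hM0, card_image_of_injOn]
    intro S hS S' hS' he
    by_contra hne
    have h1 : px S = px S' := congrArg Prod.fst he
    exact hneS S (hTS hS) S' (hTS hS') hne _ (hpx S hS) _ (hpx S' hS') h1
  set A1 := R.filter (fun x => Cp F B2 x) with hA1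
  set A2 := R.filter (fun x => Cp F B1 x) with hA2
  rcases dich (fun x y => ¬ F.Adj x y) _ A1 A2 M0 rfl
    (by
      intro p hp
      obtain ⟨S, hS, h1, h2⟩ := hM0m p hp
      rw [h1, h2]
      exact ⟨mem_filter.2 ⟨hTR S hS _ (hpx S hS), (hGp S hS).l⟩,
        mem_filter.2 ⟨hTR S hS _ (hpy S hS), (hGp S hS).r⟩, (hGp S hS).n⟩)
    (by
      intro p hp q hq e
      obtain ⟨S, hS, h1, h2⟩ := hM0m p hp
      obtain ⟨S', hS', h3, h4⟩ := hM0m q hq
      have : S = S' := by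
        by_contra hne
        exact hneS S (hTS hS) S' (hTS hS') hne _ (hpx S hS) _ (hpx S' hS')
          (h1.symm.trans (e.trans h3))
      subst this
      exact Prod.ext (h1.trans h3.symm) (h2.trans h4.symm))
    (by
      intro p hp q hq e
      obtain ⟨S, hS, h1, h2⟩ := hM0m p hp
      obtain ⟨S', hS', h3, h4⟩ := hM0m q hq
      have : S = S' := by
        by_contra hne
        exact hneS S (hTS hS) S' (hTS hS') hne _ (hpy S hS) _ (hpy S' hS')
          (h2.symm.trans (e.trans h4))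
      subst this
      exact Prod.ext (h1.trans h3.symm) (h2.trans h4.symm)) with
    ⟨C1, C2, hC1, hC2, hCc, hcov⟩ | ⟨M', hM', hM'f, hM's, hM'c, u, v, huA, hvA, huM, hvM, hfst, hsnd⟩
  · -- the cover
    have hfull := c.fullcount
    rw [← hT] at hfull
    have hun : R.filter (fun x => Fu F B1 B2 x) ⊆ A1 ∪ A2 := by
      intro x hx
      obtain ⟨hxR, h1⟩ := mem_filter.1 hx
      rcases h1 with h1 | h1
      · exact mem_union_right _ (mem_filter.2 ⟨hxR, h1⟩)
      · exact mem_union_left _ (mem_filter.2 ⟨hxR, h1⟩)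
    have h1 := card_le_card hun
    have h2 := card_union_le A1 A2
    have h3 := card_le_card_sdiff_add_card (s := A1) (t := C1)
    have h4 := card_le_card_sdiff_add_card (s := A2) (t := C2)
    have hp0' : p0 ∈ A1 \ C1 := by
      refine mem_sdiff.2 ⟨mem_filter.2 ⟨(mem_rest.1 (c.r1 hp0)).1, c.cp1 hp0⟩, ?_⟩
      intro h5
      obtain ⟨q, hq, hqp⟩ := mem_image.1 (hC1 h5)
      obtain ⟨S, hS, h6, -⟩ := hM0m q hq
      exact c.ne (hTS hS) (hpx S hS) (c.r1 hp0) (h6.symm.trans hqp)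
    have hl0' : l0 ∈ A2 \ C2 := by
      refine mem_sdiff.2 ⟨mem_filter.2 ⟨(mem_rest.1 (c.r2 hl0)).1, c.cp2 hl0⟩, ?_⟩
      intro h5
      obtain ⟨q, hq, hqp⟩ := mem_image.1 (hC2 h5)
      obtain ⟨S, hS, -, h6⟩ := hM0m q hq
      exact c.ne (hTS hS) (hpy S hS) (c.r2 hl0) (h6.symm.trans hqp)
    have h5 := hC (A1 \ C1) (A2 \ C2) (sdiff_subset.trans (filter_subset _ _))
      (sdiff_subset.trans (filter_subset _ _)) (by
        rw [Finset.disjoint_left]
        intro x hx hx'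
        exact c.notboth (mem_filter.1 (mem_sdiff.1 hx').1).2 (mem_filter.1 (mem_sdiff.1 hx).1).2)
      ⟨p0, hp0'⟩ ⟨l0, hl0'⟩ (by
        intro a ha b hb
        by_contra hcon
        obtain ⟨ha1, ha2⟩ := mem_sdiff.1 ha
        obtain ⟨hb1, hb2⟩ := mem_sdiff.1 hb
        rcases hcov a ha1 b hb1 hcon with h6 | h6
        · exact ha2 h6
        · exact hb2 h6)
    omega
  -- the larger matching
  have hMG : ∀ p ∈ M', Gp F B1 B2 p.1 p.2 := by
    intro p hp
    obtain ⟨h1, h2, h3⟩ := hM' p hp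
    exact ⟨(mem_filter.1 h1).2, (mem_filter.1 h2).2, h3⟩
  have huM' : u ∈ M'.image Prod.fst := by rw [hfst]; exact mem_insert_self _ _
  have hvM' : v ∈ M'.image Prod.snd := by rw [hsnd]; exact mem_insert_self _ _
  obtain ⟨huR, hu2⟩ := mem_filter.1 huA
  obtain ⟨hvR, hv1⟩ := mem_filter.1 hvA
  have hur : u ∉ rest R SS := by
    obtain ⟨q, hq, hqu⟩ := mem_image.1 huM'
    rw [← hqu]; exact (c.gp_ne (hMG q hq)).2.1
  have hvr : v ∉ rest R SS := by
    obtain ⟨q, hq, hqv⟩ := mem_image.1 hvM'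
    rw [← hqv]; exact (c.gp_ne (hMG q hq)).2.2
  obtain ⟨Su, hSu, huS⟩ : ∃ S ∈ SS, u ∈ S := by
    by_contra hcon
    push Not at hcon
    exact hur (mem_rest.2 ⟨huR, hcon⟩)
  obtain ⟨Sv, hSv, hvS⟩ : ∃ S ∈ SS, v ∈ S := by
    by_contra hcon
    push Not at hcon
    exact hvr (mem_rest.2 ⟨hvR, hcon⟩)
  have hV1 : ∀ p ∈ M', p.1 = u ∨ ∃ S ∈ T, p.1 ∈ S ∧ p.1 = px S := by
    intro p hp
    have h1 : p.1 ∈ M'.image Prod.fst := mem_image_of_mem _ hp
    rw [hfst, mem_insert] at h1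
    rcases h1 with h1 | h1
    · exact Or.inl h1
    · obtain ⟨q, hq, hqp⟩ := mem_image.1 h1
      obtain ⟨S, hS, h2, -⟩ := hM0m q hq
      right
      refine ⟨S, hS, ?_, hqp.symm.trans h2⟩
      rw [← hqp, h2]; exact hpx S hS
  have hV2 : ∀ p ∈ M', p.2 = v ∨ ∃ S ∈ T, p.2 ∈ S ∧ p.2 = py S := by
    intro p hp
    have h1 : p.2 ∈ M'.image Prod.snd := mem_image_of_mem _ hp
    rw [hsnd, mem_insert] at h1
    rcases h1 with h1 | h1
    · exact Or.inl h1
    · obtain ⟨q, hq, hqp⟩ := mem_image.1 h1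
      obtain ⟨S, hS, -, h2⟩ := hM0m q hq
      right
      refine ⟨S, hS, ?_, hqp.symm.trans h2⟩
      rw [← hqp, h2]; exact hpy S hS
  have hMs : ∀ TT : Finset (Finset V), T ⊆ TT → u ∈ TT.biUnion id → v ∈ TT.biUnion id →
      ∀ p ∈ M', p.1 ∈ TT.biUnion id ∧ p.2 ∈ TT.biUnion id := by
    intro TT hTT hu hv p hp
    constructor
    · rcases hV1 p hp with h1 | ⟨S, hS, h1, -⟩
      · rw [h1]; exact hu
      · exact mem_biUnion.2 ⟨S, hTT hS, h1⟩
    · rcases hV2 p hp with h1 | ⟨S, hS, h1, -⟩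
      · rw [h1]; exact hv
      · exact mem_biUnion.2 ⟨S, hTT hS, h1⟩
  -- vertices of seagulls outside `T` which are not `u`, `v`
  have hout : ∀ S ∈ SS, S ∉ T → ∀ z ∈ S, z ≠ u → z ≠ v → ∀ p ∈ M', p.1 ≠ z ∧ p.2 ≠ z := by
    intro S hS hST z hz hzu hzv p hp
    constructor
    · rcases hV1 p hp with h1 | ⟨S', hS', h1, -⟩
      · rw [h1]; exact hzu.symm
      · have hne : S' ≠ S := by
          rintro rfl
          exact hST hS'
        exact hneS S' (hTS hS') S hS hne _ h1 _ hz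
    · rcases hV2 p hp with h1 | ⟨S', hS', h1, -⟩
      · rw [h1]; exact hzv.symm
      · have hne : S' ≠ S := by
          rintro rfl
          exact hST hS'
        exact hneS S' (hTS hS') S hS hne _ h1 _ hz
  have hrout : ∀ z ∈ rest R SS, ∀ p ∈ M', p.1 ≠ z ∧ p.2 ≠ z := by
    intro z hz p hp
    constructor
    · rintro rfl
      exact (c.gp_ne (hMG p hp)).2.1 hz
    · rintro rfl
      exact (c.gp_ne (hMG p hp)).2.2 hz
  -- one seagull outside `T`
  have hone : ∀ S ∈ SS, S ∉ T → u ∈ (insert S T).biUnion id → v ∈ (insert S T).biUnion id →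
      False := by
    intro S hS hST hu hv
    obtain ⟨g, hg, hgf⟩ : ∃ g ∈ S, ¬ Fu F B1 B2 g := by
      by_contra hcon
      push Not at hcon
      exact hST (mem_filter.2 ⟨hS, hcon⟩)
    obtain ⟨⟨b1, hb1, e1⟩, ⟨b2, hb2, e2⟩⟩ := nf_iff.1 hgf
    have hgu : g ≠ u := by
      rintro rfl
      exact hgf (Or.inr hu2)
    have hgv : g ≠ v := by
      rintro rfl
      exact hgf (Or.inl hv1)
    have hb12 : b1 ≠ b2 := by
      rintro rfl
      exact Finset.disjoint_left.1 c.dj hb1 hb2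
    have hTT : insert S T ⊆ SS := insert_subset hS hTS
    have hDc : (((rest R SS).erase b1).erase b2).card = (rest R SS).card - 2 := by
      rw [card_erase_of_mem (mem_erase.2 ⟨hb12.symm, c.r2 hb2⟩), card_erase_of_mem (c.r1 hb1)]
      omega
    refine c.assemble hTT hMG hM'f hM's (hMs _ (subset_insert _ _) hu hv)
      (D := ((rest R SS).erase b1).erase b2) ((erase_subset _ _).trans (erase_subset _ _))
      (by omega) (X := {b1, b2, g}) (NU := {{b1, b2, g}}) ?_
      (fam_one (c.sg hb1 hb2 e1 e2).isSg (Subset.refl _)) ?_ ?_ ?_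
    · exact tri_sub (mem_union_left _ (c.r1 hb1)) (mem_union_left _ (c.r2 hb2))
        (mem_union_right _ (mem_biUnion.2 ⟨S, mem_insert_self _ _, hg⟩))
    · rw [Finset.disjoint_left]
      intro x hx hx'
      simp only [mem_insert, mem_singleton] at hx
      rw [mem_erase, mem_erase] at hx'
      rcases hx with rfl | rfl | rfl
      · exact hx'.2.1 rfl
      · exact hx'.1 rfl
      · exact c.ne hS hg hx'.2.2 rfl
    · intro p hp
      have h1 := hrout b1 (c.r1 hb1) p hp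
      have h2 := hrout b2 (c.r2 hb2) p hp
      have h3 := hout S hS hST g hg hgu hgv p hp
      simp only [mem_insert, mem_singleton, not_or]
      exact ⟨⟨h1.1, h2.1, h3.1⟩, ⟨h1.2, h2.2, h3.2⟩⟩
    · have := card_insert_le S T
      rw [card_singleton]
      omega
  by_cases hSuT : Su ∈ T
  · by_cases hSvT : Sv ∈ T
    · -- both in `T`
      refine c.assemble hTS hMG hM'f hM's (hMs T (Subset.refl _)
        (mem_biUnion.2 ⟨Su, hSuT, huS⟩) (mem_biUnion.2 ⟨Sv, hSvT, hvS⟩)) (D := rest R SS)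
        (Subset.refl _) (by omega) (X := ∅) (NU := ∅) (by simp) ?_ (by simp) (by simp) ?_
      · exact ⟨fun S hS => absurd hS (notMem_empty _), fun S hS => absurd hS (notMem_empty _),
          fun S hS => absurd hS (notMem_empty _)⟩
      · rw [card_empty]; omega
    · exact hone Sv hSv hSvT (mem_biUnion.2 ⟨Su, mem_insert_of_mem hSuT, huS⟩)
        (mem_biUnion.2 ⟨Sv, mem_insert_self _ _, hvS⟩)
  by_cases hSvT : Sv ∈ T
  · exact hone Su hSu hSuT (mem_biUnion.2 ⟨Su, mem_insert_self _ _, huS⟩)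
      (mem_biUnion.2 ⟨Sv, mem_insert_of_mem hSvT, hvS⟩)
  by_cases hSS : Su = Sv
  · refine hone Su hSu hSuT (mem_biUnion.2 ⟨Su, mem_insert_self _ _, huS⟩)
      (mem_biUnion.2 ⟨Su, mem_insert_self _ _, ?_⟩)
    rw [hSS]; exact hvS
  -- two different seagulls outside `T`
  obtain ⟨gi, hgi, hfi⟩ : ∃ g ∈ Su, ¬ Fu F B1 B2 g := by
    by_contra hcon
    push Not at hcon
    exact hSuT (mem_filter.2 ⟨hSu, hcon⟩)
  obtain ⟨gk, hgk, hfk⟩ : ∃ g ∈ Sv, ¬ Fu F B1 B2 g := by
    by_contra hcon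
    push Not at hcon
    exact hSvT (mem_filter.2 ⟨hSv, hcon⟩)
  have hgiu : gi ≠ u := by
    rintro rfl
    exact hfi (Or.inr hu2)
  have hgku : gk ≠ u := by
    rintro rfl
    exact hfk (Or.inr hu2)
  have hgiv : gi ≠ v := by
    rintro rfl
    exact hfi (Or.inl hv1)
  have hgkv : gk ≠ v := by
    rintro rfl
    exact hfk (Or.inl hv1)
  have hgik : gi ≠ gk := hneS Su hSu Sv hSv hSS _ hgi _ hgk
  have nu : ∀ {x y : V}, x ∈ Su → y ∈ rest R SS → x ≠ y := fun hx hy => c.ne hSu hx hy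
  have nv : ∀ {x y : V}, x ∈ Sv → y ∈ rest R SS → x ≠ y := fun hx hy => c.ne hSv hx hy
  set TT := insert Su (insert Sv T) with hTTdef
  have hTTT : T ⊆ TT := (subset_insert _ _).trans (subset_insert _ _)
  have hTTs : TT ⊆ SS := insert_subset hSu (insert_subset hSv hTS)
  have hTTc : TT.card ≤ T.card + 2 := by
    have h1 := card_insert_le Su (insert Sv T)
    have h2 := card_insert_le Sv T
    rw [hTTdef]
    omega
  have hSuTT : Su ⊆ TT.biUnion id := fun x hx => mem_biUnion.2 ⟨Su, mem_insert_self _ _, hx⟩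
  have hSvTT : Sv ⊆ TT.biUnion id := fun x hx =>
    mem_biUnion.2 ⟨Sv, mem_insert_of_mem (mem_insert_self _ _), hx⟩
  have hMsTT := hMs TT hTTT (hSuTT huS) (hSvTT hvS)
  have hX0 : ∀ X : Finset V, X ⊆ rest R SS ∪ (Su ∪ Sv) → u ∉ X → v ∉ X →
      ∀ p ∈ M', p.1 ∉ X ∧ p.2 ∉ X := by
    intro X hX huX hvX p hp
    have aux : ∀ z ∈ X, p.1 ≠ z ∧ p.2 ≠ z := by
      intro z hz
      have hzu : z ≠ u := by
        rintro rfl
        exact huX hz
      have hzv : z ≠ v := by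
        rintro rfl
        exact hvX hz
      rcases mem_union.1 (hX hz) with h1 | h1
      · exact hrout z h1 p hp
      · rcases mem_union.1 h1 with h1 | h1
        · exact hout Su hSu hSuT z h1 hzu hzv p hp
        · exact hout Sv hSv hSvT z h1 hzu hzv p hp
    exact ⟨fun h => (aux _ h).1 rfl, fun h => (aux _ h).2 rfl⟩
  have hXE : ∀ X E : Finset V, X ⊆ E ∪ (Su ∪ Sv) → (X ∩ rest R SS).card ≤ E.card := by
    intro X E hX
    apply card_le_card
    intro x hx
    rw [mem_inter] at hx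
    rcases mem_union.1 (hX hx.1) with h1 | h1
    · exact h1
    · exfalso
      rcases mem_union.1 h1 with h1 | h1
      · exact nu h1 hx.2 rfl
      · exact nv h1 hx.2 rfl
  have gam : ∀ N1 N2 E : Finset V, IsSg F N1 → IsSg F N2 → Disjoint N1 N2 →
      N1 ⊆ E ∪ (Su ∪ Sv) → N2 ⊆ E ∪ (Su ∪ Sv) → E ⊆ rest R SS → u ∉ N1 → u ∉ N2 → v ∉ N1 →
      v ∉ N2 → T.card + 1 + E.card ≤ (rest R SS).card → False := by
    intro N1 N2 E h1 h2 hd hN1 hN2 hE hu1 hu2 hv1 hv2 hc
    obtain ⟨h3, h4⟩ := (fam_one h1 (subset_union_left (s₂ := N2))).cons h2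
      (subset_union_right (s₁ := N1)) (fun X hX => by
        rw [mem_singleton] at hX
        rw [hX]; exact hd)
    rw [card_singleton] at h4
    have hXs : N1 ∪ N2 ⊆ rest R SS ∪ (Su ∪ Sv) :=
      union_subset (hN1.trans (union_subset_union hE (Subset.refl _)))
        (hN2.trans (union_subset_union hE (Subset.refl _)))
    have huX : u ∉ N1 ∪ N2 := by
      rw [mem_union, not_or]; exact ⟨hu1, hu2⟩
    have hvX : v ∉ N1 ∪ N2 := by
      rw [mem_union, not_or]; exact ⟨hv1, hv2⟩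
    have h5 := hXE (N1 ∪ N2) E (union_subset hN1 hN2)
    have hDc : (rest R SS \ (N1 ∪ N2)).card + ((N1 ∪ N2) ∩ rest R SS).card =
        (rest R SS).card := by
      rw [inter_comm]; exact card_sdiff_add_card_inter _ _
    refine c.assemble hTTs hMG hM'f hM's hMsTT (D := rest R SS \ (N1 ∪ N2)) sdiff_subset
      (by omega) (X := N1 ∪ N2) (NU := insert N2 {N1}) ?_ h3 disjoint_sdiff (hX0 _ hXs huX hvX)
      (by omega)
    exact hXs.trans (union_subset_union (Subset.refl _) (union_subset hSuTT hSvTT))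
  by_cases hcf1 : ∀ b ∈ B1, ∀ b' ∈ B1, ¬ F.Adj gi b → ¬ F.Adj gk b' → b = b'
  · -- conflict on the first side
    obtain ⟨v', hv', hv'v, hv'g, b', hb', β, hβ1, hb'β, b2, hb2, e1, e2⟩ :=
      c.conf hSv hgk hvS hfi hfk hv1 hcf1
    refine gam {gk, b', v'} {β, b2, gi} {b', β, b2} e1.isSg e2.isSg ?_ ?_ ?_ ?_ ?_ ?_ ?_ ?_ ?_
    · exact disj_tri ⟨nv hgk (c.r1 hβ1), nv hgk (c.r2 hb2), hgik.symm⟩
        ⟨hb'β, fun e => Finset.disjoint_left.1 c.dj hb' (e ▸ hb2), (nu hgi (c.r1 hb')).symm⟩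
        ⟨nv hv' (c.r1 hβ1), nv hv' (c.r2 hb2), (hneS Su hSu Sv hSv hSS _ hgi _ hv').symm⟩
    · exact tri_sub (mem_union_right _ (mem_union_right _ hgk)) (mem_union_left _ (by simp))
        (mem_union_right _ (mem_union_right _ hv'))
    · exact tri_sub (mem_union_left _ (by simp)) (mem_union_left _ (by simp))
        (mem_union_right _ (mem_union_left _ hgi))
    · exact tri_sub (c.r1 hb') (c.r1 hβ1) (c.r2 hb2)
    · simp only [mem_insert, mem_singleton, not_or]
      exact ⟨hgku.symm, nu huS (c.r1 hb'), hneS Su hSu Sv hSv hSS _ huS _ hv'⟩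
    · simp only [mem_insert, mem_singleton, not_or]
      exact ⟨nu huS (c.r1 hβ1), nu huS (c.r2 hb2), hgiu.symm⟩
    · simp only [mem_insert, mem_singleton, not_or]
      exact ⟨hgkv.symm, nv hvS (c.r1 hb'), hv'v.symm⟩
    · simp only [mem_insert, mem_singleton, not_or]
      exact ⟨nv hvS (c.r1 hβ1), nv hvS (c.r2 hb2), hgiv.symm⟩
    · have h3 : ({b', β, b2} : Finset V).card ≤ 3 := card_le_three
      omega
  by_cases hcf2 : ∀ b ∈ B2, ∀ b' ∈ B2, ¬ F.Adj gk b → ¬ F.Adj gi b' → b = b'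
  · -- conflict on the second side
    obtain ⟨u', hu', hu'u, hu'g, b', hb', β, hβ2, hb'β, b1, hb1, e1, e2⟩ :=
      c.symm.conf hSu hgi huS (fun e => hfk e.symm) (fun e => hfi e.symm) hu2 hcf2
    refine gam {gi, b', u'} {β, b1, gk} {b', β, b1} e1.isSg e2.isSg ?_ ?_ ?_ ?_ ?_ ?_ ?_ ?_ ?_
    · exact disj_tri ⟨nu hgi (c.r2 hβ2), nu hgi (c.r1 hb1), hgik⟩
        ⟨hb'β, fun e => Finset.disjoint_left.1 c.dj hb1 (e ▸ hb'), (nv hgk (c.r2 hb')).symm⟩
        ⟨nu hu' (c.r2 hβ2), nu hu' (c.r1 hb1), hneS Su hSu Sv hSv hSS _ hu' _ hgk⟩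
    · exact tri_sub (mem_union_right _ (mem_union_left _ hgi)) (mem_union_left _ (by simp))
        (mem_union_right _ (mem_union_left _ hu'))
    · exact tri_sub (mem_union_left _ (by simp)) (mem_union_left _ (by simp))
        (mem_union_right _ (mem_union_right _ hgk))
    · exact tri_sub (c.r2 hb') (c.r2 hβ2) (c.r1 hb1)
    · simp only [mem_insert, mem_singleton, not_or]
      exact ⟨hgiu.symm, nu huS (c.r2 hb'), hu'u.symm⟩
    · simp only [mem_insert, mem_singleton, not_or]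
      exact ⟨nu huS (c.r2 hβ2), nu huS (c.r1 hb1), hgku.symm⟩
    · simp only [mem_insert, mem_singleton, not_or]
      exact ⟨hgiv.symm, nv hvS (c.r2 hb'), (hneS Su hSu Sv hSv hSS _ hu' _ hvS).symm⟩
    · simp only [mem_insert, mem_singleton, not_or]
      exact ⟨nv hvS (c.r2 hβ2), nv hvS (c.r1 hb1), hgkv.symm⟩
    · have h3 : ({b', β, b1} : Finset V).card ≤ 3 := card_le_three
      omega
  -- disjoint pairs
  push Not at hcf1 hcf2
  obtain ⟨b1, hb1, b1', hb1', e1, e1', hbb1⟩ := hcf1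
  obtain ⟨b2', hb2', b2, hb2, e2', e2, hbb2⟩ := hcf2
  have n12 : ∀ y ∈ B1, ∀ z ∈ B2, y ≠ z := by
    rintro y hy z hz rfl
    exact Finset.disjoint_left.1 c.dj hy hz
  have s1 : Sg F b1 b2 gi := c.sg hb1 hb2 e1 e2
  have s2 : Sg F b1' b2' gk := c.sg hb1' hb2' e1' e2'
  have sd : Disjoint ({b1, b2, gi} : Finset V) {b1', b2', gk} :=
    disj_tri ⟨hbb1, n12 _ hb1 _ hb2', (nv hgk (c.r1 hb1)).symm⟩
      ⟨(n12 _ hb1' _ hb2).symm, hbb2.symm, (nv hgk (c.r2 hb2)).symm⟩
      ⟨nu hgi (c.r1 hb1'), nu hgi (c.r2 hb2'), hgik⟩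
  have hu1 : u ∉ ({b1, b2, gi} : Finset V) := by
    simp only [mem_insert, mem_singleton, not_or]
    exact ⟨nu huS (c.r1 hb1), nu huS (c.r2 hb2), hgiu.symm⟩
  have hu1' : u ∉ ({b1', b2', gk} : Finset V) := by
    simp only [mem_insert, mem_singleton, not_or]
    exact ⟨nu huS (c.r1 hb1'), nu huS (c.r2 hb2'), hgku.symm⟩
  have hv2 : v ∉ ({b1, b2, gi} : Finset V) := by
    simp only [mem_insert, mem_singleton, not_or]
    exact ⟨nv hvS (c.r1 hb1), nv hvS (c.r2 hb2), hgiv.symm⟩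
  have hv2' : v ∉ ({b1', b2', gk} : Finset V) := by
    simp only [mem_insert, mem_singleton, not_or]
    exact ⟨nv hvS (c.r1 hb1'), nv hvS (c.r2 hb2'), hgkv.symm⟩
  by_cases ht0 : T.card = 0
  · by_cases hβ5 : (rest R SS).card = 4
    · -- the last case
      have hT0 : T = ∅ := card_eq_zero.1 ht0
      have hGuv : Gp F B1 B2 u v := by
        obtain ⟨q, hq, hqu⟩ := mem_image.1 huM'
        have h1 : q.2 = v := by
          rcases hV2 q hq with h | ⟨S, hS, -⟩
          · exact h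
          · rw [hT0] at hS
            exact absurd hS (notMem_empty _)
        have h2 := hMG q hq
        rw [hqu, h1] at h2
        exact h2
      have hz0 : ∀ S ∈ SS, ∀ g ∈ S, ¬ Fu F B1 B2 g → ∀ p ∈ B1, ∀ l ∈ B2,
          ¬ F.Adj g p ∧ ¬ F.Adj g l := by
        intro S hS g hg hgf p hp l hl
        have h1 := c.count hD hp hl
        have h2 : (SS.filter (fun S => ∀ x ∈ S, F.Adj p x ∨ F.Adj l x)).card = 0 := by omega
        rw [card_eq_zero] at h2
        have h3 : ¬ ∀ x ∈ S, F.Adj p x ∨ F.Adj l x := by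
          intro h4
          have h5 : S ∈ SS.filter (fun S => ∀ x ∈ S, F.Adj p x ∨ F.Adj l x) :=
            mem_filter.2 ⟨hS, h4⟩
          rw [h2] at h5
          exact absurd h5 (notMem_empty _)
        push Not at h3
        obtain ⟨x, hx, hpx, hlx⟩ := h3
        have hxg : x = g := by
          by_contra hne
          rcases c.nf_one hS hg hx (fun e => hne e.symm) hgf with h4 | h4
          · exact hpx (h4 p hp).symm
          · exact hlx (h4 l hl).symm
        subst hxg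
        exact ⟨fun e => hpx e.symm, fun e => hlx e.symm⟩
      have hz1 : ∀ S ∈ SS, ∀ g ∈ S, ¬ Fu F B1 B2 g → ∀ y ∈ rest R SS, ¬ F.Adj g y := by
        intro S hS g hg hgf y hy
        rw [← c.un] at hy
        rcases mem_union.1 hy with hy | hy
        · exact (hz0 S hS g hg hgf y hy l0 hl0).1
        · exact (hz0 S hS g hg hgf p0 hp0 y hy).2
      exact c.zero hSu hSv hSS hgi hgk huS hvS hfi hfk hGuv
        (fun y hy => ⟨hz1 Su hSu gi hgi hfi y hy, hz1 Sv hSv gk hgk hfk y hy⟩)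
    · refine gam {b1, b2, gi} {b1', b2', gk} {b1, b2, b1', b2'} s1.isSg s2.isSg sd ?_ ?_ ?_ hu1
        hu1' hv2 hv2' ?_
      · exact tri_sub (mem_union_left _ (by simp)) (mem_union_left _ (by simp))
          (mem_union_right _ (mem_union_left _ hgi))
      · exact tri_sub (mem_union_left _ (by simp)) (mem_union_left _ (by simp))
          (mem_union_right _ (mem_union_right _ hgk))
      · intro x hx
        simp only [mem_insert, mem_singleton] at hx
        rcases hx with rfl | rfl | rfl | rfl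
        · exact c.r1 hb1
        · exact c.r2 hb2
        · exact c.r1 hb1'
        · exact c.r2 hb2'
      · have h3 : ({b1, b2, b1', b2'} : Finset V).card ≤ 4 := card_le_four
        omega
  -- the natural third
  obtain ⟨S, hS⟩ := card_pos.1 (show 0 < T.card by omega)
  have hSSu : S ≠ Su := by
    rintro rfl
    exact hSuT hS
  have hSSv : S ≠ Sv := by
    rintro rfl
    exact hSvT hS
  have hpaM : ∀ p ∈ M', p.1 ≠ pa S ∧ p.2 ≠ pa S := by
    intro p hp
    constructor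
    · rcases hV1 p hp with h1 | ⟨S', hS', h1, h2⟩
      · rw [h1]
        exact (hneS S (hTS hS) Su hSu hSSu _ (hpa S hS) _ huS).symm
      · by_cases hSS' : S' = S
        · rw [h2, hSS']
          exact (hax S hS).symm
        · exact hneS S' (hTS hS') S (hTS hS) hSS' _ h1 _ (hpa S hS)
    · rcases hV2 p hp with h1 | ⟨S', hS', h1, h2⟩
      · rw [h1]
        exact (hneS S (hTS hS) Sv hSv hSSv _ (hpa S hS) _ hvS).symm
      · by_cases hSS' : S' = S
        · rw [h2, hSS']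
          exact (hay S hS).symm
        · exact hneS S' (hTS hS') S (hTS hS) hSS' _ h1 _ (hpa S hS)
  obtain ⟨q, hq, hqs⟩ : ∃ q ∈ M', IsSg F {q.1, q.2, pa S} := by
    rcases hnat S hS with ⟨h1, h2⟩ | ⟨h1, h2⟩
    · have h3 : py S ∈ M'.image Prod.snd := by
        rw [hsnd]
        exact mem_insert_of_mem (mem_image.2 ⟨(px S, py S), mem_image_of_mem _ hS, rfl⟩)
      obtain ⟨q, hq, hqy⟩ := mem_image.1 h3
      rw [← hqy] at h2
      have h4 : Sg F (pa S) q.2 q.1 := ⟨h2, c.same2 h1 (hMG q hq).l,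
        fun e => (hMG q hq).n e.symm, (hpaM q hq).1.symm, (c.gp_ne (hMG q hq)).1.symm⟩
      refine ⟨q, hq, ?_⟩
      have h5 : ({q.1, q.2, pa S} : Finset V) = {pa S, q.2, q.1} := by
        ext z; simp only [mem_insert, mem_singleton]; tauto
      rw [h5]; exact h4.isSg
    · have h3 : px S ∈ M'.image Prod.fst := by
        rw [hfst]
        exact mem_insert_of_mem (mem_image.2 ⟨(px S, py S), mem_image_of_mem _ hS, rfl⟩)
      obtain ⟨q, hq, hqy⟩ := mem_image.1 h3
      rw [← hqy] at h2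
      have h4 : Sg F (pa S) q.1 q.2 := ⟨h2, c.same1 h1 (hMG q hq).r,
        (hMG q hq).n, (hpaM q hq).2.symm, (c.gp_ne (hMG q hq)).1⟩
      refine ⟨q, hq, ?_⟩
      have h5 : ({q.1, q.2, pa S} : Finset V) = {pa S, q.1, q.2} := by
        ext z; simp only [mem_insert, mem_singleton]; tauto
      rw [h5]; exact h4.isSg
  set N1 : Finset V := {b1, b2, gi} with hN1
  set N2 : Finset V := {b1', b2', gk} with hN2
  set N3 : Finset V := {q.1, q.2, pa S} with hN3
  have hN1s : N1 ⊆ ({b1, b2, b1', b2'} : Finset V) ∪ (Su ∪ Sv) :=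
    tri_sub (mem_union_left _ (by simp)) (mem_union_left _ (by simp))
      (mem_union_right _ (mem_union_left _ hgi))
  have hN2s : N2 ⊆ ({b1, b2, b1', b2'} : Finset V) ∪ (Su ∪ Sv) :=
    tri_sub (mem_union_left _ (by simp)) (mem_union_left _ (by simp))
      (mem_union_right _ (mem_union_right _ hgk))
  have hE : ({b1, b2, b1', b2'} : Finset V) ⊆ rest R SS := by
    intro x hx
    simp only [mem_insert, mem_singleton] at hx
    rcases hx with rfl | rfl | rfl | rfl
    · exact c.r1 hb1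
    · exact c.r2 hb2
    · exact c.r1 hb1'
    · exact c.r2 hb2'
  have hNs : N1 ∪ N2 ⊆ rest R SS ∪ (Su ∪ Sv) :=
    union_subset (hN1s.trans (union_subset_union hE (Subset.refl _)))
      (hN2s.trans (union_subset_union hE (Subset.refl _)))
  have huN : u ∉ N1 ∪ N2 := by
    rw [mem_union, not_or]; exact ⟨hu1, hu1'⟩
  have hvN : v ∉ N1 ∪ N2 := by
    rw [mem_union, not_or]; exact ⟨hv2, hv2'⟩
  have hXN := hX0 _ hNs huN hvN
  have hpaS : pa S ∈ S := hpa S hS
  have hpar : pa S ∉ rest R SS := fun h => c.ne (hTS hS) hpaS h rfl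
  have hpaN : pa S ∉ N1 ∪ N2 := by
    intro h
    rcases mem_union.1 (hNs h) with h1 | h1
    · exact hpar h1
    · rcases mem_union.1 h1 with h1 | h1
      · exact hneS S (hTS hS) Su hSu hSSu _ hpaS _ h1 rfl
      · exact hneS S (hTS hS) Sv hSv hSSv _ hpaS _ h1 rfl
  have hdis3 : Disjoint (N1 ∪ N2) N3 := by
    rw [Finset.disjoint_left]
    intro x hx hx'
    simp only [hN3, mem_insert, mem_singleton] at hx'
    rcases hx' with rfl | rfl | rfl
    · exact (hXN q hq).1 hx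
    · exact (hXN q hq).2 hx
    · exact hpaN hx
  obtain ⟨f1, f2⟩ := (fam_one s1.isSg (subset_union_left (s₂ := N2))).cons s2.isSg
      (subset_union_right (s₁ := N1)) (fun X hX => by
        rw [mem_singleton] at hX
        rw [hX]; exact sd)
  rw [card_singleton] at f2
  obtain ⟨f3, f4⟩ := f1.union_disj (fam_one hqs (Subset.refl _)) hdis3
  rw [f2, card_singleton] at f4
  have hDc : (rest R SS \ (N1 ∪ N2)).card + ((N1 ∪ N2) ∩ rest R SS).card =
      (rest R SS).card := by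
    rw [inter_comm]; exact card_sdiff_add_card_inter _ _
  have h5 := hXE (N1 ∪ N2) _ (union_subset hN1s hN2s)
  have h6 : ({b1, b2, b1', b2'} : Finset V).card ≤ 4 := card_le_four
  have h7 : (M'.erase q).card = M'.card - 1 := card_erase_of_mem hq
  refine c.assemble hTTs (M := M'.erase q) (fun p hp => hMG p (mem_of_mem_erase hp))
    (fun p hp p' hp' => hM'f p (mem_of_mem_erase hp) p' (mem_of_mem_erase hp'))
    (fun p hp p' hp' => hM's p (mem_of_mem_erase hp) p' (mem_of_mem_erase hp'))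
    (fun p hp => hMsTT p (mem_of_mem_erase hp)) (D := rest R SS \ (N1 ∪ N2)) sdiff_subset
    (by omega) (X := N1 ∪ N2 ∪ N3) ?_ f3 ?_ ?_ (by omega)
  · refine union_subset ?_ ?_
    · exact hNs.trans (union_subset_union (Subset.refl _) (union_subset hSuTT hSvTT))
    · exact tri_sub (mem_union_right _ (hMsTT q hq).1) (mem_union_right _ (hMsTT q hq).2)
        (mem_union_right _ (mem_biUnion.2 ⟨S, hTTT hS, hpaS⟩))
  · rw [Finset.disjoint_left]
    intro x hx hx'
    rw [mem_sdiff] at hx'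
    rcases mem_union.1 hx with h | h
    · exact hx'.2 h
    · simp only [hN3, mem_insert, mem_singleton] at h
      rcases h with rfl | rfl | rfl
      · exact (c.gp_ne (hMG q hq)).2.1 hx'.1
      · exact (c.gp_ne (hMG q hq)).2.2 hx'.1
      · exact hpar hx'.1
  · intro p hp
    rw [mem_erase] at hp
    have g1 := hXN p hp.2
    have g2 := hpaM p hp.2
    have g3 := hMG p hp.2
    have g4 := hMG q hq
    simp only [hN3, mem_union, mem_insert, mem_singleton, not_or] at g1 ⊢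
    refine ⟨⟨g1.1, ?_, ?_, g2.1⟩, ⟨g1.2, ?_, ?_, g2.2⟩⟩
    · exact fun e => hp.1 (hM'f p hp.2 q hq e)
    · intro e
      have := g3.l
      rw [e] at this
      exact c.notboth g4.r this
    · intro e
      have := g3.r
      rw [e] at this
      exact c.notboth this g4.l
    · exact fun e => hp.1 (hM's p hp.2 q hq e)

/-- a maximum family has no seagull in its rest -/
theorem Fam.rest_no {R : Finset V} {SS : Finset (Finset V)} (h : Fam F R SS)
    (hmax : ∀ SS', Fam F R SS' → SS'.card ≤ SS.card) :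
    ∀ a ∈ rest R SS, ∀ c ∈ rest R SS, ∀ b ∈ rest R SS, ¬ Sg F a c b := by
  intro a ha c hc b hb hsg
  obtain ⟨h1, h2⟩ := h.cons hsg.isSg
    (tri_sub (mem_rest.1 ha).1 (mem_rest.1 hc).1 (mem_rest.1 hb).1) (by
      intro S hS
      rw [Finset.disjoint_left]
      intro x hx hx'
      simp only [mem_insert, mem_singleton] at hx'
      rcases hx' with rfl | rfl | rfl
      · exact (mem_rest.1 ha).2 S hS hx
      · exact (mem_rest.1 hc).2 S hS hx
      · exact (mem_rest.1 hb).2 S hS hx)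
  have := hmax _ h1
  omega

/-- the rest is a star: another family -/
theorem star_aux (hF : TriFree F) {R : Finset V} {SS : Finset (Finset V)} (h : Fam F R SS)
    (hmax : ∀ SS', Fam F R SS' → SS'.card ≤ SS.card)
    (hD : ∀ x ∈ R, (R.filter (fun y => F.Adj x y)).card + 2 * (SS.card + 1) ≤ R.card)
    {p : V} {N : Finset V} (hp : p ∈ rest R SS) (hN : N ⊆ rest R SS) (hpN : ∀ y ∈ N, F.Adj p y)
    (hNc : N.card + 1 = (rest R SS).card) (hN3 : 3 ≤ N.card) :
    ∃ SS' B1 B2, SS'.card = SS.card ∧ Cx F R SS' B1 B2 := by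
  have hr := h.card_rest
  have hNi : ∀ y ∈ N, ∀ z ∈ N, ¬ F.Adj y z := fun y hy z hz e => hF p y z (hpN y hy) e (hpN z hz)
  -- a seagull without a neighbour of `p`
  obtain ⟨S, hS, hSp⟩ : ∃ S ∈ SS, ∀ x ∈ S, ¬ F.Adj p x := by
    by_contra hcon
    push Not at hcon
    have h1 := hD p (mem_rest.1 hp).1
    have h2 := h.card_filter (fun y => F.Adj p y)
    have h3 : N.card ≤ ((rest R SS).filter (fun y => F.Adj p y)).card :=
      card_le_card (fun y hy => mem_filter.2 ⟨hN hy, hpN y hy⟩)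
    have h4 : ∑ _S ∈ SS, 1 ≤ ∑ S ∈ SS, (S.filter (fun y => F.Adj p y)).card := by
      refine Finset.sum_le_sum (fun S hS => ?_)
      obtain ⟨x, hx, hpx⟩ := hcon S hS
      exact card_pos.2 ⟨x, mem_filter.2 ⟨hx, hpx⟩⟩
    rw [sum_const, smul_eq_mul, mul_one] at h4
    omega
  obtain ⟨a, c, b, hsg, hSe⟩ := h.sg S hS
  have haS : a ∈ S := by rw [hSe]; simp
  have hcS : c ∈ S := by rw [hSe]; simp
  have hbS : b ∈ S := by rw [hSe]; simp
  have hneR : ∀ {x y : V}, x ∈ S → y ∈ rest R SS → x ≠ y := by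
    rintro x y hx hy rfl
    exact (mem_rest.1 hy).2 S hS hx
  obtain ⟨l, hl⟩ := card_pos.1 (show 0 < N.card by omega)
  have main : ∀ a c : V, Sg F a c b → a ∈ S → c ∈ S → ¬ F.Adj a l →
      ∃ SS' B1 B2, SS'.card = SS.card ∧ Cx F R SS' B1 B2 := by
    intro a c hsg haS hcS hal
    have e1 : Sg F p l a := ⟨hpN l hl, hSp a haS, fun e => hal e.symm, (hneR haS hp).symm,
      (hneR haS (hN hl)).symm⟩
    have mB : ∀ {y : V}, y ∈ rest R SS → y ∈ rest R SS ∪ S := fun hy => mem_union_left _ hy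
    have mS : ∀ {y : V}, y ∈ S → y ∈ rest R SS ∪ S := fun hy => mem_union_right _ hy
    obtain ⟨SS', hf, hc', hr', -⟩ := h.swap hS e1.isSg (tri_sub (mB hp) (mB (hN hl)) (mS haS))
    have hmax' : ∀ SS'', Fam F R SS'' → SS''.card ≤ SS'.card := by
      intro SS'' h1
      rw [hc']; exact hmax _ h1
    have hbr : b ∈ rest R SS' := by
      rw [hr', mem_sdiff]
      refine ⟨mS hbS, ?_⟩
      simp only [mem_insert, mem_singleton, not_or]
      exact ⟨hneR hbS hp, hneR hbS (hN hl), hsg.nab.symm⟩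
    have hcr : c ∈ rest R SS' := by
      rw [hr', mem_sdiff]
      refine ⟨mS hcS, ?_⟩
      simp only [mem_insert, mem_singleton, not_or]
      exact ⟨hneR hcS hp, hneR hcS (hN hl), hsg.ac.ne.symm⟩
    have hNr : ∀ y ∈ N, y ≠ l → y ∈ rest R SS' := by
      intro y hy hyl
      rw [hr', mem_sdiff]
      refine ⟨mB (hN hy), ?_⟩
      simp only [mem_insert, mem_singleton, not_or]
      exact ⟨(hpN y hy).ne.symm, hyl, (hneR haS (hN hy)).symm⟩
    have hbc : ¬ F.Adj b c := fun e => hsg.cb e.symm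
    -- the first case
    have case1 : ∀ w w' l' : V, (w = b ∧ w' = c ∨ w = c ∧ w' = b) → l' ∈ N → l' ≠ l →
        F.Adj w l' → ∃ SS' B1 B2, SS'.card = SS.card ∧ Cx F R SS' B1 B2 := by
      intro w w' l' hw hl' hll hwl
      have hwr : w ∈ rest R SS' := by
        rcases hw with ⟨rfl, -⟩ | ⟨rfl, -⟩ <;> assumption
      have hwr' : w' ∈ rest R SS' := by
        rcases hw with ⟨-, rfl⟩ | ⟨-, rfl⟩ <;> assumption
      have hww : ¬ F.Adj w w' := by
        rcases hw with ⟨rfl, rfl⟩ | ⟨rfl, rfl⟩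
        · exact hbc
        · exact fun e => hbc e.symm
      have hwne : w ≠ w' := by
        rcases hw with ⟨rfl, rfl⟩ | ⟨rfl, rfl⟩
        · exact hsg.ncb.symm
        · exact hsg.ncb
      obtain ⟨T1, T2, hT, hTd, hT1, hT2, hTc⟩ := bip hF (hf.rest_no hmax') hwr (hNr l' hl' hll) hwl
      have hNT : ∀ y ∈ N, y ≠ l → y ∈ T2 := by
        intro y hy hyl
        have h1 := hNr y hy hyl
        rw [← hT] at h1
        rcases mem_union.1 h1 with h2 | h2
        · exact absurd (hTc y h2 l' hT2) (hNi y hy l' hl')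
        · exact h2
      have hw'T : w' ∈ T1 := by
        rw [← hT] at hwr'
        rcases mem_union.1 hwr' with h2 | h2
        · exact h2
        · exact absurd (hTc w hT1 w' h2) hww
      refine ⟨SS', T1, T2, hc', ⟨hF, hf, hmax', hT, hTd, ?_, ?_, hTc⟩⟩
      · have h1 : ({w, w'} : Finset V) ⊆ T1 := by
          intro z hz
          rw [mem_insert, mem_singleton] at hz
          rcases hz with rfl | rfl
          · exact hT1
          · exact hw'T
        have h2 := card_le_card h1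
        rw [card_pair hwne] at h2
        exact h2
      · have h1 : N.erase l ⊆ T2 := by
          intro z hz
          rw [mem_erase] at hz
          exact hNT z hz.2 hz.1
        have h2 := card_le_card h1
        rw [card_erase_of_mem hl] at h2
        omega
    by_cases hb' : ∃ l' ∈ N, l' ≠ l ∧ F.Adj b l'
    · obtain ⟨l', h1, h2, h3⟩ := hb'
      exact case1 b c l' (Or.inl ⟨rfl, rfl⟩) h1 h2 h3
    by_cases hc'' : ∃ l' ∈ N, l' ≠ l ∧ F.Adj c l'
    · obtain ⟨l', h1, h2, h3⟩ := hc''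
      exact case1 c b l' (Or.inr ⟨rfl, rfl⟩) h1 h2 h3
    -- the second case
    push Not at hb' hc''
    exfalso
    have hNe : (N.erase l).card = N.card - 1 := card_erase_of_mem hl
    obtain ⟨l', hl', l'', hl'', hll⟩ :=
      Finset.one_lt_card.1 (show 1 < (N.erase l).card by omega)
    rw [mem_erase] at hl' hl''
    have e2 : Sg F p l' b := ⟨hpN l' hl'.2, hSp b hbS, fun e => hb' l' hl'.2 hl'.1 e.symm,
      (hneR hbS hp).symm, (hneR hbS (hN hl'.2)).symm⟩
    have hal'' : F.Adj a l'' := by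
      by_contra hcon
      have e3 : Sg F a c l'' := ⟨hsg.ac, hcon, hc'' l'' hl''.2 hl''.1,
        hneR haS (hN hl''.2), hneR hcS (hN hl''.2)⟩
      exact h.two hmax hS e2.isSg e3.isSg
        (disj_tri ⟨(hneR haS hp).symm, (hneR hcS hp).symm, (hpN l'' hl''.2).ne⟩
          ⟨(hneR haS (hN hl'.2)).symm, (hneR hcS (hN hl'.2)).symm, hll⟩
          ⟨hsg.nab.symm, hsg.ncb.symm, hneR hbS (hN hl''.2)⟩)
        (tri_sub (mB hp) (mB (hN hl'.2)) (mS hbS)) (tri_sub (mS haS) (mS hcS) (mB (hN hl''.2)))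
    have e3 : Sg F a l'' l := ⟨hal'', hal, hNi l'' hl''.2 l hl, hneR haS (hN hl), hl''.1⟩
    exact h.two hmax hS e2.isSg e3.isSg
      (disj_tri ⟨(hneR haS hp).symm, (hpN l'' hl''.2).ne, (hpN l hl).ne⟩
        ⟨(hneR haS (hN hl'.2)).symm, hll, hl'.1⟩
        ⟨hsg.nab.symm, hneR hbS (hN hl''.2), hneR hbS (hN hl)⟩)
      (tri_sub (mB hp) (mB (hN hl'.2)) (mS hbS))
      (tri_sub (mS haS) (mB (hN hl''.2)) (mB (hN hl)))
  by_cases hal : F.Adj a l
  · exact main c a hsg.symm hcS haS (fun hcl => hF a c l hsg.ac hcl hal)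
  · exact main a c hsg haS hcS hal

/-- step 3 -/
theorem loose (hF : TriFree F) {R : Finset V} {SS : Finset (Finset V)} (h : Fam F R SS)
    (hmax : ∀ SS', Fam F R SS' → SS'.card ≤ SS.card) (hβ : 4 ≤ (rest R SS).card)
    (hD : ∀ x ∈ R, (R.filter (fun y => F.Adj x y)).card + 2 * (SS.card + 1) ≤ R.card)
    (hC : ∀ A B : Finset V, A ⊆ R → B ⊆ R → Disjoint A B → A.Nonempty → B.Nonempty →
      (∀ a ∈ A, ∀ b ∈ B, F.Adj a b) → A.card + B.card + (SS.card + 1) ≤ R.card)
    {x y : V} (hx : x ∈ rest R SS) (hy : y ∈ rest R SS) (hxy : F.Adj x y) : False := by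
  obtain ⟨SS', B1, B2, hc, hcx⟩ : ∃ SS' B1 B2, SS'.card = SS.card ∧ Cx F R SS' B1 B2 := by
    obtain ⟨B1, B2, hB, hd, hx1, hy2, hcp⟩ := bip hF (h.rest_no hmax) hx hy hxy
    have hcard : B1.card + B2.card = (rest R SS).card := by
      rw [← hB, card_union_of_disjoint hd]
    have h1 : 0 < B1.card := card_pos.2 ⟨x, hx1⟩
    have h2 : 0 < B2.card := card_pos.2 ⟨y, hy2⟩
    have hs1 : B1 ⊆ rest R SS := by rw [← hB]; exact subset_union_left
    have hs2 : B2 ⊆ rest R SS := by rw [← hB]; exact subset_union_right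
    by_cases c1 : B1.card = 1
    · obtain ⟨p, hp⟩ := card_eq_one.1 c1
      have hxp : x = p := by
        rw [hp, mem_singleton] at hx1
        exact hx1
      subst hxp
      exact star_aux hF h hmax hD hx hs2 (fun z hz => hcp x hx1 z hz) (by omega) (by omega)
    · by_cases c2 : B2.card = 1
      · obtain ⟨p, hp⟩ := card_eq_one.1 c2
        have hyp : y = p := by
          rw [hp, mem_singleton] at hy2
          exact hy2
        subst hyp
        exact star_aux hF h hmax hD hy hs1 (fun z hz => (hcp z hz y hy2).symm) (by omega)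
          (by omega)
      · exact ⟨SS, B1, B2, rfl, ⟨hF, h, hmax, hB, hd, by omega, by omega, hcp⟩⟩
  have hr := h.card_rest
  have hr' := hcx.fam.card_rest
  refine hcx.fin (by omega) ?_ ?_
  · rw [hc]; exact hD
  · rw [hc]; exact hC

end Pool.Agent.SG
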