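import Mathlib
import Pool.Agent.SG.Base

/-!
# SG, step 1: some maximum family has an edge in its rest
-/

set_option autoImplicit false

namespace Pool.Agent.SG

open Finset
open scoped Classical

variable {V : Type} {F : SimpleGraph V}

/-- the replacement of two seagulls by two other ones -/
theorem Fam.swap2 {R : Finset V} {SS : Finset (Finset V)} (h : Fam F R SS) {S T N1 N2 : Finset V}
    (hS : S ∈ SS) (hT : T ∈ SS) (hST : S ≠ T) (h1 : IsSg F N1) (h2 : IsSg F N2) (hd : Disjoint N1 N2)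
    (hs1 : N1 ⊆ rest R SS ∪ (S ∪ T)) (hs2 : N2 ⊆ rest R SS ∪ (S ∪ T)) :
    ∃ SS', Fam F R SS' ∧ SS'.card = SS.card ∧ rest R SS' = (rest R SS ∪ (S ∪ T)) \ (N1 ∪ N2) := by
  have hT' : ({S, T} : Finset (Finset V)) ⊆ SS := by
    intro X hX
    rw [mem_insert, mem_singleton] at hX
    rcases hX with rfl | rfl <;> assumption
  have hbu : ({S, T} : Finset (Finset V)).biUnion id = S ∪ T := by
    ext x; simp
  have hbn : (insert N2 ({N1} : Finset (Finset V))).biUnion id = N1 ∪ N2 := by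
    ext x; simp; tauto
  obtain ⟨h4, h4c⟩ := (fam_one h1 hs1).cons h2 hs2 (fun X hX => by
    rw [mem_singleton] at hX
    rw [hX]; exact hd)
  obtain ⟨h6, h7, h8⟩ := h.replace hT' (NN := insert N2 {N1}) (by rw [hbu]; exact h4)
  rw [hbu, hbn] at h8
  refine ⟨_, h6, ?_, h8⟩
  rw [card_singleton] at h4c
  rw [card_pair hST] at h7
  omega

/-- step 1 -/
theorem indep (hF : TriFree F) {R : Finset V} {SS : Finset (Finset V)} (h : Fam F R SS)
    (hB : 3 ≤ (rest R SS).card)
    (hI : ∀ I ⊆ R, (∀ x ∈ I, ∀ y ∈ I, ¬ F.Adj x y) → I.card < (rest R SS).card + SS.card)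
    (hno : ∀ SS', Fam F R SS' → SS'.card = SS.card → ∀ x ∈ rest R SS', ∀ y ∈ rest R SS', ¬ F.Adj x y) :
    False := by
  set B := rest R SS with hBdef
  have hBB : ∀ x ∈ B, ∀ y ∈ B, ¬ F.Adj x y := hno SS h rfl
  have pick : ∀ u v : V, ∃ y ∈ B, y ≠ u ∧ y ≠ v := by
    intro u v
    by_contra hcon
    push Not at hcon
    have hsub : B ⊆ {u, v} := by
      intro y hy
      rw [mem_insert, mem_singleton]
      by_cases hyu : y = u
      · exact Or.inl hyu
      · exact Or.inr (hcon y hy hyu)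
    have h1 := card_le_card hsub
    have h2 : ({u, v} : Finset V).card ≤ 2 := card_le_two
    omega
  -- one for one
  have X1 : ∀ S ∈ SS, ∀ u v w : V, Sg F u v w → u ∈ B ∪ S → v ∈ B ∪ S → w ∈ B ∪ S →
      ∀ x ∈ B ∪ S, ∀ y ∈ B ∪ S, x ≠ u → x ≠ v → x ≠ w → y ≠ u → y ≠ v → y ≠ w → ¬ F.Adj x y := by
    intro S hS u v w hsg hu hv hw x hx y hy h1 h2 h3 h4 h5 h6
    obtain ⟨SS', hf, hc, hr, -⟩ := h.swap hS hsg.isSg (tri_sub hu hv hw)
    apply hno SS' hf hc
    · rw [hr, mem_sdiff]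
      refine ⟨hx, ?_⟩
      simp only [mem_insert, mem_singleton, not_or]
      exact ⟨h1, h2, h3⟩
    · rw [hr, mem_sdiff]
      refine ⟨hy, ?_⟩
      simp only [mem_insert, mem_singleton, not_or]
      exact ⟨h4, h5, h6⟩
  -- the seagulls of the family
  have key : ∀ S ∈ SS, ∃ a c b, Sg F a c b ∧ S = {a, c, b} ∧ (∀ y ∈ B, ¬ F.Adj b y) ∧
      (∀ y ∈ B, ¬ F.Adj c y) := by
    intro S hS
    obtain ⟨a, c, b, hsg, hSe⟩ := h.sg S hS
    have haS : a ∈ S := by rw [hSe]; simp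
    have hcS : c ∈ S := by rw [hSe]; simp
    have hbS : b ∈ S := by rw [hSe]; simp
    have hneB : ∀ x ∈ S, ∀ y ∈ B, x ≠ y := by
      rintro x hx y hy rfl
      exact (mem_rest.1 hy).2 S hS hx
    have iB : ∀ y ∈ B, y ∈ B ∪ S := fun y hy => mem_union_left _ hy
    have iS : ∀ y ∈ S, y ∈ B ∪ S := fun y hy => mem_union_right _ hy
    -- (b1)
    have b1 : ∀ y ∈ B, ¬ F.Adj b y := by
      intro y hy hby
      have hfull : ∀ z ∈ B, F.Adj b z := by
        intro z hz
        by_contra hbz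
        have hyz : y ≠ z := by
          rintro rfl
          exact hbz hby
        exact X1 S hS b y z ⟨hby, hbz, hBB y hy z hz, hneB b hbS z hz, hyz⟩ (iS b hbS) (iB y hy)
          (iB z hz) a (iS a haS) c (iS c hcS) hsg.nab (hneB a haS y hy) (hneB a haS z hz)
          hsg.ncb (hneB c hcS y hy) (hneB c hcS z hz) hsg.ac
      -- the end of the argument for one choice of the end
      have fin : ∀ a c : V, Sg F a c b → a ∈ S → c ∈ S → ∀ y ∈ B, ¬ F.Adj a y → False := by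
        intro a c hsg haS hcS y hy hay
        have hc : ∀ z ∈ B, z ≠ y → ¬ F.Adj c z := by
          intro z hz hzy
          exact X1 S hS b y a ⟨hfull y hy, fun e => hsg.ab e.symm, fun e => hay e.symm, hsg.nab.symm,
            (hneB a haS y hy).symm⟩ (iS b hbS) (iB y hy) (iS a haS) c (iS c hcS) z (iB z hz)
            hsg.ncb (hneB c hcS y hy) hsg.ac.ne.symm (hneB b hbS z hz).symm hzy
            (hneB a haS z hz).symm
        obtain ⟨y', hy', hyy', -⟩ := pick y y
        have ha : ∀ z ∈ B, z ≠ y' → ¬ F.Adj a z := by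
          intro z hz hzy
          exact X1 S hS b y' c ⟨hfull y' hy', fun e => hsg.cb e.symm,
            fun e => hc y' hy' hyy' e.symm, hsg.ncb.symm,
            (hneB c hcS y' hy').symm⟩ (iS b hbS) (iB y' hy') (iS c hcS) a (iS a haS) z (iB z hz)
            hsg.nab (hneB a haS y' hy') hsg.ac.ne (hneB b hbS z hz).symm hzy
            (hneB c hcS z hz).symm
        obtain ⟨y'', hy'', h1, h2⟩ := pick y y'
        obtain ⟨w, hw, hwy, -⟩ := pick y'' y''
        exact X1 S hS a c y'' ⟨hsg.ac, ha y'' hy'' h2, hc y'' hy'' h1, hneB a haS y'' hy'',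
          hneB c hcS y'' hy''⟩ (iS a haS) (iS c hcS) (iB y'' hy'') b (iS b hbS) w (iB w hw)
          hsg.nab.symm hsg.ncb.symm (hneB b hbS y'' hy'') (hneB a haS w hw).symm
          (hneB c hcS w hw).symm hwy (hfull w hw)
      by_cases hay : F.Adj a y
      · have hcy : ¬ F.Adj c y := fun hcy => hF a c y hsg.ac hcy hay
        exact fin c a hsg.symm hcS haS y hy hcy
      · exact fin a c hsg haS hcS y hy hay
    -- (b2)
    by_cases hc : ∀ y ∈ B, ¬ F.Adj c y
    · exact ⟨a, c, b, hsg, hSe, b1, hc⟩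
    · by_cases ha : ∀ y ∈ B, ¬ F.Adj a y
      · refine ⟨c, a, b, hsg.symm, ?_, b1, ha⟩
        rw [hSe]
        ext x
        simp only [mem_insert, mem_singleton]
        tauto
      · exfalso
        push Not at ha hc
        obtain ⟨y, hy, hay⟩ := ha
        obtain ⟨z, hz, hcz⟩ := hc
        have hyz : z ≠ y := by
          rintro rfl
          exact hF a c z hsg.ac hcz hay
        exact X1 S hS a y b ⟨hay, hsg.ab, fun e => b1 y hy e.symm, hsg.nab, (hneB b hbS y hy).symm⟩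
          (iS a haS) (iB y hy) (iS b hbS) c (iS c hcS) z (iB z hz) hsg.ac.ne.symm (hneB c hcS y hy)
          hsg.ncb (hneB a haS z hz).symm hyz (hneB b hbS z hz).symm hcz
  obtain ⟨v0, -⟩ : B.Nonempty := by
    rw [← card_pos]; omega
  haveI : Nonempty V := ⟨v0⟩
  choose! a c b hsg hSe hb hc using key
  have haS : ∀ S ∈ SS, a S ∈ S := fun S hS => by
    have h1 : a S ∈ ({a S, c S, b S} : Finset V) := by simp
    rwa [← hSe S hS] at h1
  have hcS : ∀ S ∈ SS, c S ∈ S := fun S hS => by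
    have h1 : c S ∈ ({a S, c S, b S} : Finset V) := by simp
    rwa [← hSe S hS] at h1
  have hbS : ∀ S ∈ SS, b S ∈ S := fun S hS => by
    have h1 : b S ∈ ({a S, c S, b S} : Finset V) := by simp
    rwa [← hSe S hS] at h1
  have hneB : ∀ S ∈ SS, ∀ x ∈ S, ∀ y ∈ B, x ≠ y := by
    rintro S hS x hx y hy rfl
    exact (mem_rest.1 hy).2 S hS hx
  have hneS : ∀ S ∈ SS, ∀ T ∈ SS, S ≠ T → ∀ x ∈ S, ∀ y ∈ T, x ≠ y := by
    rintro S hS T hT hST x hx y hy rfl
    exact Finset.disjoint_left.1 (h.dis S hS T hT hST) hx hy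
  -- two for two
  have X2 : ∀ S ∈ SS, ∀ T ∈ SS, S ≠ T → ∀ u v w u' v' w' : V, Sg F u v w → Sg F u' v' w' →
      (u ≠ u' ∧ u ≠ v' ∧ u ≠ w') → (v ≠ u' ∧ v ≠ v' ∧ v ≠ w') → (w ≠ u' ∧ w ≠ v' ∧ w ≠ w') →
      (∀ x ∈ ({u, v, w, u', v', w'} : Finset V), x ∈ B ∪ (S ∪ T)) →
      ∀ x ∈ B ∪ (S ∪ T), ∀ y ∈ B ∪ (S ∪ T), x ∉ ({u, v, w, u', v', w'} : Finset V) →
      y ∉ ({u, v, w, u', v', w'} : Finset V) → ¬ F.Adj x y := by
    intro S hS T hT hST u v w u' v' w' h1 h2 d1 d2 d3 hmem x hx y hy hx' hy'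
    obtain ⟨SS', hf, hc', hr⟩ := h.swap2 hS hT hST h1.isSg h2.isSg (disj_tri d1 d2 d3)
      (tri_sub (hmem u (by simp)) (hmem v (by simp)) (hmem w (by simp)))
      (tri_sub (hmem u' (by simp)) (hmem v' (by simp)) (hmem w' (by simp)))
    have hun : ({u, v, w} : Finset V) ∪ {u', v', w'} = {u, v, w, u', v', w'} := by
      ext z; simp; tauto
    rw [hun] at hr
    apply hno SS' hf hc'
    · rw [hr, mem_sdiff]; exact ⟨hx, hx'⟩
    · rw [hr, mem_sdiff]; exact ⟨hy, hy'⟩
  -- the choice of one vertex in each seagull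
  let full : Finset V → Prop := fun S => ∀ y ∈ B, F.Adj (a S) y
  let x : Finset V → V := fun S => if full S then c S else b S
  have hxS : ∀ S ∈ SS, x S ∈ S := by
    intro S hS
    show (if full S then c S else b S) ∈ S
    split_ifs
    · exact hcS S hS
    · exact hbS S hS
  have hxB : ∀ S ∈ SS, ∀ y ∈ B, ¬ F.Adj (x S) y := by
    intro S hS y hy
    show ¬ F.Adj (if full S then c S else b S) y
    split_ifs
    · exact hc S hS y hy
    · exact hb S hS y hy
  have iB : ∀ S T : Finset V, ∀ y ∈ B, y ∈ B ∪ (S ∪ T) := fun S T y hy => mem_union_left _ hy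
  have iS : ∀ S T : Finset V, ∀ y ∈ S, y ∈ B ∪ (S ∪ T) := fun S T y hy =>
    mem_union_right _ (mem_union_left _ hy)
  have iT : ∀ S T : Finset V, ∀ y ∈ T, y ∈ B ∪ (S ∪ T) := fun S T y hy =>
    mem_union_right _ (mem_union_right _ hy)
  -- the three cases of the claim
  have cNN : ∀ S ∈ SS, ∀ T ∈ SS, S ≠ T → ¬ full S → ¬ F.Adj (b S) (b T) := by
    intro S hS T hT hST hnf hadj
    obtain ⟨w, hw, haw⟩ : ∃ w ∈ B, ¬ F.Adj (a S) w := by
      by_contra hcon
      push Not at hcon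
      exact hnf hcon
    obtain ⟨y, hy, hyw, -⟩ := pick w w
    have e1 : Sg F (a S) (c S) w := ⟨(hsg S hS).ac, haw, hc S hS w hw,
      hneB S hS _ (haS S hS) w hw, hneB S hS _ (hcS S hS) w hw⟩
    have e2 : Sg F (b S) (b T) y := ⟨hadj, hb S hS y hy, hb T hT y hy,
      hneB S hS _ (hbS S hS) y hy, hneB T hT _ (hbS T hT) y hy⟩
    have n1 := hneS S hS T hT hST
    have n2 := hneB S hS
    have n3 := hneB T hT
    refine X2 S hS T hT hST _ _ _ _ _ _ e1 e2
      ⟨(hsg S hS).nab, n1 _ (haS S hS) _ (hbS T hT), n2 _ (haS S hS) y hy⟩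
      ⟨(hsg S hS).ncb, n1 _ (hcS S hS) _ (hbS T hT), n2 _ (hcS S hS) y hy⟩
      ⟨(n2 _ (hbS S hS) w hw).symm, (n3 _ (hbS T hT) w hw).symm, hyw.symm⟩ ?_
      (a T) (iT S T _ (haS T hT)) (c T) (iT S T _ (hcS T hT)) ?_ ?_ (hsg T hT).ac
    · intro z hz
      simp only [mem_insert, mem_singleton] at hz
      rcases hz with rfl | rfl | rfl | rfl | rfl | rfl
      · exact iS S T _ (haS S hS)
      · exact iS S T _ (hcS S hS)
      · exact iB S T _ hw
      · exact iS S T _ (hbS S hS)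
      · exact iT S T _ (hbS T hT)
      · exact iB S T _ hy
    · simp only [mem_insert, mem_singleton, not_or]
      exact ⟨(n1 _ (haS S hS) _ (haS T hT)).symm, (n1 _ (hcS S hS) _ (haS T hT)).symm,
        n3 _ (haS T hT) w hw, (n1 _ (hbS S hS) _ (haS T hT)).symm, (hsg T hT).nab,
        n3 _ (haS T hT) y hy⟩
    · simp only [mem_insert, mem_singleton, not_or]
      exact ⟨(n1 _ (haS S hS) _ (hcS T hT)).symm, (n1 _ (hcS S hS) _ (hcS T hT)).symm,
        n3 _ (hcS T hT) w hw, (n1 _ (hbS S hS) _ (hcS T hT)).symm, (hsg T hT).ncb,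
        n3 _ (hcS T hT) y hy⟩
  have cFN : ∀ S ∈ SS, ∀ T ∈ SS, S ≠ T → full S → ¬ full T → ¬ F.Adj (c S) (b T) := by
    intro S hS T hT hST hf hnf hadj
    obtain ⟨w, hw, haw⟩ : ∃ w ∈ B, ¬ F.Adj (a T) w := by
      by_contra hcon
      push Not at hcon
      exact hnf hcon
    obtain ⟨y, hy, hyw, -⟩ := pick w w
    obtain ⟨y', hy', h1, h2⟩ := pick w y
    have e1 : Sg F (a T) (c T) w := ⟨(hsg T hT).ac, haw, hc T hT w hw,
      hneB T hT _ (haS T hT) w hw, hneB T hT _ (hcS T hT) w hw⟩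
    have e2 : Sg F (c S) (b T) y := ⟨hadj, hc S hS y hy, hb T hT y hy,
      hneB S hS _ (hcS S hS) y hy, hneB T hT _ (hbS T hT) y hy⟩
    have n1 := hneS S hS T hT hST
    have n2 := hneB S hS
    have n3 := hneB T hT
    refine X2 S hS T hT hST _ _ _ _ _ _ e1 e2
      ⟨(n1 _ (hcS S hS) _ (haS T hT)).symm, (hsg T hT).nab, n3 _ (haS T hT) y hy⟩
      ⟨(n1 _ (hcS S hS) _ (hcS T hT)).symm, (hsg T hT).ncb, n3 _ (hcS T hT) y hy⟩
      ⟨(n2 _ (hcS S hS) w hw).symm, (n3 _ (hbS T hT) w hw).symm, hyw.symm⟩ ?_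
      (a S) (iS S T _ (haS S hS)) y' (iB S T _ hy') ?_ ?_ (hf y' hy')
    · intro z hz
      simp only [mem_insert, mem_singleton] at hz
      rcases hz with rfl | rfl | rfl | rfl | rfl | rfl
      · exact iT S T _ (haS T hT)
      · exact iT S T _ (hcS T hT)
      · exact iB S T _ hw
      · exact iS S T _ (hcS S hS)
      · exact iT S T _ (hbS T hT)
      · exact iB S T _ hy
    · simp only [mem_insert, mem_singleton, not_or]
      exact ⟨n1 _ (haS S hS) _ (haS T hT), n1 _ (haS S hS) _ (hcS T hT),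
        n2 _ (haS S hS) w hw, (hsg S hS).ac.ne, n1 _ (haS S hS) _ (hbS T hT),
        n2 _ (haS S hS) y hy⟩
    · simp only [mem_insert, mem_singleton, not_or]
      exact ⟨(n3 _ (haS T hT) y' hy').symm, (n3 _ (hcS T hT) y' hy').symm, h1,
        (n2 _ (hcS S hS) y' hy').symm, (n3 _ (hbS T hT) y' hy').symm, h2⟩
  have cFF : ∀ S ∈ SS, ∀ T ∈ SS, S ≠ T → full S → full T → ¬ F.Adj (c S) (c T) := by
    intro S hS T hT hST hf hf' hadj
    obtain ⟨y, hy, -⟩ := pick (a S) (a S)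
    obtain ⟨w, hw, hwy, -⟩ := pick y y
    obtain ⟨y', hy', h1, h2⟩ := pick w y
    have e1 : Sg F (a S) w (b S) := ⟨hf w hw, (hsg S hS).ab, fun e => hb S hS w hw e.symm,
      (hsg S hS).nab, (hneB S hS _ (hbS S hS) w hw).symm⟩
    have e2 : Sg F (c S) (c T) y := ⟨hadj, hc S hS y hy, hc T hT y hy,
      hneB S hS _ (hcS S hS) y hy, hneB T hT _ (hcS T hT) y hy⟩
    have n1 := hneS S hS T hT hST
    have n2 := hneB S hS
    have n3 := hneB T hT
    refine X2 S hS T hT hST _ _ _ _ _ _ e1 e2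
      ⟨(hsg S hS).ac.ne, n1 _ (haS S hS) _ (hcS T hT), n2 _ (haS S hS) y hy⟩
      ⟨(n2 _ (hcS S hS) w hw).symm, (n3 _ (hcS T hT) w hw).symm, hwy⟩
      ⟨(hsg S hS).ncb.symm, n1 _ (hbS S hS) _ (hcS T hT), n2 _ (hbS S hS) y hy⟩ ?_
      (a T) (iT S T _ (haS T hT)) y' (iB S T _ hy') ?_ ?_ (hf' y' hy')
    · intro z hz
      simp only [mem_insert, mem_singleton] at hz
      rcases hz with rfl | rfl | rfl | rfl | rfl | rfl
      · exact iS S T _ (haS S hS)
      · exact iB S T _ hw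
      · exact iS S T _ (hbS S hS)
      · exact iS S T _ (hcS S hS)
      · exact iT S T _ (hcS T hT)
      · exact iB S T _ hy
    · simp only [mem_insert, mem_singleton, not_or]
      exact ⟨(n1 _ (haS S hS) _ (haS T hT)).symm, n3 _ (haS T hT) w hw,
        (n1 _ (hbS S hS) _ (haS T hT)).symm, (n1 _ (hcS S hS) _ (haS T hT)).symm,
        (hsg T hT).ac.ne, n3 _ (haS T hT) y hy⟩
    · simp only [mem_insert, mem_singleton, not_or]
      exact ⟨(n2 _ (haS S hS) y' hy').symm, h1, (n2 _ (hbS S hS) y' hy').symm,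
        (n2 _ (hcS S hS) y' hy').symm, (n3 _ (hcS T hT) y' hy').symm, h2⟩
  have hxx : ∀ S ∈ SS, ∀ T ∈ SS, S ≠ T → ¬ F.Adj (x S) (x T) := by
    intro S hS T hT hST
    show ¬ F.Adj (if full S then c S else b S) (if full T then c T else b T)
    by_cases h1 : full S <;> by_cases h2 : full T
    · rw [if_pos h1, if_pos h2]; exact cFF S hS T hT hST h1 h2
    · rw [if_pos h1, if_neg h2]; exact cFN S hS T hT hST h1 h2
    · rw [if_neg h1, if_pos h2]; exact fun e => cFN T hT S hS hST.symm h2 h1 e.symm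
    · rw [if_neg h1, if_neg h2]; exact cNN S hS T hT hST h1
  -- the independent set
  have hinj : Set.InjOn x (SS : Set (Finset V)) := by
    intro S hS T hT hxe
    by_contra hne
    exact hneS S hS T hT hne _ (hxS S hS) _ (hxS T hT) hxe
  have hd : Disjoint B (SS.image x) := by
    rw [Finset.disjoint_left]
    intro y hy hy'
    obtain ⟨S, hS, rfl⟩ := mem_image.1 hy'
    exact hneB S hS _ (hxS S hS) _ hy rfl
  have hIs := hI (B ∪ SS.image x) (by
    refine union_subset sdiff_subset ?_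
    intro y hy
    obtain ⟨S, hS, rfl⟩ := mem_image.1 hy
    exact h.sub S hS (hxS S hS)) (by
    intro y hy z hz
    rcases mem_union.1 hy with hy | hy <;> rcases mem_union.1 hz with hz | hz
    · exact hBB y hy z hz
    · obtain ⟨S, hS, rfl⟩ := mem_image.1 hz
      exact fun e => hxB S hS y hy e.symm
    · obtain ⟨S, hS, rfl⟩ := mem_image.1 hy
      exact hxB S hS z hz
    · obtain ⟨S, hS, rfl⟩ := mem_image.1 hy
      obtain ⟨T, hT, rfl⟩ := mem_image.1 hz
      by_cases hST : S = T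
      · rw [hST]; exact F.loopless.irrefl _
      · exact hxx S hS T hT hST)
  rw [card_union_of_disjoint hd, card_image_of_injOn hinj] at hIs
  omega

end Pool.Agent.SG
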