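import Mathlib
import Pool.Agent.SG.Indep

/-!
# SG: the seagull packing theorem from its cases
-/

set_option autoImplicit false

namespace Pool.Agent.SG

open Finset
open scoped Classical

/-- the statement of the tight case -/
def TightStmt : Prop := ∀ {V : Type} {F : SimpleGraph V} (_ : TriFree F) {R : Finset V}
    {SS : Finset (Finset V)} (_ : Fam F R SS) (_ : ∀ SS', Fam F R SS' → SS'.card ≤ SS.card)
    (_ : 2 ≤ SS.card) (_ : R.card = 3 * (SS.card + 1))
    (_ : ∀ x ∈ R, (R.filter (fun y => F.Adj x y)).card ≤ SS.card + 1) {x y : V}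
    (_ : x ∈ rest R SS) (_ : y ∈ rest R SS) (_ : F.Adj x y), False

/-- the statement of the loose case -/
def LooseStmt : Prop := ∀ {V : Type} {F : SimpleGraph V} (_ : TriFree F) {R : Finset V}
    {SS : Finset (Finset V)} (_ : Fam F R SS) (_ : ∀ SS', Fam F R SS' → SS'.card ≤ SS.card)
    (_ : 1 ≤ SS.card) (_ : 3 * (SS.card + 1) < R.card)
    (_ : ∀ x ∈ R, (R.filter (fun y => F.Adj x y)).card + 2 * (SS.card + 1) ≤ R.card)
    (_ : ∀ A B, A ⊆ R → B ⊆ R → Disjoint A B → A.Nonempty → B.Nonempty →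
      (∀ a ∈ A, ∀ b ∈ B, F.Adj a b) → A.card + B.card + (SS.card + 1) ≤ R.card) {x y : V}
    (_ : x ∈ rest R SS) (_ : y ∈ rest R SS) (_ : F.Adj x y), False

/-- the seagull packing theorem from its cases -/
theorem main_of (htight : TightStmt) (hloose : LooseStmt) {V : Type} {F : SimpleGraph V}
    (hF : TriFree F) {R : Finset V} : ∀ {s : ℕ} (_ : 1 ≤ s) (_ : 3 * s ≤ R.card)
    (_ : ∀ I, I ⊆ R → (∀ x ∈ I, ∀ y ∈ I, ¬ F.Adj x y) → I.card + 2 * s ≤ R.card + 1)
    (_ : ∀ x ∈ R, (R.filter (fun y => F.Adj x y)).card + 2 * s ≤ R.card)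
    (_ : ∀ A B, A ⊆ R → B ⊆ R → Disjoint A B → A.Nonempty → B.Nonempty →
      (∀ a ∈ A, ∀ b ∈ B, F.Adj a b) → A.card + B.card + s ≤ R.card)
    (_ : ¬ (s = 2 ∧ R.card = 6)), ∃ SS, Fam F R SS ∧ SS.card = s := by
  intro s
  induction s with
  | zero => intro h; omega
  | succ s ih =>
    intro _ hR hI hD hC hE
    rcases Nat.eq_zero_or_pos s with hs0 | hs
    · -- one seagull
      subst hs0
      by_cases hsg : ∃ a ∈ R, ∃ c ∈ R, ∃ b ∈ R, Sg F a c b
      · obtain ⟨a, ha, c, hc, b, hb, h⟩ := hsg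
        exact ⟨{{a, c, b}}, fam_one h.isSg (tri_sub ha hc hb), card_singleton _⟩
      · exfalso
        push Not at hsg
        by_cases hed : ∃ x ∈ R, ∃ y ∈ R, F.Adj x y
        · obtain ⟨x, hx, y, hy, hxy⟩ := hed
          obtain ⟨B1, B2, h1, h2, h3, h4, h5⟩ := bip hF hsg hx hy hxy
          have h6 := hC B1 B2 (h1 ▸ subset_union_left) (h1 ▸ subset_union_right) h2 ⟨x, h3⟩ ⟨y, h4⟩ h5
          rw [← h1, card_union_of_disjoint h2] at h6
          omega
        · push Not at hed
          have := hI R (Subset.refl _) hed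
          omega
    · by_contra hcon
      obtain ⟨SS0, h0, hc0⟩ := ih hs (by omega)
        (fun I h1 h2 => by have := hI I h1 h2; omega)
        (fun x hx => by have := hD x hx; omega)
        (fun A B h1 h2 h3 h4 h5 h6 => by have := hC A B h1 h2 h3 h4 h5 h6; omega)
        (by omega)
      have hmax : ∀ SS', Fam F R SS' → SS'.card ≤ s := by
        intro SS' h'
        by_contra hlt
        obtain ⟨TT, hT, hTc⟩ := exists_subset_card_eq (s := SS') (n := s + 1) (by omega)
        exact hcon ⟨TT, h'.subset hT, hTc⟩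
      have hr0 := h0.card_rest
      have hex : ∃ SS, Fam F R SS ∧ SS.card = s ∧ ∃ x ∈ rest R SS, ∃ y ∈ rest R SS, F.Adj x y := by
        by_contra hno
        push Not at hno
        refine indep hF h0 (by omega) (fun I hI1 hI2 => ?_) (fun SS' h' hc' => hno SS' h' (by omega))
        have := hI I hI1 hI2
        omega
      obtain ⟨SS, h, hc, x, hx, y, hy, hxy⟩ := hex
      have hr := h.card_rest
      rcases Nat.lt_or_ge (3 * (s + 1)) R.card with h1 | h1
      · exact hloose hF h (fun SS' h' => by rw [hc]; exact hmax SS' h') (by omega) (by omega)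
          (fun x hx => by rw [hc]; exact hD x hx)
          (fun A B h1 h2 h3 h4 h5 h6 => by rw [hc]; exact hC A B h1 h2 h3 h4 h5 h6) hx hy hxy
      · have hs2 : 2 ≤ s := by
          by_contra hlt
          exact hE ⟨by omega, by omega⟩
        exact htight hF h (fun SS' h' => by rw [hc]; exact hmax SS' h') (by omega) (by omega)
          (fun x hx => by have := hD x hx; omega) hx hy hxy

end Pool.Agent.SG
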