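import Mathlib
import Pool.Agent.SG.MainOf
import Pool.Agent.SG.Loose

/-!
# SG: the seagull packing theorem from its tight case
-/

set_option autoImplicit false

namespace Pool.Agent.SG

open Finset
open scoped Classical

theorem looseStmt : LooseStmt := by
  intro V F hF R SS h hmax _ hR hD hC x y hx hy hxy
  have := h.card_rest
  exact loose hF h hmax (by omega) hD hC hx hy hxy

end Pool.Agent.SG
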