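import Mathlib
import Pool.Agent.SG.Base

/-!
# Packing seagulls: the certificates of the two tight cases

`c5`: the rest and a seagull form a pentagon and an isolated vertex; `k32`: they form `K(3,2)` with a
pendant vertex. In both cases there are three disjoint seagulls together with another seagull.
-/

set_option autoImplicit false

namespace Pool.Agent.SG

open Finset
open scoped Classical

variable {V : Type} {F : SimpleGraph V}

/-- `Fam.nine` with the adjacencies spelled out -/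
theorem Fam.nine3 {R : Finset V} {SS : Finset (Finset V)} (h : Fam F R SS)
    (hmax : ∀ SS', Fam F R SS' → SS'.card ≤ SS.card) {S T : Finset V}
    (hS : S ∈ SS) (hT : T ∈ SS) (v : Fin 9 → V) (hv : Function.Injective v)
    (hmem : ∀ i, v i ∈ rest R SS ∪ (S ∪ T)) (e : Fin 9 → Fin 9) (he : Function.Injective e)
    (h1 : F.Adj (v (e 0)) (v (e 1))) (h2 : ¬ F.Adj (v (e 0)) (v (e 2)))
    (h3 : ¬ F.Adj (v (e 1)) (v (e 2)))
    (h4 : F.Adj (v (e 3)) (v (e 4))) (h5 : ¬ F.Adj (v (e 3)) (v (e 5)))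
    (h6 : ¬ F.Adj (v (e 4)) (v (e 5)))
    (h7 : F.Adj (v (e 6)) (v (e 7))) (h8 : ¬ F.Adj (v (e 6)) (v (e 8)))
    (h9 : ¬ F.Adj (v (e 7)) (v (e 8))) : False := by
  have hne : ∀ i j : Fin 9, i ≠ j → v (e i) ≠ v (e j) := fun i j hij h' => hij (he (hv h'))
  exact h.nine hmax hS hT v hv hmem e he
    ⟨h1, h2, h3, hne _ _ (by decide), hne _ _ (by decide)⟩
    ⟨h4, h5, h6, hne _ _ (by decide), hne _ _ (by decide)⟩
    ⟨h7, h8, h9, hne _ _ (by decide), hne _ _ (by decide)⟩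

/-- there are no three disjoint seagulls among the nine vertices `z 0, …, z 8` -/
def No3 (F : SimpleGraph V) (z : Fin 9 → V) : Prop :=
  ∀ e : Fin 9 → Fin 9, Function.Injective e →
    F.Adj (z (e 0)) (z (e 1)) → ¬ F.Adj (z (e 0)) (z (e 2)) → ¬ F.Adj (z (e 1)) (z (e 2)) →
    F.Adj (z (e 3)) (z (e 4)) → ¬ F.Adj (z (e 3)) (z (e 5)) → ¬ F.Adj (z (e 4)) (z (e 5)) →
    F.Adj (z (e 6)) (z (e 7)) → ¬ F.Adj (z (e 6)) (z (e 8)) → ¬ F.Adj (z (e 7)) (z (e 8)) → False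

theorem No3.comp {z : Fin 9 → V} (no : No3 F z) (σ : Fin 9 → Fin 9) (hσ : Function.Injective σ) :
    No3 F (z ∘ σ) := fun e he => no (σ ∘ e) (hσ.comp he)

theorem Fam.no3 {R : Finset V} {SS : Finset (Finset V)} (h : Fam F R SS)
    (hmax : ∀ SS', Fam F R SS' → SS'.card ≤ SS.card) {S T : Finset V}
    (hS : S ∈ SS) (hT : T ∈ SS) {v : Fin 9 → V} (hv : Function.Injective v)
    (hmem : ∀ i, v i ∈ rest R SS ∪ (S ∪ T)) : No3 F v :=
  fun e he => h.nine3 hmax hS hT v hv hmem e he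

/-- the data of the case `K(3,2)`: `{p, a, b}` is joined to `{l, m}` and `c` to `a` only -/
theorem k32A (hF : TriFree F) {p l m a c b x y z : V}
    (no : No3 F ![p, l, m, a, c, b, x, y, z])
    (pl : F.Adj p l) (pm : F.Adj p m) (al : F.Adj a l) (am : F.Adj a m)
    (bm : F.Adj b m) (ac : F.Adj a c) (cm : ¬ F.Adj c m) (cp : ¬ F.Adj c p)
    (cb : ¬ F.Adj c b) (ab : ¬ F.Adj a b)
    (xy : F.Adj x y) (xz : ¬ F.Adj x z) (yz : ¬ F.Adj y z)
    (xl : ¬ F.Adj x l) (xa : ¬ F.Adj x a) (yl : ¬ F.Adj y l) (ya : ¬ F.Adj y a) : False := by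
  have s : ∀ {u w : V}, ¬ F.Adj u w → ¬ F.Adj w u := fun h h' => h h'.symm
  -- p has the same neighbours
  have px : F.Adj p x → F.Adj p z := by
    intro h1; by_contra h2
    exact no ![1, 3, 7, 2, 5, 4, 0, 6, 8] (by decide) al.symm (s yl) (s ya) bm.symm (s cm) (s cb) h1 h2 xz
  have py : F.Adj p y → F.Adj p z := by
    intro h1; by_contra h2
    exact no ![1, 3, 6, 2, 5, 4, 0, 7, 8] (by decide) al.symm (s xl) (s xa) bm.symm (s cm) (s cb) h1 h2 yz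
  have pz : F.Adj p z → F.Adj p x ∧ F.Adj p y := by
    intro h1
    constructor
    · by_contra h2
      exact no ![1, 3, 7, 2, 5, 4, 0, 8, 6] (by decide) al.symm (s yl) (s ya) bm.symm (s cm) (s cb) h1 h2 (s xz)
    · by_contra h2
      exact no ![1, 3, 6, 2, 5, 4, 0, 8, 7] (by decide) al.symm (s xl) (s xa) bm.symm (s cm) (s cb) h1 h2 (s yz)
  have pz' : ¬ F.Adj p z := fun h1 => hF p x y (pz h1).1 xy (pz h1).2
  have px' : ¬ F.Adj p x := fun h1 => pz' (px h1)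
  have py' : ¬ F.Adj p y := fun h1 => pz' (py h1)
  have bx : F.Adj b x → F.Adj b z := by
    intro h1; by_contra h2
    exact no ![1, 3, 7, 2, 0, 4, 5, 6, 8] (by decide) al.symm (s yl) (s ya) pm.symm (s cm) (s cp) h1 h2 xz
  have by0 : F.Adj b y → F.Adj b z := by
    intro h1; by_contra h2
    exact no ![1, 3, 6, 2, 0, 4, 5, 7, 8] (by decide) al.symm (s xl) (s xa) pm.symm (s cm) (s cp) h1 h2 yz
  have bz : F.Adj b z → F.Adj b x ∧ F.Adj b y := by
    intro h1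
    constructor
    · by_contra h2
      exact no ![1, 3, 7, 2, 0, 4, 5, 8, 6] (by decide) al.symm (s yl) (s ya) pm.symm (s cm) (s cp) h1 h2 (s xz)
    · by_contra h2
      exact no ![1, 3, 6, 2, 0, 4, 5, 8, 7] (by decide) al.symm (s xl) (s xa) pm.symm (s cm) (s cp) h1 h2 (s yz)
  have bz' : ¬ F.Adj b z := fun h1 => hF b x y (bz h1).1 xy (bz h1).2
  have bx' : ¬ F.Adj b x := fun h1 => bz' (bx h1)
  have by' : ¬ F.Adj b y := fun h1 => bz' (by0 h1)
  by_cases zm : F.Adj z m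
  · have za : ¬ F.Adj a z := fun h1 => hF a z m h1 zm am
    by_cases ym : F.Adj y m
    · have xm : ¬ F.Adj x m := fun h1 => hF x y m xy ym h1
      by_cases cz : F.Adj c z
      · exact no ![2, 5, 6, 1, 3, 7, 4, 8, 0] (by decide) bm.symm (s xm) bx' al.symm (s yl) (s ya) cz cp (s pz')
      · exact no ![2, 5, 6, 1, 0, 7, 3, 4, 8] (by decide) bm.symm (s xm) bx' pl.symm (s yl) py' ac za cz
    · by_cases cz : F.Adj c z
      · exact no ![2, 5, 7, 1, 3, 6, 4, 8, 0] (by decide) bm.symm (s ym) by' al.symm (s xl) (s xa) cz cp (s pz')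
      · exact no ![2, 5, 7, 1, 0, 6, 3, 4, 8] (by decide) bm.symm (s ym) by' pl.symm (s xl) px' ac za cz
  · exact no ![6, 7, 1, 3, 4, 5, 2, 0, 8] (by decide) xy xl yl ac ab cb pm.symm (s zm) pz'

theorem k32B (hF : TriFree F) {p l m a c b x y z : V}
    (no : No3 F ![p, l, m, a, c, b, x, y, z])
    (pl : F.Adj p l) (pm : F.Adj p m) (al : F.Adj a l) (am : F.Adj a m) (bl : F.Adj b l)
    (bm : F.Adj b m) (ac : F.Adj a c) (cl : ¬ F.Adj c l) (cm : ¬ F.Adj c m) (cp : ¬ F.Adj c p)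
    (cb : ¬ F.Adj c b) (ab : ¬ F.Adj a b) (ap : ¬ F.Adj a p) (bp : ¬ F.Adj b p)
    (xz : F.Adj x z) (xy : ¬ F.Adj x y) (yz : ¬ F.Adj y z)
    (xl : ¬ F.Adj x l) (xa : ¬ F.Adj x a) (yl : ¬ F.Adj y l) (ya : ¬ F.Adj y a) : False := by
  have s : ∀ {u w : V}, ¬ F.Adj u w → ¬ F.Adj w u := fun h h' => h h'.symm
  -- the types
  have tp : (F.Adj p z ∧ F.Adj p y ∧ ¬ F.Adj p x) ∨ (F.Adj p x ∧ ¬ F.Adj p z ∧ ¬ F.Adj p y) := by
    have h1 : F.Adj p y → F.Adj p z := by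
      intro h1; by_contra h2
      exact no ![1, 3, 6, 2, 5, 4, 0, 7, 8] (by decide) al.symm (s xl) (s xa) bm.symm (s cm) (s cb) h1 h2 yz
    have h2 : F.Adj p z → F.Adj p y := by
      intro h1; by_contra h2
      exact no ![1, 3, 6, 2, 5, 4, 0, 8, 7] (by decide) al.symm (s xl) (s xa) bm.symm (s cm) (s cb) h1 h2 (s yz)
    have h3 : F.Adj p x ∨ F.Adj p z := by
      by_contra h3
      push Not at h3
      exact no ![1, 3, 7, 2, 5, 4, 6, 8, 0] (by decide) al.symm (s yl) (s ya) bm.symm (s cm) (s cb) xz (s h3.1) (s h3.2)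
    have h4 : F.Adj p x → ¬ F.Adj p z := fun h4 => hF p x z h4 xz
    tauto
  have tb : (F.Adj b z ∧ F.Adj b y ∧ ¬ F.Adj b x) ∨ (F.Adj b x ∧ ¬ F.Adj b z ∧ ¬ F.Adj b y) := by
    have h1 : F.Adj b y → F.Adj b z := by
      intro h1; by_contra h2
      exact no ![1, 3, 6, 2, 0, 4, 5, 7, 8] (by decide) al.symm (s xl) (s xa) pm.symm (s cm) (s cp) h1 h2 yz
    have h2 : F.Adj b z → F.Adj b y := by
      intro h1; by_contra h2
      exact no ![1, 3, 6, 2, 0, 4, 5, 8, 7] (by decide) al.symm (s xl) (s xa) pm.symm (s cm) (s cp) h1 h2 (s yz)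
    have h3 : F.Adj b x ∨ F.Adj b z := by
      by_contra h3
      push Not at h3
      exact no ![1, 3, 7, 2, 0, 4, 6, 8, 5] (by decide) al.symm (s yl) (s ya) pm.symm (s cm) (s cp) xz (s h3.1) (s h3.2)
    have h4 : F.Adj b x → ¬ F.Adj b z := fun h4 => hF b x z h4 xz
    tauto
  rcases tp with ⟨pz, py, px⟩ | ⟨px, pz, py⟩ <;> rcases tb with ⟨bz, by', bx⟩ | ⟨bx, bz, by'⟩
  · -- I, I
    have ym : ¬ F.Adj m y := hF m p y pm.symm py
    have zm : ¬ F.Adj z m := hF z p m pz.symm pm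
    by_cases cz : F.Adj c z
    · exact no ![4, 8, 2, 5, 7, 3, 1, 0, 6] (by decide) cz cm zm by' (s ab) ya pl.symm (s xl) px
    · exact no ![3, 2, 7, 1, 0, 6, 5, 8, 4] (by decide) am (s ya) ym pl.symm (s xl) px bz (s cb) (s cz)
  · -- p I, b II
    have zm : ¬ F.Adj m z := hF m p z pm.symm pz
    have xm : ¬ F.Adj m x := hF m b x bm.symm bx
    by_cases yc : F.Adj c y
    · by_cases az : F.Adj a z
      · exact no ![4, 7, 1, 2, 0, 6, 3, 8, 5] (by decide) yc cl yl pm.symm xm px az ab (s bz)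
      · exact no ![4, 7, 1, 3, 2, 8, 5, 6, 0] (by decide) yc cl yl am az zm bx bp (s px)
    · exact no ![2, 5, 8, 1, 0, 6, 3, 4, 7] (by decide) bm.symm zm bz pl.symm (s xl) px ac (s ya) yc
  · -- p II, b I
    have zm : ¬ F.Adj m z := hF m b z bm.symm bz
    have xm : ¬ F.Adj m x := hF m p x pm.symm px
    by_cases yc : F.Adj c y
    · by_cases az : F.Adj a z
      · exact no ![4, 7, 1, 2, 5, 6, 3, 8, 0] (by decide) yc cl yl bm.symm xm bx az ap (s pz)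
      · exact no ![4, 7, 1, 3, 2, 8, 0, 6, 5] (by decide) yc cl yl am az zm px (s bp) (s bx)
    · exact no ![2, 0, 8, 1, 5, 6, 3, 4, 7] (by decide) pm.symm zm pz bl.symm (s xl) bx ac (s ya) yc
  · -- II, II
    have xm : ¬ F.Adj m x := hF m p x pm.symm px
    by_cases zm : F.Adj z m
    · by_cases zl : F.Adj z l
      · by_cases cz : F.Adj c z
        · exact no ![3, 2, 6, 5, 1, 7, 4, 8, 0] (by decide) am (s xa) xm bl by' (s yl) cz cp (s pz)
        · exact no ![5, 6, 3, 1, 0, 7, 2, 8, 4] (by decide) bx (s ab) xa pl.symm (s yl) py zm.symm (s cm) (s cz)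
      · by_cases ym : F.Adj y m
        · exact no ![3, 4, 5, 1, 0, 8, 2, 7, 6] (by decide) ac ab cb pl.symm (s zl) pz ym.symm xm (s xy)
        · exact no ![3, 4, 5, 2, 0, 7, 6, 8, 1] (by decide) ac ab cb pm.symm (s ym) py xz xl zl
    · exact no ![3, 4, 5, 1, 0, 7, 6, 8, 2] (by decide) ac ab cb pl.symm (s yl) py xz (s xm) zm

/-- nine distinct vertices -/
theorem nine_inj {R : Finset V} {SS : Finset (Finset V)} (h : Fam F R SS) {S T : Finset V}
    (hS : S ∈ SS) (hT : T ∈ SS) (hST : S ≠ T) {p l m a c b x y z : V}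
    (hp : p ∈ rest R SS) (hl : l ∈ rest R SS) (hm : m ∈ rest R SS)
    (ha : a ∈ S) (hc : c ∈ S) (hb : b ∈ S) (hx : x ∈ T) (hy : y ∈ T) (hz : z ∈ T)
    (hpl : p ≠ l) (hpm : p ≠ m) (hlm : l ≠ m) (hac : a ≠ c) (hab : a ≠ b) (hcb : c ≠ b)
    (hxy : x ≠ y) (hxz : x ≠ z) (hyz : y ≠ z) :
    Function.Injective ![p, l, m, a, c, b, x, y, z] ∧
      ∀ i, ![p, l, m, a, c, b, x, y, z] i ∈ rest R SS ∪ (S ∪ T) := by
  have h1 : ∀ u ∈ rest R SS, ∀ w ∈ S, u ≠ w := by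
    rintro u hu w hw rfl
    exact (mem_rest.1 hu).2 S hS hw
  have h2 : ∀ u ∈ rest R SS, ∀ w ∈ T, u ≠ w := by
    rintro u hu w hw rfl
    exact (mem_rest.1 hu).2 T hT hw
  have h3 : ∀ u ∈ S, ∀ w ∈ T, u ≠ w := by
    rintro u hu w hw rfl
    exact Finset.disjoint_left.1 (h.dis S hS T hT hST) hu hw
  have e1 := h1 p hp a ha
  have e2 := h1 p hp c hc
  have e3 := h1 p hp b hb
  have e4 := h1 l hl a ha
  have e5 := h1 l hl c hc
  have e6 := h1 l hl b hb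
  have e7 := h1 m hm a ha
  have e8 := h1 m hm c hc
  have e9 := h1 m hm b hb
  have f1 := h2 p hp x hx
  have f2 := h2 p hp y hy
  have f3 := h2 p hp z hz
  have f4 := h2 l hl x hx
  have f5 := h2 l hl y hy
  have f6 := h2 l hl z hz
  have f7 := h2 m hm x hx
  have f8 := h2 m hm y hy
  have f9 := h2 m hm z hz
  have g1 := h3 a ha x hx
  have g2 := h3 a ha y hy
  have g3 := h3 a ha z hz
  have g4 := h3 c hc x hx
  have g5 := h3 c hc y hy
  have g6 := h3 c hc z hz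
  have g7 := h3 b hb x hx
  have g8 := h3 b hb y hy
  have g9 := h3 b hb z hz
  constructor
  · rw [← List.nodup_ofFn]
    simp [List.ofFn_succ, *]
  · intro i
    fin_cases i <;> simp [*]

/-- the second tight case -/
theorem k32 (hF : TriFree F) {R : Finset V} {SS : Finset (Finset V)} (h : Fam F R SS)
    (hmax : ∀ SS', Fam F R SS' → SS'.card ≤ SS.card) {S T : Finset V} (hS : S ∈ SS) (hT : T ∈ SS)
    (hST : S ≠ T) {a c b a' c' b' p l m : V} (hSe : S = {a, c, b}) (hTe : T = {a', c', b'})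
    (h1 : Sg F a c b) (h2 : Sg F a' c' b')
    (hp : p ∈ rest R SS) (hl : l ∈ rest R SS) (hm : m ∈ rest R SS) (hlm : l ≠ m)
    (hpl : F.Adj p l) (hpm : F.Adj p m)
    (hal : F.Adj a l) (hbl : F.Adj b l) (ham : F.Adj a m) (hbm : F.Adj b m) (hcl : ¬ F.Adj c l)
    (hcm : ¬ F.Adj c m) (hap : ¬ F.Adj a p) (hbp : ¬ F.Adj b p) (hcp : ¬ F.Adj c p)
    (hsmall : (T.filter (F.Adj l)).card + (T.filter (F.Adj a)).card ≤ 1) : False := by
  have haS : a ∈ S := by rw [hSe]; simp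
  have hcS : c ∈ S := by rw [hSe]; simp
  have hbS : b ∈ S := by rw [hSe]; simp
  have haT : a' ∈ T := by rw [hTe]; simp
  have hcT : c' ∈ T := by rw [hTe]; simp
  have hbT : b' ∈ T := by rw [hTe]; simp
  have s : ∀ {u w : V}, ¬ F.Adj u w → ¬ F.Adj w u := fun h h' => h h'.symm
  -- at most one vertex of `T` is joined to `l` or `a`
  have one : ∀ u ∈ T, ∀ w ∈ T, u ≠ w → (F.Adj u l ∨ F.Adj u a) → ¬ (F.Adj w l ∨ F.Adj w a) := by
    intro u hu w hw huw h1 h2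
    have k2 : ∀ t : V, F.Adj u t → F.Adj w t → 2 ≤ (T.filter (F.Adj t)).card := fun t h1 h2 =>
      Finset.one_lt_card.2 ⟨u, mem_filter.2 ⟨hu, h1.symm⟩, w, mem_filter.2 ⟨hw, h2.symm⟩, huw⟩
    have k1 : ∀ t : V, ∀ q ∈ T, F.Adj q t → 1 ≤ (T.filter (F.Adj t)).card := fun t q hq h1 =>
      Finset.card_pos.2 ⟨q, mem_filter.2 ⟨hq, h1.symm⟩⟩
    rcases h1 with h1 | h1 <;> rcases h2 with h2 | h2
    · have := k2 l h1 h2; omega
    · have := k1 l u hu h1; have := k1 a w hw h2; omega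
    · have := k1 a u hu h1; have := k1 l w hw h2; omega
    · have := k2 a h1 h2; omega
  have no : ∀ x y z : V, x ∈ T → y ∈ T → z ∈ T → x ≠ y → x ≠ z → y ≠ z →
      No3 F ![p, l, m, a, c, b, x, y, z] := by
    intro x y z hx hy hz hxy hxz hyz
    obtain ⟨k1, k2⟩ := nine_inj h hS hT hST hp hl hm haS hcS hbS hx hy hz hpl.ne hpm.ne hlm h1.ac.ne
      h1.nab h1.ncb hxy hxz hyz
    exact h.no3 hmax hS hT k1 k2
  by_cases ka : F.Adj a' l ∨ F.Adj a' a
  · have kc := one a' haT c' hcT h2.ac.ne ka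
    have kb := one a' haT b' hbT h2.nab ka
    push Not at kc kb
    exact k32B hF (no c' b' a' hcT hbT haT h2.ncb h2.ac.ne.symm h2.nab.symm) hpl hpm hal ham hbl hbm h1.ac
      hcl hcm hcp h1.cb h1.ab hap hbp h2.ac.symm h2.cb (s h2.ab) kc.1 kc.2 kb.1 kb.2
  · push Not at ka
    by_cases kc : F.Adj c' l ∨ F.Adj c' a
    · have kb := one c' hcT b' hbT h2.ncb kc
      push Not at kb
      exact k32B hF (no a' b' c' haT hbT hcT h2.nab h2.ac.ne h2.ncb.symm) hpl hpm hal ham hbl hbm h1.ac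
        hcl hcm hcp h1.cb h1.ab hap hbp h2.ac h2.ab (s h2.cb) ka.1 ka.2 kb.1 kb.2
    · push Not at kc
      exact k32A hF (no a' c' b' haT hcT hbT h2.ac.ne h2.nab h2.ncb) hpl hpm hal ham hbm h1.ac
        hcm hcp h1.cb h1.ab h2.ac h2.ab h2.cb ka.1 ka.2 kc.1 kc.2

/-! ### the first tight case: a pentagon -/

/-- the pentagon `z 0, …, z 4` with the isolated vertex `z 5` and the seagull `z 6, z 7; z 8` -/
structure Pent (F : SimpleGraph V) (z : Fin 9 → V) : Prop where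
  no : No3 F z
  e01 : F.Adj (z 0) (z 1)
  e12 : F.Adj (z 1) (z 2)
  e23 : F.Adj (z 2) (z 3)
  e34 : F.Adj (z 3) (z 4)
  e40 : F.Adj (z 4) (z 0)
  n0 : ¬ F.Adj (z 0) (z 5)
  n1 : ¬ F.Adj (z 1) (z 5)
  n2 : ¬ F.Adj (z 2) (z 5)
  n3 : ¬ F.Adj (z 3) (z 5)
  n4 : ¬ F.Adj (z 4) (z 5)
  ac : F.Adj (z 6) (z 7)
  ab : ¬ F.Adj (z 6) (z 8)
  cb : ¬ F.Adj (z 7) (z 8)

/-- rotation -/
theorem Pent.rot {z : Fin 9 → V} (P : Pent F z) : Pent F (z ∘ ![1, 2, 3, 4, 0, 5, 6, 7, 8]) where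
  no := P.no.comp _ (by decide)
  e01 := P.e12
  e12 := P.e23
  e23 := P.e34
  e34 := P.e40
  e40 := P.e01
  n0 := P.n1
  n1 := P.n2
  n2 := P.n3
  n3 := P.n4
  n4 := P.n0
  ac := P.ac
  ab := P.ab
  cb := P.cb

/-- the isolated vertex `z 8` is joined to `z 0` and `z 2` -/
theorem Pent.core {z : Fin 9 → V} (hF : TriFree F) (P : Pent F z) (h0 : F.Adj (z 8) (z 0))
    (h2 : F.Adj (z 8) (z 2)) : False := by
  have s : ∀ {u w : V}, ¬ F.Adj u w → ¬ F.Adj w u := fun h h' => h h'.symm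
  have b1 : ¬ F.Adj (z 8) (z 1) := hF _ _ _ h0 P.e01
  have b3 : ¬ F.Adj (z 8) (z 3) := hF _ _ _ h2 P.e23
  have b4 : ¬ F.Adj (z 8) (z 4) := hF _ _ _ h0 P.e40.symm
  have d03 : ¬ F.Adj (z 0) (z 3) := hF _ _ _ P.e40.symm P.e34.symm
  have d24 : ¬ F.Adj (z 2) (z 4) := hF _ _ _ P.e23 P.e34
  -- `z 0, z 2, z 3, z 4` are joined to `z 6` or `z 7`
  have k0 : F.Adj (z 6) (z 0) ∨ F.Adj (z 7) (z 0) := by
    by_contra hcon
    push Not at hcon
    exact P.no ![3, 4, 8, 1, 2, 5, 6, 7, 0] (by decide) P.e34 (s b3) (s b4) P.e12 P.n1 P.n2 P.ac hcon.1 hcon.2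
  have k2 : F.Adj (z 6) (z 2) ∨ F.Adj (z 7) (z 2) := by
    by_contra hcon
    push Not at hcon
    exact P.no ![3, 4, 8, 0, 1, 5, 6, 7, 2] (by decide) P.e34 (s b3) (s b4) P.e01 P.n0 P.n1 P.ac hcon.1 hcon.2
  have k3 : F.Adj (z 6) (z 3) ∨ F.Adj (z 7) (z 3) := by
    by_contra hcon
    push Not at hcon
    exact P.no ![8, 2, 4, 0, 1, 5, 6, 7, 3] (by decide) h2 b4 d24 P.e01 P.n0 P.n1 P.ac hcon.1 hcon.2
  have k4 : F.Adj (z 6) (z 4) ∨ F.Adj (z 7) (z 4) := by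
    by_contra hcon
    push Not at hcon
    exact P.no ![8, 0, 3, 1, 2, 5, 6, 7, 4] (by decide) h0 b3 d03 P.e12 P.n1 P.n2 P.ac hcon.1 hcon.2
  have t : ∀ i, F.Adj (z 6) (z i) → ¬ F.Adj (z 7) (z i) := fun i h6 h7 => hF _ _ _ P.ac.symm h6 h7
  have t' : ∀ i, F.Adj (z 7) (z i) → ¬ F.Adj (z 6) (z i) := fun i h6 h7 => hF _ _ _ P.ac h6 h7
  rcases k0 with k | k
  · have k4' : ¬ F.Adj (z 6) (z 4) := hF _ _ _ k P.e40.symm
    have m4 : F.Adj (z 7) (z 4) := k4.resolve_left k4'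
    have m3' : ¬ F.Adj (z 7) (z 3) := hF _ _ _ m4 P.e34.symm
    have m3 : F.Adj (z 6) (z 3) := k3.resolve_right m3'
    have m2' : ¬ F.Adj (z 6) (z 2) := hF _ _ _ m3 P.e23.symm
    have m2 : F.Adj (z 7) (z 2) := k2.resolve_left m2'
    have a1 : ¬ F.Adj (z 6) (z 1) := hF _ _ _ k P.e01
    have c1 : ¬ F.Adj (z 7) (z 1) := hF _ _ _ m2 P.e12.symm
    have bc : F.Adj (z 7) (z 5) := by
      by_contra hcon
      exact P.no ![8, 0, 3, 1, 2, 6, 7, 4, 5] (by decide) h0 b3 d03 P.e12 (s a1) (s m2') m4 hcon P.n4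
    have ba : F.Adj (z 6) (z 5) := by
      by_contra hcon
      exact P.no ![8, 2, 4, 0, 1, 7, 6, 3, 5] (by decide) h2 b4 d24 P.e01 (s (t 0 k)) (s c1) m3 hcon P.n3
    exact hF _ _ _ P.ac bc ba
  · have k4' : ¬ F.Adj (z 7) (z 4) := hF _ _ _ k P.e40.symm
    have m4 : F.Adj (z 6) (z 4) := k4.resolve_right k4'
    have m3' : ¬ F.Adj (z 6) (z 3) := hF _ _ _ m4 P.e34.symm
    have m3 : F.Adj (z 7) (z 3) := k3.resolve_left m3'
    have m2' : ¬ F.Adj (z 7) (z 2) := hF _ _ _ m3 P.e23.symm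
    have m2 : F.Adj (z 6) (z 2) := k2.resolve_right m2'
    have a1 : ¬ F.Adj (z 7) (z 1) := hF _ _ _ k P.e01
    have c1 : ¬ F.Adj (z 6) (z 1) := hF _ _ _ m2 P.e12.symm
    have bc : F.Adj (z 6) (z 5) := by
      by_contra hcon
      exact P.no ![8, 0, 3, 1, 2, 7, 6, 4, 5] (by decide) h0 b3 d03 P.e12 (s a1) (s m2') m4 hcon P.n4
    have ba : F.Adj (z 7) (z 5) := by
      by_contra hcon
      exact P.no ![8, 2, 4, 0, 1, 6, 7, 3, 5] (by decide) h2 b4 d24 P.e01 (s (t' 0 k)) (s c1) m3 hcon P.n3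
    exact hF _ _ _ P.ac ba bc

/-- `z 0` is not joined to `z 6, z 7` -/
theorem Pent.base {z : Fin 9 → V} (hF : TriFree F) (P : Pent F z) (h6 : ¬ F.Adj (z 6) (z 0))
    (h7 : ¬ F.Adj (z 7) (z 0)) : False := by
  have s : ∀ {u w : V}, ¬ F.Adj u w → ¬ F.Adj w u := fun h h' => h h'.symm
  have k1 : F.Adj (z 8) (z 1) ∨ F.Adj (z 8) (z 2) := by
    by_contra hcon
    push Not at hcon
    exact P.no ![1, 2, 8, 3, 4, 5, 6, 7, 0] (by decide) P.e12 (s hcon.1) (s hcon.2) P.e34 P.n3 P.n4 P.ac h6 h7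
  have k2 : F.Adj (z 8) (z 3) ∨ F.Adj (z 8) (z 4) := by
    by_contra hcon
    push Not at hcon
    exact P.no ![3, 4, 8, 1, 2, 5, 6, 7, 0] (by decide) P.e34 (s hcon.1) (s hcon.2) P.e12 P.n1 P.n2 P.ac h6 h7
  rcases k1 with k1 | k1 <;> rcases k2 with k2 | k2
  · exact P.rot.core hF k1 k2
  · exact P.rot.rot.rot.rot.core hF k2 k1
  · exact hF _ _ _ k1 P.e23 k2
  · exact P.rot.rot.core hF k1 k2

/-- the pentagon -/
theorem Pent.false {z : Fin 9 → V} (hF : TriFree F) (P : Pent F z) : False := by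
  have key : ∀ {z : Fin 9 → V}, Pent F z → F.Adj (z 6) (z 0) ∨ F.Adj (z 7) (z 0) := by
    intro z P
    by_contra hcon
    push Not at hcon
    exact P.base hF hcon.1 hcon.2
  have k0 : F.Adj (z 6) (z 0) ∨ F.Adj (z 7) (z 0) := key P
  have k1 : F.Adj (z 6) (z 1) ∨ F.Adj (z 7) (z 1) := key P.rot
  have k2 : F.Adj (z 6) (z 2) ∨ F.Adj (z 7) (z 2) := key P.rot.rot
  have k3 : F.Adj (z 6) (z 3) ∨ F.Adj (z 7) (z 3) := key P.rot.rot.rot
  have k4 : F.Adj (z 6) (z 4) ∨ F.Adj (z 7) (z 4) := key P.rot.rot.rot.rot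
  rcases k0 with k | k
  · have m1 := k1.resolve_left (hF _ _ _ k P.e01)
    have m2 := k2.resolve_right (hF _ _ _ m1 P.e12)
    have m3 := k3.resolve_left (hF _ _ _ m2 P.e23)
    have m4 := k4.resolve_right (hF _ _ _ m3 P.e34)
    exact hF _ _ _ m4 P.e40 k
  · have m1 := k1.resolve_right (hF _ _ _ k P.e01)
    have m2 := k2.resolve_left (hF _ _ _ m1 P.e12)
    have m3 := k3.resolve_right (hF _ _ _ m2 P.e23)
    have m4 := k4.resolve_left (hF _ _ _ m3 P.e34)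
    exact hF _ _ _ m4 P.e40 k

/-- the first tight case -/
theorem c5 (hF : TriFree F) {R : Finset V} {SS : Finset (Finset V)} (h : Fam F R SS)
    (hmax : ∀ SS', Fam F R SS' → SS'.card ≤ SS.card) {S T : Finset V} (hS : S ∈ SS) (hT : T ∈ SS)
    (hST : S ≠ T) {a c b a' c' b' p l m : V} (hSe : S = {a, c, b}) (hTe : T = {a', c', b'})
    (h1 : Sg F a c b) (h2 : Sg F a' c' b')
    (hp : p ∈ rest R SS) (hl : l ∈ rest R SS) (hm : m ∈ rest R SS) (hlm : l ≠ m)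
    (hpl : F.Adj p l) (hpm : F.Adj p m) (hal : F.Adj a l) (hcm : F.Adj c m)
    (hbp : ¬ F.Adj b p) (hbl : ¬ F.Adj b l) (hbm : ¬ F.Adj b m) : False := by
  have haS : a ∈ S := by rw [hSe]; simp
  have hcS : c ∈ S := by rw [hSe]; simp
  have hbS : b ∈ S := by rw [hSe]; simp
  have haT : a' ∈ T := by rw [hTe]; simp
  have hcT : c' ∈ T := by rw [hTe]; simp
  have hbT : b' ∈ T := by rw [hTe]; simp
  have s : ∀ {u w : V}, ¬ F.Adj u w → ¬ F.Adj w u := fun h h' => h h'.symm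
  obtain ⟨k1, k2⟩ := nine_inj h hS hT hST hp hl hm haS hcS hbS haT hcT hbT hpl.ne hpm.ne hlm h1.ac.ne
      h1.nab h1.ncb h2.ac.ne h2.nab h2.ncb
  have P : Pent F (![p, l, m, a, c, b, a', c', b'] ∘ ![0, 1, 3, 4, 2, 5, 6, 7, 8]) :=
    { no := (h.no3 hmax hS hT k1 k2).comp _ (by decide)
      e01 := hpl
      e12 := hal.symm
      e23 := h1.ac
      e34 := hcm
      e40 := hpm.symm
      n0 := s hbp
      n1 := s hbl
      n2 := h1.ab
      n3 := h1.cb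
      n4 := s hbm
      ac := h2.ac
      ab := h2.ab
      cb := h2.cb }
  exact P.false hF

end Pool.Agent.SG
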