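import Mathlib
import Pool.Agent.SG.Base
import Pool.Agent.SG.CertB

/-!
# Packing seagulls: the tight case `|R| = 3 (g + 1)`

`SS` is a maximum family of `g ≥ 2` disjoint seagulls, all degrees in `R` are at most `g + 1`; then
the rest (three vertices) contains no edge.
-/

set_option autoImplicit false

namespace Pool.Agent.SG

open Finset
open scoped Classical

variable {V : Type} {F : SimpleGraph V}

/-- counting along a family of seagulls and its rest -/
theorem Fam.card_filter_t {R : Finset V} {SS : Finset (Finset V)} (h : Fam F R SS) (P : V → Prop) :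
    (R.filter P).card = ((rest R SS).filter P).card + ∑ S ∈ SS, (S.filter P).card := by
  have h1 : R.filter P = (rest R SS).filter P ∪ SS.biUnion (fun S => S.filter P) := by
    ext x
    simp only [mem_union, mem_filter, mem_biUnion, mem_rest]
    constructor
    · rintro ⟨h1, h2⟩
      by_cases hx : ∃ S ∈ SS, x ∈ S
      · obtain ⟨S, hS, hxS⟩ := hx
        exact Or.inr ⟨S, hS, hxS, h2⟩
      · push Not at hx
        exact Or.inl ⟨⟨h1, hx⟩, h2⟩
    · rintro (⟨⟨h1, -⟩, h2⟩ | ⟨S, hS, hxS, h2⟩)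
      · exact ⟨h1, h2⟩
      · exact ⟨h.sub S hS hxS, h2⟩
  have h2 : Disjoint ((rest R SS).filter P) (SS.biUnion (fun S => S.filter P)) := by
    rw [Finset.disjoint_left]
    intro x hx hx'
    obtain ⟨S, hS, hxS⟩ := mem_biUnion.1 hx'
    exact (mem_rest.1 (mem_filter.1 hx).1).2 S hS (mem_filter.1 hxS).1
  rw [h1, card_union_of_disjoint h2]
  congr 1
  refine card_biUnion (fun S hS T hT hne => ?_)
  exact Finset.disjoint_of_subset_left (filter_subset _ _)
    (Finset.disjoint_of_subset_right (filter_subset _ _) (h.dis S hS T hT hne))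

/-- a seagull inside the rest enlarges the family -/
theorem Fam.rest_no_sg {R : Finset V} {SS : Finset (Finset V)} (h : Fam F R SS)
    (hmax : ∀ SS', Fam F R SS' → SS'.card ≤ SS.card) {a c b : V} (ha : a ∈ rest R SS)
    (hc : c ∈ rest R SS) (hb : b ∈ rest R SS) : ¬ Sg F a c b := by
  intro hs
  have hsub : ({a, c, b} : Finset V) ⊆ rest R SS := tri_sub ha hc hb
  obtain ⟨h1, h2⟩ := h.cons hs.isSg (hsub.trans sdiff_subset) (fun S hS =>
    Finset.disjoint_of_subset_right hsub (Fam.disj_rest hS))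
  have := hmax _ h1
  omega

theorem card_filter_ge_two {X : Finset V} {P : V → Prop} {x y : V} (hx : x ∈ X) (hy : y ∈ X)
    (hne : x ≠ y) (h1 : P x) (h2 : P y) : 2 ≤ (X.filter P).card :=
  Finset.one_lt_card.2 ⟨x, mem_filter.2 ⟨hx, h1⟩, y, mem_filter.2 ⟨hy, h2⟩, hne⟩

theorem card_filter_ge_one {X : Finset V} {P : V → Prop} {x : V} (hx : x ∈ X)
    (h1 : P x) : 1 ≤ (X.filter P).card :=
  Finset.card_pos.2 ⟨x, mem_filter.2 ⟨hx, h1⟩⟩

/-- the shape of a seagull without neighbours of `p`, where `p ~ l, m` is the rest -/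
theorem shape (hF : TriFree F) {R : Finset V} {SS : Finset (Finset V)}
    (h : Fam F R SS) (hmax : ∀ SS', Fam F R SS' → SS'.card ≤ SS.card) {S : Finset V} (hS : S ∈ SS)
    {a c b p l m : V} (hSe : S = {a, c, b}) (hs : Sg F a c b)
    (hp : p ∈ rest R SS) (hl : l ∈ rest R SS) (hm : m ∈ rest R SS) (hlm : l ≠ m)
    (hpl : F.Adj p l) (hpm : F.Adj p m) (hap : ¬ F.Adj a p) (hcp : ¬ F.Adj c p) (hbp : ¬ F.Adj b p) :
    (¬ F.Adj b l ∧ ¬ F.Adj b m ∧ ((F.Adj a l ∧ F.Adj c m) ∨ (F.Adj c l ∧ F.Adj a m))) ∨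
    (F.Adj b l ∧ F.Adj b m ∧ ((F.Adj a l ∧ F.Adj a m ∧ ¬ F.Adj c l ∧ ¬ F.Adj c m) ∨
      (F.Adj c l ∧ F.Adj c m ∧ ¬ F.Adj a l ∧ ¬ F.Adj a m))) := by
  have haS : a ∈ S := by rw [hSe]; simp
  have hcS : c ∈ S := by rw [hSe]; simp
  have hbS : b ∈ S := by rw [hSe]; simp
  have hnr : ∀ x ∈ S, ∀ y ∈ rest R SS, x ≠ y := by
    rintro x hx y hy rfl
    exact (mem_rest.1 hy).2 S hS hx
  have hlm' : ¬ F.Adj l m := fun h' => hF p l m hpl h' hpm
  have hnm : ∀ u, F.Adj a u → ¬ F.Adj c u := fun u h1 h2 => hF c a u hs.ac.symm h1 h2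
  have uR : ∀ x ∈ rest R SS, x ∈ rest R SS ∪ S := fun x hx => mem_union_left _ hx
  have uS : ∀ x ∈ S, x ∈ rest R SS ∪ S := fun x hx => mem_union_right _ hx
  -- two disjoint seagulls `{p, u; x}` and the rest
  have two : ∀ x ∈ S, ∀ y ∈ S, ∀ z ∈ S, x ≠ y → x ≠ z → ¬ F.Adj x p →
      ∀ u ∈ rest R SS, ∀ w ∈ rest R SS, u ≠ w → p ≠ w → F.Adj p u → ¬ F.Adj x u →
      IsSg F {y, z, w} → False := by
    intro x hx y hy z hz hxy hxz hxp u hu w hw huw hpw hpu hxu hsg
    have h1 : Sg F p u x := ⟨hpu, fun h' => hxp h'.symm, fun h' => hxu h'.symm,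
      (hnr x hx p hp).symm, (hnr x hx u hu).symm⟩
    refine h.two hmax hS h1.isSg hsg ?_ (tri_sub (uR p hp) (uR u hu) (uS x hx))
      (tri_sub (uS y hy) (uS z hz) (uR w hw))
    exact disj_tri ⟨(hnr y hy p hp).symm, (hnr z hz p hp).symm, hpw⟩
      ⟨(hnr y hy u hu).symm, (hnr z hz u hu).symm, huw⟩ ⟨hxy, hxz, hnr x hx w hw⟩
  -- x = b
  have kb : ∀ u ∈ rest R SS, ∀ w ∈ rest R SS, u ≠ w → p ≠ w → F.Adj p u → ¬ F.Adj b u →
      F.Adj a w ∨ F.Adj c w := by
    intro u hu w hw huw hpw hpu hbu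
    by_contra hcon
    push Not at hcon
    exact two b hbS a haS c hcS hs.nab.symm hs.ncb.symm hbp u hu w hw huw hpw hpu hbu
      ⟨a, c, w, ⟨hs.ac, hcon.1, hcon.2, hnr a haS w hw, hnr c hcS w hw⟩, rfl⟩
  -- x = a
  have ka : ∀ u ∈ rest R SS, ∀ w ∈ rest R SS, u ≠ w → p ≠ w → F.Adj p u → ¬ F.Adj a u →
      (F.Adj c w ↔ F.Adj b w) := by
    intro u hu w hw huw hpw hpu hau
    by_contra hcon
    by_cases h1 : F.Adj c w
    · have h2 : ¬ F.Adj b w := fun h' => hcon ⟨fun _ => h', fun _ => h1⟩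
      refine two a haS c hcS b hbS hs.ac.ne hs.nab hap u hu w hw huw hpw hpu hau
        ⟨c, w, b, ⟨h1, hs.cb, fun h' => h2 h'.symm, hs.ncb, (hnr b hbS w hw).symm⟩, ?_⟩
      ext x; simp only [mem_insert, mem_singleton]; tauto
    · have h2 : F.Adj b w := by
        by_contra h'
        exact hcon ⟨fun h'' => absurd h'' h1, fun h'' => absurd h'' h'⟩
      refine two a haS c hcS b hbS hs.ac.ne hs.nab hap u hu w hw huw hpw hpu hau
        ⟨b, w, c, ⟨h2, fun h' => hs.cb h'.symm, fun h' => h1 h'.symm, hs.ncb.symm, (hnr c hcS w hw).symm⟩, ?_⟩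
      ext x; simp only [mem_insert, mem_singleton]; tauto
  -- x = c
  have kc : ∀ u ∈ rest R SS, ∀ w ∈ rest R SS, u ≠ w → p ≠ w → F.Adj p u → ¬ F.Adj c u →
      (F.Adj a w ↔ F.Adj b w) := by
    intro u hu w hw huw hpw hpu hcu
    by_contra hcon
    by_cases h1 : F.Adj a w
    · have h2 : ¬ F.Adj b w := fun h' => hcon ⟨fun _ => h', fun _ => h1⟩
      refine two c hcS a haS b hbS hs.ac.ne.symm hs.ncb hcp u hu w hw huw hpw hpu hcu
        ⟨a, w, b, ⟨h1, hs.ab, fun h' => h2 h'.symm, hs.nab, (hnr b hbS w hw).symm⟩, ?_⟩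
      ext x; simp only [mem_insert, mem_singleton]; tauto
    · have h2 : F.Adj b w := by
        by_contra h'
        exact hcon ⟨fun h'' => absurd h'' h1, fun h'' => absurd h'' h'⟩
      refine two c hcS a haS b hbS hs.ac.ne.symm hs.ncb hcp u hu w hw huw hpw hpu hcu
        ⟨b, w, a, ⟨h2, fun h' => hs.ab h'.symm, fun h' => h1 h'.symm, hs.nab.symm, (hnr a haS w hw).symm⟩, ?_⟩
      ext x; simp only [mem_insert, mem_singleton]; tauto
  have hpl' := hpl.ne
  have hpm' := hpm.ne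
  have b1 := kb l hl m hm hlm hpm' hpl
  have b2 := kb m hm l hl hlm.symm hpl' hpm
  have a1 := ka l hl m hm hlm hpm' hpl
  have a2 := ka m hm l hl hlm.symm hpl' hpm
  have c1 := kc l hl m hm hlm hpm' hpl
  have c2 := kc m hm l hl hlm.symm hpl' hpm
  have n1 := hnm l
  have n2 := hnm m
  clear ka kb kc two
  by_cases hal : F.Adj a l
  · have hcl : ¬ F.Adj c l := n1 hal
    by_cases ham : F.Adj a m
    · have hcm : ¬ F.Adj c m := n2 ham
      exact Or.inr ⟨(c2 hcm).1 hal, (c1 hcl).1 ham, Or.inl ⟨hal, ham, hcl, hcm⟩⟩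
    · have hbm : ¬ F.Adj b m := fun h' => ham ((c1 hcl).2 h')
      have hbl : ¬ F.Adj b l := fun h' => hcl ((a2 ham).2 h')
      exact Or.inl ⟨hbl, hbm, Or.inl ⟨hal, (b1 hbl).resolve_left ham⟩⟩
  · by_cases hcl : F.Adj c l
    · by_cases hcm : F.Adj c m
      · have ham : ¬ F.Adj a m := fun h' => n2 h' hcm
        exact Or.inr ⟨(a2 ham).1 hcl, (a1 hal).1 hcm, Or.inr ⟨hcl, hcm, hal, ham⟩⟩
      · have hbm : ¬ F.Adj b m := fun h' => hcm ((a1 hal).2 h')
        have hbl : ¬ F.Adj b l := fun h' => hal ((c2 hcm).2 h')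
        exact Or.inl ⟨hbl, hbm, Or.inr ⟨hcl, (b1 hbl).resolve_right hcm⟩⟩
    · have hbm : F.Adj b m := by
        by_contra h'
        rcases b2 h' with h'' | h''
        · exact hal h''
        · exact hcl h''
      exact absurd ((a1 hal).2 hbm) (n2 ((c1 hcl).2 hbm))

theorem tight {V : Type} {F : SimpleGraph V} (hF : TriFree F) {R : Finset V} {SS : Finset (Finset V)}
    (h : Fam F R SS) (hmax : ∀ SS', Fam F R SS' → SS'.card ≤ SS.card) (hs : 2 ≤ SS.card)
    (hR : R.card = 3 * (SS.card + 1))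
    (hD : ∀ x ∈ R, (R.filter (fun y => F.Adj x y)).card ≤ SS.card + 1) {x y : V}
    (hx : x ∈ rest R SS) (hy : y ∈ rest R SS) (hxy : F.Adj x y) : False := by
  have hrest : (rest R SS).card = 3 := by
    have := h.card_rest
    omega
  -- p, l, m
  obtain ⟨p, l, m, hp, hl, hm, hlm, hpl, hpm⟩ : ∃ p l m : V, p ∈ rest R SS ∧ l ∈ rest R SS ∧
      m ∈ rest R SS ∧ l ≠ m ∧ F.Adj p l ∧ F.Adj p m := by
    obtain ⟨z, hz, hzx, hzy⟩ : ∃ z ∈ rest R SS, z ≠ x ∧ z ≠ y := by
      by_contra hcon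
      push Not at hcon
      have h1 : rest R SS ⊆ {x, y} := by
        intro z hz
        rw [mem_insert, mem_singleton]
        by_cases hzx : z = x
        · exact Or.inl hzx
        · exact Or.inr (hcon z hz hzx)
      have h2 := card_le_card h1
      have h3 : ({x, y} : Finset V).card ≤ 2 := card_le_two
      omega
    have h1 := h.rest_no_sg hmax hx hy hz
    by_cases h2 : F.Adj x z
    · exact ⟨x, y, z, hx, hy, hz, fun e => hzy e.symm, hxy, h2⟩
    · by_cases h3 : F.Adj y z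
      · exact ⟨y, x, z, hy, hx, hz, fun e => hzx e.symm, hxy.symm, h3⟩
      · exact absurd ⟨hxy, h2, h3, hzx.symm, hzy.symm⟩ h1
  -- a seagull without neighbours of p
  have hRm : ∀ z ∈ rest R SS, z ∈ R := fun z hz => (mem_rest.1 hz).1
  obtain ⟨S, hS, hSp⟩ : ∃ S ∈ SS, (S.filter (fun z => F.Adj p z)).card = 0 := by
    by_contra hcon
    push Not at hcon
    have h1 := h.card_filter_t (fun z => F.Adj p z)
    have h2 : SS.card ≤ ∑ S ∈ SS, (S.filter (fun z => F.Adj p z)).card := by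
      have : ∑ _S ∈ SS, 1 ≤ ∑ S ∈ SS, (S.filter (fun z => F.Adj p z)).card :=
        Finset.sum_le_sum (fun S hS => Nat.one_le_iff_ne_zero.2 (hcon S hS))
      simpa using this
    have h3 := hD p (hRm p hp)
    have h4 := card_filter_ge_two (P := fun z => F.Adj p z) hl hm hlm hpl hpm
    omega
  have hSp' : ∀ z ∈ S, ¬ F.Adj z p := by
    intro z hz h'
    have := card_filter_ge_one (P := fun z => F.Adj p z) hz h'.symm
    omega
  obtain ⟨T, hT, hTS⟩ : ∃ T ∈ SS, T ≠ S := by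
    by_contra hcon
    push Not at hcon
    have h1 : SS ⊆ {S} := fun T hT => mem_singleton.2 (hcon T hT)
    have h2 := card_le_card h1
    rw [card_singleton] at h2
    omega
  obtain ⟨a, c, b, hsg, hSe⟩ := h.sg S hS
  have haS : a ∈ S := by rw [hSe]; simp
  have hcS : c ∈ S := by rw [hSe]; simp
  have hbS : b ∈ S := by rw [hSe]; simp
  have hSe' : S = {c, a, b} := by
    rw [hSe]; ext z; simp only [mem_insert, mem_singleton]; tauto
  have hlm' : ¬ F.Adj l m := fun h' => hF p l m hpl h' hpm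
  -- the case K(3,2)
  have case8 : ∀ a c : V, Sg F a c b → S = {a, c, b} → F.Adj b l → F.Adj b m → F.Adj a l →
      F.Adj a m → ¬ F.Adj c l → ¬ F.Adj c m → False := by
    intro a c hsg hSe hbl hbm hal ham hcl hcm
    have haS : a ∈ S := by rw [hSe]; simp
    have hcS : c ∈ S := by rw [hSe]; simp
    have hbS : b ∈ S := by rw [hSe]; simp
    obtain ⟨T, hT, hTS, hsmall⟩ : ∃ T ∈ SS, T ≠ S ∧
        (T.filter (F.Adj l)).card + (T.filter (F.Adj a)).card ≤ 1 := by
      by_contra hcon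
      push Not at hcon
      have h1 := h.card_filter_t (F.Adj l)
      have h2 := h.card_filter_t (F.Adj a)
      have h3 : (R.filter (F.Adj l)).card ≤ SS.card + 1 := hD l (hRm l hl)
      have h4 : (R.filter (F.Adj a)).card ≤ SS.card + 1 := hD a (h.sub S hS haS)
      have h5 := card_filter_ge_one (P := F.Adj l) hp hpl.symm
      have h6 := card_filter_ge_two (P := F.Adj a) hl hm hlm hal ham
      have h7 := card_filter_ge_two (P := F.Adj l) haS hbS hsg.nab hal.symm hbl.symm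
      have h8 := card_filter_ge_one (P := F.Adj a) hcS hsg.ac
      rw [← Finset.add_sum_erase SS _ hS] at h1 h2
      have h9 : 2 * (SS.erase S).card ≤ ∑ T ∈ SS.erase S,
          ((T.filter (F.Adj l)).card + (T.filter (F.Adj a)).card) := by
        have : ∑ _T ∈ SS.erase S, 2 ≤ ∑ T ∈ SS.erase S,
            ((T.filter (F.Adj l)).card + (T.filter (F.Adj a)).card) :=
          Finset.sum_le_sum (fun T hT => hcon T (mem_of_mem_erase hT) (ne_of_mem_erase hT))
        rw [sum_const, smul_eq_mul] at this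
        omega
      rw [sum_add_distrib] at h9
      have h10 : (SS.erase S).card + 1 = SS.card := card_erase_add_one hS
      omega
    obtain ⟨a', c', b', hsg', hTe⟩ := h.sg T hT
    exact k32 hF h hmax hS hT hTS.symm hSe hTe hsg hsg' hp hl hm hlm hpl hpm hal hbl ham hbm hcl hcm
      (hSp' a haS) (hSp' b hbS) (hSp' c hcS) hsmall
  obtain ⟨a', c', b', hsg', hTe⟩ := h.sg T hT
  rcases shape hF h hmax hS hSe hsg hp hl hm hlm hpl hpm (hSp' a haS) (hSp' c hcS) (hSp' b hbS) with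
    ⟨hbl, hbm, ⟨h1, h2⟩ | ⟨h1, h2⟩⟩ | ⟨hbl, hbm, ⟨h1, h2, h3, h4⟩ | ⟨h1, h2, h3, h4⟩⟩
  · exact c5 hF h hmax hS hT hTS.symm hSe hTe hsg hsg' hp hl hm hlm hpl hpm h1 h2 (hSp' b hbS) hbl hbm
  · exact c5 hF h hmax hS hT hTS.symm hSe' hTe hsg.symm hsg' hp hl hm hlm hpl hpm h1 h2 (hSp' b hbS) hbl hbm
  · exact case8 a c hsg hSe hbl hbm h1 h2 h3 h4
  · exact case8 c a hsg.symm hSe' hbl hbm h1 h2 h3 h4

end Pool.Agent.SG
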