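import Mathlib
import Pool.Agent.SG.MainT
import Pool.Agent.SG.Tight

/-!
# SG: the seagull packing theorem
-/

set_option autoImplicit false

namespace Pool.Agent.SG

open Finset
open scoped Classical

theorem tightStmt : TightStmt := by
  intro V F hF R SS h hmax hs hR hD x y hx hy hxy
  exact tight hF h hmax hs hR hD hx hy hxy

/-- the seagull packing theorem -/
theorem main {V : Type} {F : SimpleGraph V} (hF : TriFree F) {R : Finset V} {s : ℕ} (hs : 1 ≤ s)
    (hR : 3 * s ≤ R.card)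
    (hI : ∀ I, I ⊆ R → (∀ x ∈ I, ∀ y ∈ I, ¬ F.Adj x y) → I.card + 2 * s ≤ R.card + 1)
    (hD : ∀ x ∈ R, (R.filter (fun y => F.Adj x y)).card + 2 * s ≤ R.card)
    (hC : ∀ A B, A ⊆ R → B ⊆ R → Disjoint A B → A.Nonempty → B.Nonempty →
      (∀ a ∈ A, ∀ b ∈ B, F.Adj a b) → A.card + B.card + s ≤ R.card)
    (hE : ¬ (s = 2 ∧ R.card = 6)) : ∃ SS, Fam F R SS ∧ SS.card = s :=
  main_of tightStmt looseStmt hF hs hR hI hD hC hE

end Pool.Agent.SG
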